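import Pool.Agent.R288.FT.Alg

/-!
# MP_3ff6cb_lc: correctness of the algorithm (piece AL)
-/

set_option autoImplicit false

namespace Pool.Agent.R288.FT.PAL

open Pool.Agent.NPC Pool.Agent.NPC.R671 Pool.Agent.R288.FT

theorem foldl_min (l : List ℕ) : ∀ a : ℕ, l.foldl min a ≤ a ∧ (∀ x ∈ l, l.foldl min a ≤ x) ∧
    (l.foldl min a = a ∨ l.foldl min a ∈ l) := by
  induction l with
  | nil => intro a; simp
  | cons b l ih =>
    intro a
    obtain ⟨h1, h2, h3⟩ := ih (min a b)
    rw [List.foldl_cons]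
    refine ⟨h1.trans (min_le_left _ _), ?_, ?_⟩
    · intro x hx
      rcases List.mem_cons.1 hx with rfl | hx
      · exact h1.trans (min_le_right _ _)
      · exact h2 x hx
    · rcases h3 with h | h
      · rcases min_choice a b with h' | h'
        · left; rw [h, h']
        · right; rw [h, h']; exact List.mem_cons_self
      · right; exact List.mem_cons_of_mem _ h

theorem gen (c r : ℕ) (hCO : ∀ (V : Type) [Fintype V] [DecidableEq V] (G : SimpleGraph V)
    (pre : ℕ → Finset V), Greedy G pre → ∀ B : Finset V, S3 G B →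
    (∀ B' : Finset V, S3 G B' → B.card ≤ B'.card) →
    ∃ (j : ℕ) (R S : Finset V) (t : Finset V → ℕ), j < Fintype.card V ∧ R.card ≤ c ∧
      S.card ≤ r ∧ (∀ τ ⊆ R, t τ ≤ (cls G (pre j) R τ).card) ∧
      ∀ C : Finset V → Finset V, (∀ τ ⊆ R, C τ ⊆ cls G (pre j) R τ ∧ (C τ).card = t τ) →
        S3 G (pre j ∪ S ∪ R.powerset.biUnion C) ∧
        (pre j ∪ S ∪ R.powerset.biUnion C).card = B.card)
    (h2 : S_BR) (h3 : S_LB) (h4 : S_LC) (n : ℕ) (G : SimpleGraph (Fin n)) :
    algL c r (adjMatrix G) = fk 3 G := by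
  obtain ⟨hlen, -, -, -, hs3, hcard, hgr⟩ := h3 n G
  -- the values
  set M : Set ℕ := {m : ℕ | ∃ B : Finset (Fin n), Feasible 3 G B ∧ B.card = m} with hM
  have hfk : fk 3 G = sInf M := rfl
  have hn2 : n - 2 ∈ M := by
    obtain ⟨B, -, hB⟩ := Finset.exists_subset_card_eq
      (s := (Finset.univ : Finset (Fin n))) (n := n - 2) (by rw [Finset.card_fin]; omega)
    refine ⟨B, (h2 (Fin n) G B).2 (Or.inl ?_), hB⟩
    rw [Fintype.card_fin]; omega
  have hval : ∀ B : List ℕ, val (adjMatrix G) B ∈ M := by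
    intro B
    unfold val
    split_ifs with h
    · rw [hlen, hcard B]
      exact ⟨FF n B, (h2 (Fin n) G _).2 (Or.inr ((hs3 B).1 h)), rfl⟩
    · rw [hlen]; exact hn2
  have hval' : ∀ B : List ℕ, S3 G (FF n B) → val (adjMatrix G) B = (FF n B).card := by
    intro B hB
    unfold val
    rw [if_pos ((hs3 B).2 hB), hlen, hcard B]
  rw [hfk]
  unfold algL
  rw [hlen]
  set l := ((List.range (n + 1)).flatMap fun j =>
    (lists (List.range (n + 1)) c).flatMap fun R =>
      (lists (List.range (n + 1)) r).flatMap fun S =>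
        (lists (List.range (n + 1)) (bools c).length).map fun t =>
          val (adjMatrix G) (cand (adjMatrix G) (bools c) (preL (adjMatrix G) j) R S t)) with hl
  obtain ⟨q1, q2, q3⟩ := foldl_min l (n - 2)
  apply le_antisymm
  · obtain ⟨B, hB, hBc⟩ := Nat.sInf_mem (⟨_, hn2⟩ : M.Nonempty)
    rw [← hBc]
    rcases (h2 (Fin n) G B).1 hB with h | h
    · rw [Fintype.card_fin] at h
      omega
    · have hmin : ∀ B' : Finset (Fin n), S3 G B' → B.card ≤ B'.card := by
        intro B' hB'
        rw [hBc]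
        exact Nat.sInf_le ⟨B', (h2 (Fin n) G B').2 (Or.inr hB'), rfl⟩
      obtain ⟨j, R, S, t, hj, hR, hS, ht, hC⟩ :=
        hCO (Fin n) G (fun j => FF n (preL (adjMatrix G) j)) hgr B h hmin
      rw [Fintype.card_fin] at hj
      obtain ⟨R', hR', S', hS', t', ht', C, hC1, hC2⟩ :=
        h4 n G c r (preL (adjMatrix G) j) R S (fun τ => min (t τ) n) hR hS
          (fun τ hτ => (min_le_left _ _).trans (ht τ hτ)) (fun τ => min_le_right _ _)
      have hC3 : ∀ τ ⊆ R, C τ ⊆ cls G (FF n (preL (adjMatrix G) j)) R τ ∧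
          (C τ).card = t τ := by
        intro τ hτ
        refine ⟨(hC1 τ hτ).1, ?_⟩
        rw [(hC1 τ hτ).2]
        apply min_eq_left
        have h5 := ht τ hτ
        have h6 := Finset.card_le_univ (cls G (FF n (preL (adjMatrix G) j)) R τ)
        rw [Fintype.card_fin] at h6
        exact h5.trans h6
      obtain ⟨k1, k2⟩ := hC C hC3
      have e : FF n (cand (adjMatrix G) (bools c) (preL (adjMatrix G) j) R' S' t') =
        FF n (preL (adjMatrix G) j) ∪ S ∪ R.powerset.biUnion C := hC2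
      have k3 : val (adjMatrix G)
          (cand (adjMatrix G) (bools c) (preL (adjMatrix G) j) R' S' t') = B.card := by
        rw [hval' _ (by rw [e]; exact k1), e]
        exact k2
      rw [← k3]
      apply q2
      rw [hl]
      refine List.mem_flatMap.2 ⟨j, List.mem_range.2 (by omega), ?_⟩
      refine List.mem_flatMap.2 ⟨R', hR', ?_⟩
      refine List.mem_flatMap.2 ⟨S', hS', ?_⟩
      exact List.mem_map.2 ⟨t', ht', rfl⟩
  · apply Nat.sInf_le
    rcases q3 with h | h
    · rw [h]; exact hn2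
    · rw [hl] at h
      obtain ⟨j, -, h⟩ := List.mem_flatMap.1 h
      obtain ⟨R, -, h⟩ := List.mem_flatMap.1 h
      obtain ⟨S, -, h⟩ := List.mem_flatMap.1 h
      obtain ⟨t, -, h⟩ := List.mem_map.1 h
      rw [hl, ← h]
      exact hval _

theorem t_AL (h1 : S_CO) (h2 : S_BR) (h3 : S_LB) (h4 : S_LC) : S_AL :=
  fun n G => gen 579 42696 h1 h2 h3 h4 n G

end Pool.Agent.R288.FT.PAL
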