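import Mathlib

/-!
# MP_3ff6cb_lc: `f_3(G)` in polynomial time. Statements of the graph theoretic pieces
(complete proofs in `NOTES.md`).
-/

set_option autoImplicit false

open Finset

namespace Pool.Agent.R288.FT

open Classical in
/-- degree of `v` in `G - B` (for `v ∉ B`): number of neighbours outside `B` -/
noncomputable def dg {V : Type} [Fintype V] (G : SimpleGraph V) (B : Finset V) (v : V) : ℕ :=
  (univ.filter fun u => u ∉ B ∧ G.Adj v u).card

/-- at least three vertices of `G - B` have maximum degree -/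
def S3 {V : Type} [Fintype V] (G : SimpleGraph V) (B : Finset V) : Prop :=
  ∃ x y z, x ∉ B ∧ y ∉ B ∧ z ∉ B ∧ x ≠ y ∧ x ≠ z ∧ y ≠ z ∧ dg G B y = dg G B x ∧
    dg G B z = dg G B x ∧ ∀ v, v ∉ B → dg G B v ≤ dg G B x

/-- `B` is feasible -/
def Sol {V : Type} [Fintype V] (G : SimpleGraph V) (B : Finset V) : Prop :=
  Fintype.card V < 3 + B.card ∨ S3 G B

/-- MON: the degrees under deletion of further vertices. -/
def S_MON : Prop := ∀ (V : Type) [Fintype V] (G : SimpleGraph V) (B B' : Finset V), B ⊆ B' →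
  ∀ v, dg G B' v ≤ dg G B v ∧ dg G B v + B.card ≤ dg G B' v + B'.card ∧
    ((∀ u ∈ B', u ∉ B → G.Adj v u) → dg G B v + B.card = dg G B' v + B'.card) ∧
    ((∀ u ∈ B', u ∉ B → ¬ G.Adj v u) → dg G B' v = dg G B v)

/-- EQ: equalise two vertices by deleting `dg x - dg y` vertices of `N(x) - N[y]`. -/
def S_EQ : Prop := ∀ (V : Type) [Fintype V] (G : SimpleGraph V) (B : Finset V) (x y : V),
  x ∉ B → y ∉ B → x ≠ y → dg G B y ≤ dg G B x →
  ∃ B' : Finset V, B ⊆ B' ∧ B'.card + dg G B y = B.card + dg G B x ∧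
    (∀ u ∈ B', u ∉ B → G.Adj x u ∧ ¬ G.Adj y u ∧ u ≠ y ∧ u ≠ x) ∧
    dg G B' x = dg G B y ∧ dg G B' y = dg G B y

/-- CA (claim A): two vertices of the same maximum degree and the third one `z`, no obstacle. -/
def S_CA : Prop := ∀ (V : Type) [Fintype V] (G : SimpleGraph V) (B : Finset V) (x y z : V),
  x ∉ B → y ∉ B → z ∉ B → x ≠ y → x ≠ z → y ≠ z → dg G B y = dg G B x → dg G B z ≤ dg G B x →
  (∀ v, v ∉ B → v ≠ x → v ≠ y → dg G B v ≤ dg G B z) →
  (¬ G.Adj x y ∨ G.Adj y z ∨ ∃ u, u ∉ B ∧ u ≠ x ∧ G.Adj z u ∧ ¬ G.Adj x u) →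
  (¬ G.Adj x y ∨ G.Adj x z ∨ ∃ u, u ∉ B ∧ u ≠ y ∧ G.Adj z u ∧ ¬ G.Adj y u) →
  ∃ B' : Finset V, B ⊆ B' ∧ S3 G B' ∧ B'.card + 2 * dg G B z ≤ B.card + 2 * dg G B x

/-- NA: a nonadjacent pair of the same maximum degree and a vertex `r` with degree at most `L`
less. -/
def S_NA : Prop := ∀ (V : Type) [Fintype V] (G : SimpleGraph V) (B : Finset V) (x y r : V) (L : ℕ),
  x ∉ B → y ∉ B → r ∉ B → x ≠ y → r ≠ x → r ≠ y → dg G B y = dg G B x → ¬ G.Adj x y →
  (∀ v, v ∉ B → dg G B v ≤ dg G B x) → dg G B x ≤ dg G B r + L →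
  ∃ B' : Finset V, B ⊆ B' ∧ S3 G B' ∧ B'.card ≤ B.card + 2 * L

/-- L1: the vertex `x` of maximum degree has two nonneighbours with degree at most `L` less. -/
def S_L1 : Prop := ∀ (V : Type) [Fintype V] (G : SimpleGraph V) (B : Finset V)
  (x r1 r2 : V) (L : ℕ), x ∉ B → r1 ∉ B → r2 ∉ B → r1 ≠ r2 → r1 ≠ x → r2 ≠ x →
  ¬ G.Adj x r1 → ¬ G.Adj x r2 → (∀ v, v ∉ B → dg G B v ≤ dg G B x) →
  dg G B x ≤ dg G B r1 + L → dg G B x ≤ dg G B r2 + L →
  ∃ B' : Finset V, B ⊆ B' ∧ S3 G B' ∧ B'.card ≤ B.card + 5 * L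

/-- L2: eight vertices with degree at most `s` less than the maximum. -/
def S_L2 : Prop := ∀ (V : Type) [Fintype V] (G : SimpleGraph V) (B W : Finset V) (s : ℕ),
  (∀ w ∈ W, w ∉ B) → 8 ≤ W.card → (∀ w ∈ W, ∀ v, v ∉ B → dg G B v ≤ dg G B w + s) →
  ∃ B' : Finset V, B ⊆ B' ∧ S3 G B' ∧ B'.card ≤ B.card + 36 * (s + 1)

open Classical in
/-- WI: at least 576 vertices of degree greater than `d`; maximum degree `D`. -/
def S_WI : Prop := ∀ (V : Type) [Fintype V] (G : SimpleGraph V) (B : Finset V) (d D : ℕ),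
  (∀ v, v ∉ B → dg G B v ≤ D) → 576 ≤ (univ.filter fun v => v ∉ B ∧ d < dg G B v).card →
  ∃ B' : Finset V, B ⊆ B' ∧ S3 G B' ∧ 2 * B'.card + d ≤ 2 * B.card + D + 42696

/-- greedy sequences: `pre (j+1)` is obtained from `pre j` by adding a vertex of maximum degree of
`G - pre j` -/
def Greedy {V : Type} [Fintype V] [DecidableEq V] (G : SimpleGraph V) (pre : ℕ → Finset V) :
    Prop :=
  pre 0 = ∅ ∧ ∀ j, j < Fintype.card V → ∃ u, u ∉ pre j ∧
    (∀ v, v ∉ pre j → dg G (pre j) v ≤ dg G (pre j) u) ∧ pre (j + 1) = insert u (pre j)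

open Classical in
/-- the vertices outside `B ∪ R` whose set of neighbours in `R` is `τ` -/
noncomputable def cls {V : Type} [Fintype V] (G : SimpleGraph V) (B R τ : Finset V) : Finset V :=
  univ.filter fun v => v ∉ B ∧ v ∉ R ∧ R.filter (fun u => G.Adj v u) = τ

/-- CO: completeness of the candidates. -/
def S_CO : Prop := ∀ (V : Type) [Fintype V] [DecidableEq V] (G : SimpleGraph V)
  (pre : ℕ → Finset V), Greedy G pre → ∀ B : Finset V, S3 G B →
  (∀ B' : Finset V, S3 G B' → B.card ≤ B'.card) →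
  ∃ (j : ℕ) (R S : Finset V) (t : Finset V → ℕ), j < Fintype.card V ∧ R.card ≤ 579 ∧
    S.card ≤ 42696 ∧ (∀ τ ⊆ R, t τ ≤ (cls G (pre j) R τ).card) ∧
    ∀ C : Finset V → Finset V, (∀ τ ⊆ R, C τ ⊆ cls G (pre j) R τ ∧ (C τ).card = t τ) →
      S3 G (pre j ∪ S ∪ R.powerset.biUnion C) ∧
      (pre j ∪ S ∪ R.powerset.biUnion C).card = B.card

open Classical in
/-- The set `B` is feasible for `f_k`: in the subgraph `H` of `G` induced by the complement of `B`,
at least `k` vertices have degree `Δ(H)`, or `H` has less than `k` vertices. -/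
def Feasible {V : Type} [Fintype V] (k : ℕ) (G : SimpleGraph V) (B : Finset V) : Prop :=
  k ≤ (univ.filter fun v : {v : V // v ∉ B} =>
      (G.induce {v : V | v ∉ B}).degree v = (G.induce {v : V | v ∉ B}).maxDegree).card ∨
    Fintype.card {v : V // v ∉ B} < k

/-- `f_k(G)`: the least size of a feasible set. -/
noncomputable def fk {V : Type} [Fintype V] (k : ℕ) (G : SimpleGraph V) : ℕ :=
  sInf {m : ℕ | ∃ B : Finset V, Feasible k G B ∧ B.card = m}

/-- BR: bridge. -/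
def S_BR : Prop := ∀ (V : Type) [Fintype V] (G : SimpleGraph V) (B : Finset V),
  Feasible 3 G B ↔ Sol G B

end Pool.Agent.R288.FT
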