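import Pool.Agent.NPC.Dec
import Pool.Agent.H671R2.ZDefs
import Pool.Agent.R288.FT.Gr

/-!
# MP_3ff6cb_lc: the algorithm, on adjacency matrices (lists of rows)
-/

set_option autoImplicit false

namespace Pool.Agent.R288.FT

open Pool.Agent.NPC Pool.Agent.NPC.R671

/-- adjacency -/
def adL (A : List (List Bool)) (u v : ℕ) : Bool := (A.getD u []).getD v false

/-- the vertices which are not deleted -/
def rem (A : List (List Bool)) (B : List ℕ) : List ℕ :=
  (List.range A.length).filter fun v => decide (v ∉ B)

/-- degrees -/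
def dgL (A : List (List Bool)) (B : List ℕ) (v : ℕ) : ℕ :=
  ((rem A B).filter fun u => adL A v u).length

/-- three vertices of maximum degree -/
def s3L (A : List (List Bool)) (B : List ℕ) : Bool :=
  (rem A B).any fun x => (rem A B).all (fun v => decide (dgL A B v ≤ dgL A B x)) &&
    decide (3 ≤ ((rem A B).filter fun v => decide (dgL A B v = dgL A B x)).length)

/-- one greedy step: delete the first vertex of maximum degree -/
def stepL (A : List (List Bool)) (B : List ℕ) : List ℕ :=
  ((rem A B).filter fun u => (rem A B).all (fun v => decide (dgL A B v ≤ dgL A B u))).take 1 ++ B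

/-- the greedy sequence -/
def preL (A : List (List Bool)) (j : ℕ) : List ℕ :=
  (List.range j).foldl (fun B _ => stepL A B) []

/-- all lists of length `k` with entries in `l` -/
def lists (l : List ℕ) : ℕ → List (List ℕ)
  | 0 => [[]]
  | k + 1 => l.flatMap fun a => (lists l k).map fun b => a :: b

/-- all lists of Booleans of length `k` -/
def bools : ℕ → List (List Bool)
  | 0 => [[]]
  | k + 1 => (bools k).map (fun b => true :: b) ++ (bools k).map (fun b => false :: b)

/-- the candidate for given `P`, `R`, `S` and numbers `t` for the patterns `pa` -/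
def cand (A : List (List Bool)) (pa : List (List Bool)) (P R S t : List ℕ) : List ℕ :=
  P ++ S ++ (pa.zip t).flatMap fun q =>
    ((rem A (P ++ R)).filter fun v => decide (R.map (fun u => adL A v u) = q.1)).take q.2

/-- the number of deleted vertices of a candidate, if it is feasible -/
def val (A : List (List Bool)) (B : List ℕ) : ℕ :=
  if s3L A B then A.length - (rem A B).length else A.length - 2

/-- The algorithm (with constants `c`, `r`). -/
def algL (c r : ℕ) (A : List (List Bool)) : ℕ :=
  ((List.range (A.length + 1)).flatMap fun j =>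
    (lists (List.range (A.length + 1)) c).flatMap fun R =>
      (lists (List.range (A.length + 1)) r).flatMap fun S =>
        (lists (List.range (A.length + 1)) (bools c).length).map fun t =>
          val A (cand A (bools c) (preL A j) R S t)).foldl min (A.length - 2)

/-- the vertices of a list -/
def FF (n : ℕ) (B : List ℕ) : Finset (Fin n) := Finset.univ.filter fun v => (v : ℕ) ∈ B

/-- LB: translation of lists into sets. -/
def S_LB : Prop := ∀ (n : ℕ) (G : SimpleGraph (Fin n)),
  (adjMatrix G).length = n ∧
  (∀ u v : Fin n, adL (adjMatrix G) u v = true ↔ G.Adj u v) ∧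
  (∀ u v : ℕ, adL (adjMatrix G) u v = true → u < n ∧ v < n) ∧
  (∀ (B : List ℕ) (v : Fin n), dgL (adjMatrix G) B v = dg G (FF n B) v) ∧
  (∀ B : List ℕ, s3L (adjMatrix G) B = true ↔ S3 G (FF n B)) ∧
  (∀ B : List ℕ, n - (rem (adjMatrix G) B).length = (FF n B).card) ∧
  Greedy G (fun j => FF n (preL (adjMatrix G) j))

/-- LC: every choice of numbers is realised by a candidate. -/
def S_LC : Prop := ∀ (n : ℕ) (G : SimpleGraph (Fin n)) (c r : ℕ) (P : List ℕ)
  (R S : Finset (Fin n)) (t : Finset (Fin n) → ℕ), R.card ≤ c → S.card ≤ r →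
  (∀ τ ⊆ R, t τ ≤ (cls G (FF n P) R τ).card) → (∀ τ, t τ ≤ n) →
  ∃ R' ∈ lists (List.range (n + 1)) c, ∃ S' ∈ lists (List.range (n + 1)) r,
    ∃ t' ∈ lists (List.range (n + 1)) (bools c).length, ∃ C : Finset (Fin n) → Finset (Fin n),
      (∀ τ ⊆ R, C τ ⊆ cls G (FF n P) R τ ∧ (C τ).card = t τ) ∧
      FF n (cand (adjMatrix G) (bools c) P R' S' t') = FF n P ∪ S ∪ R.powerset.biUnion C

/-- AL: correctness of the algorithm. -/
def S_AL : Prop := ∀ (n : ℕ) (G : SimpleGraph (Fin n)), algL 579 42696 (adjMatrix G) = fk 3 G

/-- PO: polynomial time. -/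
def S_PO : Prop := ∀ c r : ℕ, Poly (algL c r)

end Pool.Agent.R288.FT
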