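import Pool.Agent.R288.FT.Alg

/-!
# MP_3ff6cb_lc: assembly
-/

set_option autoImplicit false

namespace Pool.Agent.R288.FT

open Pool.Agent.NPC Pool.Agent.NPC.R671

theorem asm (h1 : S_AL) (h2 : S_PO) : ∃ f : List Bool → List Bool, PolyTime f ∧
    ∀ (n : ℕ) (G : SimpleGraph (Fin n)), f (bits (adjMatrix G)) = bits (fk 3 G) := by
  refine ⟨fun x => bits (match unbits (List (List Bool)) x with
    | none => 0
    | some a => algL 579 42696 a), ?_, fun n G => ?_⟩
  · apply polyTime_bits
    refine (NPC.Poly.optCases (o := fun x => unbits (List (List Bool)) x) (g := fun _ => 0)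
      (h := fun _ a => algL 579 42696 a) poly_unbits (NPC.Poly.const _)
      ((h2 579 42696).comp (NPC.Poly.snd NPC.Poly.id))).congr fun x => ?_
    cases unbits (List (List Bool)) x <;> rfl
  · have : unbits (List (List Bool)) (bits (adjMatrix G)) = some (adjMatrix G) := unbits_bits _
    simp only [this]
    rw [h1]

end Pool.Agent.R288.FT
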