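import Pool.Agent.R288.FT.Gr

set_option autoImplicit false

open Finset

namespace Pool.Agent.R288.FT.PBR

open Pool.Agent.R288.FT

theorem deg_eq {V : Type} [Fintype V] (G : SimpleGraph V) (B : Finset V) (v : {v : V // v ∉ B})
    [Fintype ((G.induce {v : V | v ∉ B}).neighborSet v)] :
    (G.induce {v : V | v ∉ B}).degree v = dg G B v.1 := by
  classical
  rw [← SimpleGraph.card_neighborFinset_eq_degree]
  unfold dg
  refine Finset.card_bij (fun u _ => u.1) ?_ ?_ ?_
  · intro u hu
    rw [SimpleGraph.mem_neighborFinset] at hu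
    rw [mem_filter]
    exact ⟨mem_univ _, u.2, hu⟩
  · intro a _ b _ h
    exact Subtype.ext h
  · intro u hu
    rw [mem_filter] at hu
    refine ⟨⟨u, hu.2.1⟩, ?_, rfl⟩
    rw [SimpleGraph.mem_neighborFinset]
    exact hu.2.2

theorem card_eq {V : Type} [Fintype V] (B : Finset V) [Fintype {v : V // v ∉ B}] :
    Fintype.card {v : V // v ∉ B} + B.card = Fintype.card V := by
  classical
  have h1 := Fintype.card_subtype_compl (fun v => v ∈ B)
  have h2 : Fintype.card {v : V // v ∈ B} = B.card := Fintype.card_coe B
  have h3 : B.card ≤ Fintype.card V := card_le_univ B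
  rw [h2] at h1
  have h4 : Fintype.card {v : V // v ∉ B} = Fintype.card V - B.card := by
    convert h1
  omega

theorem t_BR : S_BR := by
  intro V _ G B
  classical
  have hcard := card_eq (V := V) B
  have hdeg : ∀ v : {v : V // v ∉ B}, (G.induce {v : V | v ∉ B}).degree v = dg G B v.1 :=
    fun v => deg_eq G B v
  have hkey : (3 ≤ (univ.filter fun v : {v : V // v ∉ B} =>
      (G.induce {v : V | v ∉ B}).degree v = (G.induce {v : V | v ∉ B}).maxDegree).card) ↔
      S3 G B := by
    constructor
    · intro h
      obtain ⟨a, b, c, ha, hb, hc, hab, hac, hbc⟩ := Finset.two_lt_card_iff.mp h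
      rw [mem_filter] at ha hb hc
      have ha2 := ha.2
      have hb2 := hb.2
      have hc2 := hc.2
      refine ⟨a.1, b.1, c.1, a.2, b.2, c.2, fun h => hab (Subtype.ext h),
        fun h => hac (Subtype.ext h), fun h => hbc (Subtype.ext h), ?_, ?_, ?_⟩
      · rw [← hdeg a, ← hdeg b, ha2, hb2]
      · rw [← hdeg a, ← hdeg c, ha2, hc2]
      · intro v hv
        rw [← hdeg a, ha2]
        have := (G.induce {v : V | v ∉ B}).degree_le_maxDegree ⟨v, hv⟩
        rw [hdeg ⟨v, hv⟩] at this
        exact this
    · rintro ⟨x, y, z, hx, hy, hz, hxy, hxz, hyz, h1, h2, h3⟩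
      have hmax : (G.induce {v : V | v ∉ B}).maxDegree = dg G B x := by
        apply le_antisymm
        · apply SimpleGraph.maxDegree_le_of_forall_degree_le
          intro v
          have := hdeg v
          rw [this]
          exact h3 v.1 v.2
        · have := (G.induce {v : V | v ∉ B}).degree_le_maxDegree ⟨x, hx⟩
          rw [hdeg ⟨x, hx⟩] at this
          exact this
      have : 2 < (univ.filter fun v : {v : V // v ∉ B} =>
          (G.induce {v : V | v ∉ B}).degree v = (G.induce {v : V | v ∉ B}).maxDegree).card := by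
        rw [Finset.two_lt_card_iff]
        refine ⟨⟨x, hx⟩, ⟨y, hy⟩, ⟨z, hz⟩, ?_, ?_, ?_, ?_, ?_, ?_⟩
        · rw [mem_filter]; exact ⟨mem_univ _, by rw [hdeg, hmax]⟩
        · rw [mem_filter]; exact ⟨mem_univ _, by rw [hdeg, hmax]; exact h1⟩
        · rw [mem_filter]; exact ⟨mem_univ _, by rw [hdeg, hmax]; exact h2⟩
        · intro h; exact hxy (congrArg Subtype.val h)
        · intro h; exact hxz (congrArg Subtype.val h)
        · intro h; exact hyz (congrArg Subtype.val h)
      omega
  unfold Feasible Sol
  constructor
  · rintro (h | h)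
    · right
      apply hkey.mp
      convert h
    · left
      have h' : Fintype.card {v : V // v ∉ B} < 3 := by convert h
      omega
  · rintro (h | h)
    · right
      have h' : Fintype.card {v : V // v ∉ B} < 3 := by omega
      convert h'
    · left
      have := hkey.mpr h
      convert this

end Pool.Agent.R288.FT.PBR
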