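import Pool.Agent.R288.FT.Gr

/-! FT-CA (helper886): claim A. -/

set_option autoImplicit false

open Finset

namespace Pool.Agent.R288.FT.PCA

open Classical in
/-- the private neighbours of `x` against `z`, different from `y` and `z` -/
noncomputable def XX {V : Type} [Fintype V] (G : SimpleGraph V) (B : Finset V) (x y z : V) :
    Finset V :=
  univ.filter fun u => u ∉ B ∧ G.Adj x u ∧ ¬ G.Adj z u ∧ u ≠ z ∧ u ≠ y

theorem mem_XX {V : Type} [Fintype V] {G : SimpleGraph V} {B : Finset V} {x y z u : V} :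
    u ∈ XX G B x y z ↔ u ∉ B ∧ G.Adj x u ∧ ¬ G.Adj z u ∧ u ≠ z ∧ u ≠ y := by
  classical
  unfold XX
  simp

open Classical in
theorem card_XX {V : Type} [Fintype V] (G : SimpleGraph V) (B : Finset V) (x y z : V)
    (hx : x ∉ B)
    (h : ¬ G.Adj x y ∨ G.Adj y z ∨ ∃ u, u ∉ B ∧ u ≠ x ∧ G.Adj z u ∧ ¬ G.Adj x u) :
    dg G B x ≤ (XX G B x y z).card + dg G B z := by
  unfold dg
  set Nx := univ.filter fun u => u ∉ B ∧ G.Adj x u with hNx
  set Nz := univ.filter fun u => u ∉ B ∧ G.Adj z u with hNz
  have h1 := Finset.card_sdiff_add_card_inter Nx Nz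
  have h2 := Finset.card_sdiff_add_card_inter Nz Nx
  rw [Finset.inter_comm] at h2
  have h4 : ∃ P Q : Finset V, Nx \ Nz ⊆ XX G B x y z ∪ P ∧ Q ⊆ Nz \ Nx ∧ P.card ≤ Q.card := by
    by_cases c1 : G.Adj x z
    · by_cases c2 : G.Adj x y ∧ ¬ G.Adj z y
      · obtain ⟨u, hu1, hu2, hu3, hu4⟩ : ∃ u, u ∉ B ∧ u ≠ x ∧ G.Adj z u ∧ ¬ G.Adj x u := by
          rcases h with h | h | h
          · exact absurd c2.1 h
          · exact absurd h.symm c2.2
          · exact h
        refine ⟨{z, y}, {x, u}, ?_, ?_, ?_⟩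
        · intro w hw
          simp only [hNx, hNz, mem_sdiff, mem_filter, mem_univ, true_and] at hw
          simp only [mem_XX, mem_union, mem_insert, mem_singleton]
          tauto
        · intro w hw
          simp only [mem_insert, mem_singleton] at hw
          simp only [hNx, hNz, mem_sdiff, mem_filter, mem_univ, true_and]
          rcases hw with rfl | rfl
          · exact ⟨⟨hx, c1.symm⟩, fun h => G.loopless.irrefl _ h.2⟩
          · exact ⟨⟨hu1, hu3⟩, fun h => hu4 h.2⟩
        · rw [Finset.card_pair (Ne.symm hu2)]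
          exact Finset.card_le_two
      · refine ⟨{z}, {x}, ?_, ?_, ?_⟩
        · intro w hw
          simp only [hNx, hNz, mem_sdiff, mem_filter, mem_univ, true_and] at hw
          simp only [mem_XX, mem_union, mem_singleton]
          by_cases hwz : w = z
          · exact Or.inr hwz
          · by_cases hwy : w = y
            · subst hwy; tauto
            · tauto
        · intro w hw
          simp only [mem_singleton] at hw
          simp only [hNx, hNz, mem_sdiff, mem_filter, mem_univ, true_and]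
          subst hw
          exact ⟨⟨hx, c1.symm⟩, fun h => G.loopless.irrefl _ h.2⟩
        · simp
    · by_cases c2 : G.Adj x y ∧ ¬ G.Adj z y
      · obtain ⟨u, hu1, hu2, hu3, hu4⟩ : ∃ u, u ∉ B ∧ u ≠ x ∧ G.Adj z u ∧ ¬ G.Adj x u := by
          rcases h with h | h | h
          · exact absurd c2.1 h
          · exact absurd h.symm c2.2
          · exact h
        refine ⟨{y}, {u}, ?_, ?_, ?_⟩
        · intro w hw
          simp only [hNx, hNz, mem_sdiff, mem_filter, mem_univ, true_and] at hw
          simp only [mem_XX, mem_union, mem_singleton]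
          by_cases hwz : w = z
          · subst hwz; tauto
          · tauto
        · intro w hw
          simp only [mem_singleton] at hw
          simp only [hNx, hNz, mem_sdiff, mem_filter, mem_univ, true_and]
          subst hw
          exact ⟨⟨hu1, hu3⟩, fun h => hu4 h.2⟩
        · simp
      · refine ⟨∅, ∅, ?_, ?_, ?_⟩
        · intro w hw
          simp only [hNx, hNz, mem_sdiff, mem_filter, mem_univ, true_and] at hw
          simp only [mem_XX, mem_union, Finset.notMem_empty, or_false]
          by_cases hwz : w = z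
          · subst hwz; tauto
          · by_cases hwy : w = y
            · subst hwy; tauto
            · tauto
        · simp
        · simp
  obtain ⟨P, Q, hP, hQ, hPQ⟩ := h4
  have h5 := Finset.card_le_card hP
  have h6 := Finset.card_le_card hQ
  have h7 := Finset.card_union_le (XX G B x y z) P
  omega

theorem t_CA (h : S_MON) : S_CA := by
  classical
  intro V _ G B x y z hx hy hz hxy hxz hyz hDy hDz hmax hox hoy
  set a : ℕ := dg G B x - dg G B z with ha
  set X := XX G B x y z with hX
  set Y := XX G B y x z with hY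
  have hXa : a ≤ X.card := by
    have h0 := card_XX G B x y z hx hox
    rw [← hX] at h0
    omega
  have hYa : a ≤ Y.card := by
    have h0 := card_XX G B y x z hy (by
      rcases hoy with h1 | h1 | h1
      · exact Or.inl fun h2 => h1 h2.symm
      · exact Or.inr (Or.inl h1)
      · exact Or.inr (Or.inr h1))
    rw [← hY] at h0
    omega
  set p : ℕ := min a (X ∩ Y).card with hp
  obtain ⟨U, hU, hUc⟩ := Finset.exists_subset_card_eq (s := X ∩ Y) (n := p) (min_le_right _ _)
  have hXi := Finset.card_sdiff_add_card_inter X Y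
  have hYi := Finset.card_sdiff_add_card_inter Y X
  rw [Finset.inter_comm] at hYi
  obtain ⟨U1, hU1, hU1c⟩ := Finset.exists_subset_card_eq (s := X \ Y) (n := a - p) (by omega)
  obtain ⟨U2, hU2, hU2c⟩ := Finset.exists_subset_card_eq (s := Y \ X) (n := a - p) (by omega)
  -- properties of the elements
  have eU : ∀ u ∈ U, u ∉ B ∧ G.Adj x u ∧ G.Adj y u ∧ ¬ G.Adj z u ∧ u ≠ z ∧ u ≠ y ∧ u ≠ x := by
    intro u hu
    have h1 := hU hu
    rw [Finset.mem_inter, hX, hY, mem_XX, mem_XX] at h1
    tauto
  have eU1 : ∀ u ∈ U1, u ∉ B ∧ G.Adj x u ∧ ¬ G.Adj y u ∧ ¬ G.Adj z u ∧ u ≠ z ∧ u ≠ y ∧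
      u ≠ x := by
    intro u hu
    have h1 := hU1 hu
    rw [Finset.mem_sdiff, hX, hY, mem_XX, mem_XX] at h1
    have h2 : u ≠ x := fun h3 => G.loopless.irrefl x (by rw [h3] at h1; exact h1.1.2.1)
    tauto
  have eU2 : ∀ u ∈ U2, u ∉ B ∧ ¬ G.Adj x u ∧ G.Adj y u ∧ ¬ G.Adj z u ∧ u ≠ z ∧ u ≠ y ∧
      u ≠ x := by
    intro u hu
    have h1 := hU2 hu
    rw [Finset.mem_sdiff, hX, hY, mem_XX, mem_XX] at h1
    have h2 : u ≠ y := fun h3 => G.loopless.irrefl y (by rw [h3] at h1; exact h1.1.2.1)
    tauto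
  -- cardinalities
  have d01 : Disjoint U U1 := by
    rw [Finset.disjoint_left]; intro u h1 h2
    exact (eU1 u h2).2.2.1 (eU u h1).2.2.1
  have d02 : Disjoint U U2 := by
    rw [Finset.disjoint_left]; intro u h1 h2
    exact (eU2 u h2).2.1 (eU u h1).2.1
  have d12 : Disjoint U1 U2 := by
    rw [Finset.disjoint_left]; intro u h1 h2
    exact (eU2 u h2).2.1 (eU1 u h1).2.1
  have dB0 : Disjoint B U := by
    rw [Finset.disjoint_left]; intro u h1 h2
    exact (eU u h2).1 h1
  have dB1 : Disjoint B U1 := by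
    rw [Finset.disjoint_left]; intro u h1 h2
    exact (eU1 u h2).1 h1
  have dB2 : Disjoint B U2 := by
    rw [Finset.disjoint_left]; intro u h1 h2
    exact (eU2 u h2).1 h1
  set B' : Finset V := B ∪ (U ∪ (U1 ∪ U2)) with hB'
  have cB' : B'.card = B.card + p + (a - p) + (a - p) := by
    rw [hB', Finset.card_union_of_disjoint, Finset.card_union_of_disjoint,
      Finset.card_union_of_disjoint d12, hUc, hU1c, hU2c]
    · ring
    · exact Finset.disjoint_union_right.2 ⟨d01, d02⟩
    · exact Finset.disjoint_union_right.2 ⟨dB0, Finset.disjoint_union_right.2 ⟨dB1, dB2⟩⟩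
  have hBB' : B ⊆ B' := Finset.subset_union_left
  have mB' : ∀ u, u ∈ B' ↔ u ∈ B ∨ u ∈ U ∨ u ∈ U1 ∨ u ∈ U2 := by
    intro u; simp only [hB', Finset.mem_union]
  -- degree of `x`
  have Dx : dg G B' x + a = dg G B x := by
    have s1 := (h V G B (B ∪ U2) Finset.subset_union_left x).2.2.2 (by
      intro u h1 h2
      rw [Finset.mem_union] at h1
      exact (eU2 u (h1.resolve_left h2)).2.1)
    have s2 := (h V G (B ∪ U2) B' (by
      intro u hu; rw [Finset.mem_union] at hu; rw [mB']; tauto) x).2.2.1 (by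
      intro u h1 h2
      rw [mB'] at h1
      rw [Finset.mem_union] at h2
      rcases h1 with h3 | h3 | h3 | h3
      · exact absurd (Or.inl h3) h2
      · exact (eU u h3).2.1
      · exact (eU1 u h3).2.1
      · exact absurd (Or.inr h3) h2)
    rw [Finset.card_union_of_disjoint dB2, hU2c, cB'] at s2
    omega
  have Dy : dg G B' y + a = dg G B y := by
    have s1 := (h V G B (B ∪ U1) Finset.subset_union_left y).2.2.2 (by
      intro u h1 h2
      rw [Finset.mem_union] at h1
      exact (eU1 u (h1.resolve_left h2)).2.2.1)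
    have s2 := (h V G (B ∪ U1) B' (by
      intro u hu; rw [Finset.mem_union] at hu; rw [mB']; tauto) y).2.2.1 (by
      intro u h1 h2
      rw [mB'] at h1
      rw [Finset.mem_union] at h2
      rcases h1 with h3 | h3 | h3 | h3
      · exact absurd (Or.inl h3) h2
      · exact (eU u h3).2.2.1
      · exact absurd (Or.inr h3) h2
      · exact (eU2 u h3).2.2.1)
    rw [Finset.card_union_of_disjoint dB1, hU1c, cB'] at s2
    omega
  have Dz : dg G B' z = dg G B z := by
    refine (h V G B B' hBB' z).2.2.2 ?_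
    intro u h1 h2
    rw [mB'] at h1
    rcases h1 with h3 | h3 | h3 | h3
    · exact absurd h3 h2
    · exact (eU u h3).2.2.2.1
    · exact (eU1 u h3).2.2.2.1
    · exact (eU2 u h3).2.2.2.1
  have nx : x ∉ B' := by
    rw [mB']
    rintro (h3 | h3 | h3 | h3)
    · exact hx h3
    · exact (eU x h3).2.2.2.2.2.2 rfl
    · exact (eU1 x h3).2.2.2.2.2.2 rfl
    · exact (eU2 x h3).2.2.2.2.2.2 rfl
  have ny : y ∉ B' := by
    rw [mB']
    rintro (h3 | h3 | h3 | h3)
    · exact hy h3
    · exact (eU y h3).2.2.2.2.2.1 rfl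
    · exact (eU1 y h3).2.2.2.2.2.1 rfl
    · exact (eU2 y h3).2.2.2.2.2.1 rfl
  have nz : z ∉ B' := by
    rw [mB']
    rintro (h3 | h3 | h3 | h3)
    · exact hz h3
    · exact (eU z h3).2.2.2.2.1 rfl
    · exact (eU1 z h3).2.2.2.2.1 rfl
    · exact (eU2 z h3).2.2.2.2.1 rfl
  refine ⟨B', hBB', ⟨x, y, z, nx, ny, nz, hxy, hxz, hyz, by omega, by omega, ?_⟩, by omega⟩
  intro v hv
  by_cases hvx : v = x
  · rw [hvx]
  by_cases hvy : v = y
  · rw [hvy]; omega
  have h1 := hmax v (fun h2 => hv (hBB' h2)) hvx hvy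
  have h2 := (h V G B B' hBB' v).1
  omega

end Pool.Agent.R288.FT.PCA
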