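import Pool.Agent.R288.FT.Gr

set_option autoImplicit false

open Finset

namespace Pool.Agent.R288.FT.PCAb

variable {V : Type} [Fintype V]

open Classical in
noncomputable def NN (G : SimpleGraph V) (B : Finset V) (x z : V) : Finset V :=
  univ.filter fun u => u ∉ B ∧ G.Adj x u ∧ ¬ G.Adj z u ∧ u ≠ z

theorem mem_NN {G : SimpleGraph V} {B : Finset V} {x z u : V} :
    u ∈ NN G B x z ↔ u ∉ B ∧ G.Adj x u ∧ ¬ G.Adj z u ∧ u ≠ z := by
  simp [NN]

open Classical in
theorem diff (G : SimpleGraph V) (B : Finset V) {x z : V} (hx : x ∉ B) (hz : z ∉ B) :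
    (NN G B x z).card + dg G B z = (NN G B z x).card + dg G B x := by
  set S1 := univ.filter (fun u => u ∉ B ∧ G.Adj x u) with hS1
  set S2 := univ.filter (fun u => u ∉ B ∧ G.Adj z u) with hS2
  have e1 : dg G B x = S1.card := rfl
  have e2 : dg G B z = S2.card := rfl
  have h1 := card_sdiff_add_card_inter S1 S2
  have h2 := card_sdiff_add_card_inter S2 S1
  rw [inter_comm S2 S1] at h2
  have lx : ¬ G.Adj x x := G.loopless.irrefl x
  have lz : ¬ G.Adj z z := G.loopless.irrefl z
  by_cases hxz : G.Adj x z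
  · have a1 : S1 \ S2 = insert z (NN G B x z) := by
      ext u
      simp only [hS1, hS2, mem_sdiff, mem_filter, mem_univ, true_and, mem_insert, mem_NN]
      by_cases hu : u = z
      · subst hu
        tauto
      · tauto
    have a2 : S2 \ S1 = insert x (NN G B z x) := by
      ext u
      simp only [hS1, hS2, mem_sdiff, mem_filter, mem_univ, true_and, mem_insert, mem_NN]
      by_cases hu : u = x
      · subst hu
        have := hxz.symm
        tauto
      · tauto
    rw [a1, card_insert_of_notMem (fun h => (mem_NN.1 h).2.2.2 rfl)] at h1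
    rw [a2, card_insert_of_notMem (fun h => (mem_NN.1 h).2.2.2 rfl)] at h2
    omega
  · have a1 : S1 \ S2 = NN G B x z := by
      ext u
      simp only [hS1, hS2, mem_sdiff, mem_filter, mem_univ, true_and, mem_NN]
      by_cases hu : u = z
      · subst hu
        tauto
      · tauto
    have a2 : S2 \ S1 = NN G B z x := by
      ext u
      simp only [hS1, hS2, mem_sdiff, mem_filter, mem_univ, true_and, mem_NN]
      by_cases hu : u = x
      · subst hu
        have := fun h : G.Adj z u => hxz h.symm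
        tauto
      · tauto
    rw [a1] at h1
    rw [a2] at h2
    omega

open Classical in
theorem big {G : SimpleGraph V} {B : Finset V} {x y z : V} (hx : x ∉ B) (hz : z ∉ B)
    (H : ¬ G.Adj x y ∨ G.Adj y z ∨ ∃ u, u ∉ B ∧ u ≠ x ∧ G.Adj z u ∧ ¬ G.Adj x u) :
    dg G B x ≤ ((NN G B x z).erase y).card + dg G B z := by
  have h1 := diff G B hx hz
  by_cases hy : y ∈ NN G B x z
  · rw [card_erase_of_mem hy]
    have h2 := mem_NN.1 hy
    have h3 : ∃ u, u ∉ B ∧ u ≠ x ∧ G.Adj z u ∧ ¬ G.Adj x u := by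
      rcases H with H | H | H
      · exact absurd h2.2.1 H
      · exact absurd H.symm h2.2.2.1
      · exact H
    obtain ⟨u, a1, a2, a3, a4⟩ := h3
    have h4 : 0 < (NN G B z x).card := card_pos.2 ⟨u, mem_NN.2 ⟨a1, a3, a4, a2⟩⟩
    omega
  · rw [erase_eq_of_notMem hy]
    omega

theorem t_CA (hM : S_MON) : S_CA := by
  intro V _ G B x y z hx hy hz hxy hxz hyz eyx ezx hm H1 H2
  classical
  set X := (NN G B x z).erase y with hX
  set Y := (NN G B y z).erase x with hY
  have bX : dg G B x ≤ X.card + dg G B z := big hx hz H1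
  have bY : dg G B y ≤ Y.card + dg G B z := big hy hz (by
    rcases H2 with h | h | h
    · exact Or.inl (fun h' => h h'.symm)
    · exact Or.inr (Or.inl h)
    · exact Or.inr (Or.inr h))
  set a := dg G B x - dg G B z with ha
  have mX : ∀ u ∈ X, u ∉ B ∧ G.Adj x u ∧ ¬ G.Adj z u ∧ u ≠ z ∧ u ≠ y ∧ u ≠ x := by
    intro u hu
    rw [hX, mem_erase, mem_NN] at hu
    exact ⟨hu.2.1, hu.2.2.1, hu.2.2.2.1, hu.2.2.2.2, hu.1,
      fun e => G.loopless.irrefl x (e ▸ hu.2.2.1)⟩
  have mY : ∀ u ∈ Y, u ∉ B ∧ G.Adj y u ∧ ¬ G.Adj z u ∧ u ≠ z ∧ u ≠ x ∧ u ≠ y := by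
    intro u hu
    rw [hY, mem_erase, mem_NN] at hu
    exact ⟨hu.2.1, hu.2.2.1, hu.2.2.2.1, hu.2.2.2.2, hu.1,
      fun e => G.loopless.irrefl y (e ▸ hu.2.2.1)⟩
  have xY : ∀ u ∈ X, u ∉ Y → ¬ G.Adj y u := by
    intro u hu hu' h
    have h1 := mX u hu
    refine hu' ?_
    rw [hY, mem_erase, mem_NN]
    exact ⟨h1.2.2.2.2.2, h1.1, h, h1.2.2.1, h1.2.2.2.1⟩
  have yX : ∀ u ∈ Y, u ∉ X → ¬ G.Adj x u := by
    intro u hu hu' h
    have h1 := mY u hu
    refine hu' ?_
    rw [hX, mem_erase, mem_NN]
    exact ⟨h1.2.2.2.2.2, h1.1, h, h1.2.2.1, h1.2.2.2.1⟩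
  have c1 := card_sdiff_add_card_inter X Y
  have c2 := card_sdiff_add_card_inter Y X
  rw [inter_comm Y X] at c2
  set p := min a (X ∩ Y).card with hp
  have hpa : p ≤ a := min_le_left _ _
  obtain ⟨U, hU, cU⟩ := exists_subset_card_eq (s := X ∩ Y) (n := p) (min_le_right _ _)
  have hs : p = a ∨ p = (X ∩ Y).card := by
    rcases le_total a (X ∩ Y).card with h | h
    · exact Or.inl (min_eq_left h)
    · exact Or.inr (min_eq_right h)
  obtain ⟨U1, hU1, cU1⟩ := exists_subset_card_eq (s := X \ Y) (n := a - p) (by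
    rcases hs with h | h <;> omega)
  obtain ⟨U2, hU2, cU2⟩ := exists_subset_card_eq (s := Y \ X) (n := a - p) (by
    rcases hs with h | h <;> omega)
  have memU : ∀ u ∈ U, u ∈ X ∧ u ∈ Y := fun u hu => mem_inter.1 (hU hu)
  have memU1 : ∀ u ∈ U1, u ∈ X ∧ u ∉ Y := fun u hu => mem_sdiff.1 (hU1 hu)
  have memU2 : ∀ u ∈ U2, u ∈ Y ∧ u ∉ X := fun u hu => mem_sdiff.1 (hU2 hu)
  -- two steps: first `U ∪ U1` (neighbours of `x`), then `U2`
  set B' := B ∪ (U ∪ U1 ∪ U2) with hB'
  have hBB : B ⊆ B' := subset_union_left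
  have dUU1 : Disjoint U U1 := by
    rw [disjoint_left]
    intro u h h'
    exact (memU1 u h').2 (memU u h).2
  have dU2 : Disjoint (U ∪ U1) U2 := by
    rw [disjoint_left]
    intro u h h'
    rcases mem_union.1 h with h | h
    · exact (memU2 u h').2 (memU u h).1
    · exact (memU2 u h').2 (memU1 u h).1
  have memB : ∀ u ∈ U ∪ U1 ∪ U2, u ∉ B ∧ u ≠ x ∧ u ≠ y ∧ u ≠ z ∧ ¬ G.Adj z u := by
    intro u hu
    rcases mem_union.1 hu with hu | hu
    · rcases mem_union.1 hu with hu | hu
      · have h := mX u (memU u hu).1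
        exact ⟨h.1, h.2.2.2.2.2, h.2.2.2.2.1, h.2.2.2.1, h.2.2.1⟩
      · have h := mX u (memU1 u hu).1
        exact ⟨h.1, h.2.2.2.2.2, h.2.2.2.2.1, h.2.2.2.1, h.2.2.1⟩
    · have h := mY u (memU2 u hu).1
      exact ⟨h.1, h.2.2.2.2.1, h.2.2.2.2.2, h.2.2.2.1, h.2.2.1⟩
  have dB : Disjoint B (U ∪ U1 ∪ U2) := by
    rw [disjoint_left]
    intro u h h'
    exact (memB u h').1 h
  have cB' : B'.card = B.card + (p + (a - p) + (a - p)) := by
    rw [hB', card_union_of_disjoint dB, card_union_of_disjoint dU2, card_union_of_disjoint dUU1,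
      cU, cU1, cU2]
  -- degree of x
  have hdx : dg G B' x = dg G B z := by
    have s1 : B ∪ (U ∪ U1) ⊆ B' := by
      rw [hB']
      exact union_subset_union_right subset_union_left
    have t1 := (hM V G B (B ∪ (U ∪ U1)) subset_union_left x).2.2.1 (by
      intro u hu hu'
      rcases mem_union.1 hu with h | h
      · exact absurd h hu'
      · rcases mem_union.1 h with h | h
        · exact (mX u (memU u h).1).2.1
        · exact (mX u (memU1 u h).1).2.1)
    have t2 := (hM V G (B ∪ (U ∪ U1)) B' s1 x).2.2.2 (by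
      intro u hu hu'
      rw [hB', mem_union, mem_union] at hu
      rw [mem_union] at hu'
      have h : u ∈ U2 := by
        rcases hu with h | h | h
        · exact absurd (Or.inl h) hu'
        · exact absurd (Or.inr h) hu'
        · exact h
      exact yX u (memU2 u h).1 (memU2 u h).2)
    have d1 : Disjoint B (U ∪ U1) := dB.mono_right subset_union_left
    rw [card_union_of_disjoint d1, card_union_of_disjoint dUU1, cU, cU1] at t1
    omega
  have hdy : dg G B' y = dg G B z := by
    have s1 : B ∪ (U ∪ U2) ⊆ B' := by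
      rw [hB']
      refine union_subset_union_right (union_subset ?_ subset_union_right)
      exact subset_union_left.trans subset_union_left
    have t1 := (hM V G B (B ∪ (U ∪ U2)) subset_union_left y).2.2.1 (by
      intro u hu hu'
      rcases mem_union.1 hu with h | h
      · exact absurd h hu'
      · rcases mem_union.1 h with h | h
        · exact (mY u (memU u h).2).2.1
        · exact (mY u (memU2 u h).1).2.1)
    have t2 := (hM V G (B ∪ (U ∪ U2)) B' s1 y).2.2.2 (by
      intro u hu hu'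
      rw [hB', mem_union, mem_union, mem_union] at hu
      rw [mem_union, mem_union] at hu'
      have h : u ∈ U1 := by
        rcases hu with h | (h | h) | h
        · exact absurd (Or.inl h) hu'
        · exact absurd (Or.inr (Or.inl h)) hu'
        · exact h
        · exact absurd (Or.inr (Or.inr h)) hu'
      exact xY u (memU1 u h).1 (memU1 u h).2)
    have d1 : Disjoint B (U ∪ U2) := by
      refine dB.mono_right (union_subset ?_ subset_union_right)
      exact subset_union_left.trans subset_union_left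
    have d2 : Disjoint U U2 := dU2.mono_left subset_union_left
    rw [card_union_of_disjoint d1, card_union_of_disjoint d2, cU, cU2] at t1
    omega
  have hdz : dg G B' z = dg G B z := by
    refine (hM V G B B' hBB z).2.2.2 ?_
    intro u hu hu'
    rw [hB', mem_union] at hu
    rcases hu with h | h
    · exact absurd h hu'
    · exact (memB u h).2.2.2.2
  have hnot : ∀ v, v ∉ B → (v = x ∨ v = y ∨ v = z) → v ∉ B' := by
    intro v hv h hv'
    rw [hB', mem_union] at hv'
    rcases hv' with h' | h'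
    · exact hv h'
    · have h2 := memB v h'
      rcases h with h | h | h
      · exact h2.2.1 h
      · exact h2.2.2.1 h
      · exact h2.2.2.2.1 h
  refine ⟨B', hBB, ⟨x, y, z, hnot x hx (Or.inl rfl), hnot y hy (Or.inr (Or.inl rfl)),
    hnot z hz (Or.inr (Or.inr rfl)), hxy, hxz, hyz, by rw [hdx, hdy], by rw [hdx, hdz], ?_⟩, ?_⟩
  · intro v hv
    rw [hdx]
    by_cases h1 : v = x
    · rw [h1, hdx]
    by_cases h2 : v = y
    · rw [h2, hdy]
    exact ((hM V G B B' hBB v).1).trans (hm v (fun h => hv (hBB h)) h1 h2)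
  · omega

end Pool.Agent.R288.FT.PCAb
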