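import Pool.Agent.R288.FT.Gr

/-!
# Project FT (MP_3ff6cb_lc), piece CO (helper165): completeness of the candidates
-/

set_option autoImplicit false

open Finset

namespace Pool.Agent.R288.FT.PCO

theorem pre_card {V : Type} [Fintype V] [DecidableEq V] {G : SimpleGraph V} {pre : ℕ → Finset V}
    (h : Greedy G pre) : ∀ j, j ≤ Fintype.card V → (pre j).card = j := by
  intro j
  induction j with
  | zero =>
    intro _
    rw [h.1, card_empty]
  | succ j ih =>
    intro hj
    obtain ⟨u, hu, -, hpre⟩ := h.2 j (by omega)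
    rw [hpre, card_insert_of_notMem hu, ih (by omega)]

theorem least {V : Type} [Fintype V] [DecidableEq V] {G : SimpleGraph V} {pre : ℕ → Finset V}
    (h : Greedy G pre) {B : Finset V} {x : V} (hx : x ∉ B) :
    ∃ j, j < Fintype.card V ∧ pre j ⊆ B ∧ ∃ w, w ∉ pre j ∧ w ∉ B ∧
      ∀ v, v ∉ pre j → dg G (pre j) v ≤ dg G (pre j) w := by
  by_contra hcon
  have h1 : ∀ j, j ≤ Fintype.card V → pre j ⊆ B := by
    intro j
    induction j with
    | zero =>
      intro _
      rw [h.1]
      exact empty_subset _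
    | succ j ih =>
      intro hj
      obtain ⟨u, hu, hmax, hpre⟩ := h.2 j (by omega)
      have h2 := ih (by omega)
      by_cases huB : u ∈ B
      · rw [hpre]
        exact insert_subset huB h2
      · exact absurd ⟨j, by omega, h2, u, hu, huB, hmax⟩ hcon
  have h2 := h1 (Fintype.card V) le_rfl
  have h3 : pre (Fintype.card V) = univ := (card_eq_iff_eq_univ _).1 (pre_card h _ le_rfl)
  rw [h3] at h2
  exact hx (h2 (mem_univ x))

open Classical in
/-- number of neighbours = outside + inside -/
theorem dg_add {V : Type} [Fintype V] (G : SimpleGraph V) (A : Finset V) (v : V) :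
    dg G A v + (A.filter fun u => G.Adj v u).card = (univ.filter fun u => G.Adj v u).card := by
  rw [dg, ← card_union_of_disjoint]
  · congr 1
    ext u
    simp only [mem_union, mem_filter, mem_univ, true_and]
    tauto
  · rw [disjoint_left]
    intro u h1 h2
    simp only [mem_filter, mem_univ, true_and] at h1 h2
    exact h1.1 h2.1

theorem mem_filt {V : Type} [Fintype V] (p : V → Prop) (inst : DecidablePred p) (v : V) :
    v ∈ @Finset.filter V p inst univ ↔ p v := by
  rw [mem_filter]
  simp

open Classical in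
theorem mem_cls {V : Type} [Fintype V] (G : SimpleGraph V) (A R τ : Finset V) (u : V) :
    u ∈ cls G A R τ ↔ u ∉ A ∧ u ∉ R ∧ ∀ w, w ∈ τ ↔ w ∈ R ∧ G.Adj u w := by
  unfold cls
  rw [mem_filter]
  constructor
  · rintro ⟨-, h1, h2, h3⟩
    refine ⟨h1, h2, fun w => ?_⟩
    rw [← h3, mem_filter]
  · rintro ⟨h1, h2, h3⟩
    refine ⟨mem_univ _, h1, h2, ?_⟩
    ext w
    rw [mem_filter, h3]

open Classical in
theorem count {V : Type} [Fintype V] [DecidableEq V] (G : SimpleGraph V) {A R S : Finset V}
    {t : Finset V → ℕ} {C : Finset V → Finset V} (hAR : Disjoint A R) (hSR : S ⊆ R)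
    (hC : ∀ τ ⊆ R, C τ ⊆ cls G A R τ ∧ (C τ).card = t τ) (q : V → Prop) (Q : Finset V → Prop)
    (hq : ∀ τ ⊆ R, ∀ u ∈ cls G A R τ, (q u ↔ Q τ)) :
    ((A ∪ S ∪ R.powerset.biUnion C).filter q).card =
      (A.filter q).card + (S.filter q).card + ∑ τ ∈ R.powerset, if Q τ then t τ else 0 := by
  rw [filter_union, filter_union, card_union_of_disjoint, card_union_of_disjoint, filter_biUnion,
    card_biUnion]
  · congr 1
    refine sum_congr rfl fun τ hτ => ?_
    have hτ' := mem_powerset.1 hτ
    by_cases hQ : Q τ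
    · rw [if_pos hQ, ← (hC τ hτ').2]
      congr 1
      exact filter_true_of_mem fun u hu => (hq τ hτ' u ((hC τ hτ').1 hu)).2 hQ
    · rw [if_neg hQ, card_eq_zero]
      exact filter_false_of_mem fun u hu hqu => hQ ((hq τ hτ' u ((hC τ hτ').1 hu)).1 hqu)
  · intro τ hτ τ' hτ' hne
    refine disjoint_left.2 ?_
    intro u hu hu'
    have h1 := (hC τ (mem_powerset.1 hτ)).1 (mem_filter.1 hu).1
    have h2 := (hC τ' (mem_powerset.1 hτ')).1 (mem_filter.1 hu').1
    rw [mem_cls] at h1 h2
    apply hne
    ext w
    rw [h1.2.2, h2.2.2]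
  · rw [disjoint_left]
    intro u hu hu'
    exact disjoint_left.1 hAR (mem_filter.1 hu).1 (hSR (mem_filter.1 hu').1)
  · rw [disjoint_left]
    intro u hu hu'
    obtain ⟨τ, hτ, h1⟩ := mem_biUnion.1 (mem_filter.1 hu').1
    have h2 := (hC τ (mem_powerset.1 hτ)).1 h1
    rw [mem_cls] at h2
    rcases mem_union.1 hu with h3 | h3
    · exact h2.1 (mem_filter.1 h3).1
    · exact h2.2.1 (hSR (mem_filter.1 h3).1)

theorem t_CO (h1 : S_MON) (h2 : S_WI) : S_CO := by
  classical
  intro V _ _ G pre hG B hB hmin
  obtain ⟨x, y, z, hx, hy, hz, hxy, hxz, hyz, hyd, hzd, hmax⟩ := id hB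
  obtain ⟨j, hj, hpre, w, hw, hwB, hwmax⟩ := least hG hx
  have hcard := pre_card hG j hj.le
  have hle := card_le_card hpre
  rw [hcard] at hle
  have hD : dg G (pre j) w + j ≤ dg G B x + B.card := by
    have h3 := (h1 V G (pre j) B hpre w).2.1
    have h4 := hmax w hwB
    omega
  by_cases hcase : B.card ≤ j + 42696
  · refine ⟨j, ∅, B \ pre j, fun _ => 0, hj, by simp, ?_, fun _ _ => Nat.zero_le _, ?_⟩
    · rw [card_sdiff_of_subset hpre]
      omega
    · intro C hC
      have h3 : C ∅ = ∅ := card_eq_zero.1 (hC ∅ (Subset.refl _)).2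
      have h4 : pre j ∪ (B \ pre j) ∪ (∅ : Finset V).powerset.biUnion C = B := by
        rw [powerset_empty, singleton_biUnion, h3, union_empty, union_sdiff_of_subset hpre]
      rw [h4]
      exact ⟨hB, rfl⟩
  · obtain ⟨d, hd⟩ : ∃ d, d = dg G B x := ⟨_, rfl⟩
    rw [← hd] at hD hyd hzd hmax
    obtain ⟨P, hP⟩ : ∃ P : Finset V, P = univ.filter (fun v => v ∉ pre j ∧ d < dg G (pre j) v) :=
      ⟨_, rfl⟩
    have hPc : P.card < 576 := by
      by_contra hcon
      push Not at hcon
      obtain ⟨B', hsub, hS3, hc⟩ := h2 V G (pre j) d (dg G (pre j) w) hwmax (by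
        refine le_of_le_of_eq hcon (congrArg card ?_)
        ext v
        rw [hP, mem_filt, mem_filt])
      have := hmin B' hS3
      omega
    obtain ⟨R, hR⟩ : ∃ R : Finset V, R = P ∪ {x, y, z} := ⟨_, rfl⟩
    have hRc : R.card ≤ 579 := by
      rw [hR]
      have h3 := card_union_le P {x, y, z}
      have h4 : ({x, y, z} : Finset V).card ≤ 3 := card_le_three
      omega
    have hxR : x ∈ R := by
      rw [hR]
      simp
    have hyR : y ∈ R := by
      rw [hR]
      simp
    have hzR : z ∈ R := by
      rw [hR]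
      simp
    have hAR : Disjoint (pre j) R := by
      rw [disjoint_left]
      intro u hu hu'
      rw [hR, mem_union] at hu'
      rcases hu' with h3 | h3
      · rw [hP, mem_filter] at h3
        exact h3.2.1 hu
      · simp only [mem_insert, mem_singleton] at h3
        rcases h3 with rfl | rfl | rfl
        · exact hx (hpre hu)
        · exact hy (hpre hu)
        · exact hz (hpre hu)
    obtain ⟨S, hS⟩ : ∃ S : Finset V, S = B ∩ R := ⟨_, rfl⟩
    have hSR : S ⊆ R := by
      rw [hS]
      exact inter_subset_right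
    obtain ⟨t, ht⟩ : ∃ t : Finset V → ℕ, t = fun τ => (B ∩ cls G (pre j) R τ).card := ⟨_, rfl⟩
    have hC0 : ∀ τ ⊆ R, (fun τ => B ∩ cls G (pre j) R τ) τ ⊆ cls G (pre j) R τ ∧
        ((fun τ => B ∩ cls G (pre j) R τ) τ).card = t τ := by
      intro τ _
      rw [ht]
      exact ⟨inter_subset_right, rfl⟩
    have hB0 : pre j ∪ S ∪ R.powerset.biUnion (fun τ => B ∩ cls G (pre j) R τ) = B := by
      ext u
      simp only [mem_union, mem_biUnion, mem_inter, mem_powerset, hS]
      constructor
      · rintro ((h3 | h3) | ⟨τ, -, h3, -⟩)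
        · exact hpre h3
        · exact h3.1
        · exact h3
      · intro h3
        by_cases h4 : u ∈ pre j
        · exact Or.inl (Or.inl h4)
        by_cases h5 : u ∈ R
        · exact Or.inl (Or.inr ⟨h3, h5⟩)
        refine Or.inr ⟨R.filter (fun w => G.Adj u w), filter_subset _ _, h3, ?_⟩
        rw [mem_cls]
        refine ⟨h4, h5, fun w => ?_⟩
        rw [mem_filter]
    have hcls : ∀ v ∈ R, ∀ τ ⊆ R, ∀ u ∈ cls G (pre j) R τ, (G.Adj v u ↔ v ∈ τ) := by
      intro v hv τ _ u hu
      rw [mem_cls] at hu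
      rw [hu.2.2, G.adj_comm]
      tauto
    refine ⟨j, R, S, t, hj, hRc, (card_le_card hSR).trans (hRc.trans (by norm_num)), ?_, ?_⟩
    · intro τ _
      rw [ht]
      exact card_le_card inter_subset_right
    · intro C hC
      obtain ⟨B2, hB2⟩ : ∃ B2, B2 = pre j ∪ S ∪ R.powerset.biUnion C := ⟨_, rfl⟩
      have hcardeq : B2.card = B.card := by
        have h3 := count G hAR hSR hC (fun _ => True) (fun _ => True) (fun _ _ _ _ => Iff.rfl)
        have h4 := count G hAR hSR hC0 (fun _ => True) (fun _ => True) (fun _ _ _ _ => Iff.rfl)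
        rw [hB0, ← h3, ← hB2] at h4
        simpa using h4.symm
      have hdg : ∀ v ∈ R, dg G B2 v = dg G B v := by
        intro v hv
        have h3 := count G hAR hSR hC (fun u => G.Adj v u) (fun τ => v ∈ τ) (hcls v hv)
        have h4 := count G hAR hSR hC0 (fun u => G.Adj v u) (fun τ => v ∈ τ) (hcls v hv)
        rw [hB0, ← h3, ← hB2] at h4
        have h5 := dg_add G B v
        have h6 := dg_add G B2 v
        omega
      have hnot : ∀ v ∈ R, v ∉ B → v ∉ B2 := by
        intro v hv hvB h3
        rw [hB2, mem_union, mem_union, mem_biUnion] at h3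
        rcases h3 with (h3 | h3) | ⟨τ, hτ, h3⟩
        · exact hvB (hpre h3)
        · rw [hS, mem_inter] at h3
          exact hvB h3.1
        · have h4 := (hC τ (mem_powerset.1 hτ)).1 h3
          rw [mem_cls] at h4
          exact h4.2.1 hv
      rw [← hB2]
      refine ⟨⟨x, y, z, hnot x hxR hx, hnot y hyR hy, hnot z hzR hz, hxy, hxz, hyz, ?_, ?_, ?_⟩,
        hcardeq⟩
      · rw [hdg x hxR, hdg y hyR, hyd, hd]
      · rw [hdg x hxR, hdg z hzR, hzd, hd]
      · intro v hv
        rw [hdg x hxR, ← hd]
        by_cases hvR : v ∈ R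
        · rw [hdg v hvR]
          apply hmax
          intro hvB
          apply hv
          rw [hB2, mem_union, mem_union]
          left
          right
          rw [hS, mem_inter]
          exact ⟨hvB, hvR⟩
        · have hsub : pre j ⊆ B2 := by
            rw [hB2]
            exact subset_union_left.trans subset_union_left
          have h3 : v ∉ pre j := fun h => hv (hsub h)
          have h4 : v ∉ P := fun h => hvR (by rw [hR]; exact mem_union_left _ h)
          have h5 : dg G (pre j) v ≤ d := by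
            by_contra hcon
            push Not at hcon
            apply h4
            rw [hP, mem_filter]
            exact ⟨mem_univ _, h3, hcon⟩
          exact ((h1 V G (pre j) B2 hsub v).1).trans h5

end Pool.Agent.R288.FT.PCO
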