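import Pool.Agent.R288.FT.Gr

set_option autoImplicit false

open Finset

namespace Pool.Agent.R288.FT.PCOb

open Classical in
theorem dgc {V : Type} [Fintype V] (G : SimpleGraph V) (B : Finset V) (v : V) :
    dg G B v + (B.filter fun u => G.Adj v u).card = (univ.filter fun u => G.Adj v u).card := by
  unfold dg
  rw [← card_union_of_disjoint]
  · congr 1
    ext u
    simp only [mem_union, mem_filter, mem_univ, true_and]
    tauto
  · rw [disjoint_left]
    intro u hu hu'
    simp only [mem_filter, mem_univ, true_and] at hu hu'
    exact hu.1 hu'.1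

section
variable {V : Type} [Fintype V] [DecidableEq V]

open Classical in
theorem cnt (G : SimpleGraph V) (P S R : Finset V) (hPS : Disjoint P S) (hSR : S ⊆ R)
    (t : Finset V → ℕ) (C : Finset V → Finset V)
    (hC : ∀ τ ⊆ R, C τ ⊆ cls G P R τ ∧ (C τ).card = t τ) (q : V → Prop) (s : Finset V → Prop)
    (hq : ∀ τ ⊆ R, ∀ u ∈ cls G P R τ, (q u ↔ s τ)) :
    ((P ∪ S ∪ R.powerset.biUnion C).filter q).card =
      (P.filter q).card + (S.filter q).card + ∑ τ ∈ R.powerset, if s τ then t τ else 0 := by
  have hd : Disjoint (P ∪ S) (R.powerset.biUnion C) := by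
    rw [disjoint_left]
    intro u hu hu'
    rw [mem_biUnion] at hu'
    obtain ⟨τ, hτ, hu'⟩ := hu'
    have := (hC τ (mem_powerset.1 hτ)).1 hu'
    unfold cls at this
    simp only [mem_filter, mem_univ, true_and] at this
    rcases mem_union.1 hu with h | h
    · exact this.1 h
    · exact this.2.1 (hSR h)
  rw [filter_union, filter_union, card_union_of_disjoint, card_union_of_disjoint]
  · congr 1
    rw [filter_biUnion, card_biUnion]
    · refine sum_congr rfl fun τ hτ => ?_
      have h1 := hC τ (mem_powerset.1 hτ)
      by_cases hs : s τ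
      · rw [if_pos hs, filter_true_of_mem, h1.2]
        intro u hu
        exact (hq τ (mem_powerset.1 hτ) u (h1.1 hu)).2 hs
      · rw [if_neg hs, filter_false_of_mem, card_empty]
        intro u hu hqu
        exact hs ((hq τ (mem_powerset.1 hτ) u (h1.1 hu)).1 hqu)
    · intro τ hτ τ' hτ' hne
      rw [Function.onFun, disjoint_left]
      intro u hu hu'
      have h1 := (hC τ (mem_powerset.1 hτ)).1 (mem_filter.1 hu).1
      have h2 := (hC τ' (mem_powerset.1 hτ')).1 (mem_filter.1 hu').1
      unfold cls at h1 h2
      simp only [mem_filter, mem_univ, true_and] at h1 h2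
      exact hne (h1.2.2.symm.trans h2.2.2)
  · exact disjoint_filter_filter hPS
  · rw [← filter_union]
    exact disjoint_filter_filter hd

end

theorem t_CO (hM : S_MON) (hW : S_WI) : S_CO := by
  intro V _ _ G pre hG B hB hmin
  classical
  obtain ⟨x, y, z, hx, hy, hz, hxy, hxz, hyz, ey, ez, htop⟩ := hB
  have hlt : B.card < Fintype.card V := by
    rw [← card_univ]
    exact card_lt_card (ssubset_univ_iff.2 (fun h => hx (h ▸ mem_univ x)))
  have key : ∀ j, j ≤ Fintype.card V → (pre j ⊆ B ∧ (pre j).card = j) ∨
      ∃ i, i < Fintype.card V ∧ pre i ⊆ B ∧ (pre i).card = i ∧ ∃ u, u ∉ B ∧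
        ∀ v, v ∉ pre i → dg G (pre i) v ≤ dg G (pre i) u := by
    intro j
    induction j with
    | zero =>
      intro _
      left
      rw [hG.1]
      simp
    | succ j ih =>
      intro hj
      rcases ih (by omega) with h | h
      · obtain ⟨u, hu, hum, he⟩ := hG.2 j (by omega)
        by_cases huB : u ∈ B
        · left
          rw [he]
          refine ⟨insert_subset huB h.1, ?_⟩
          rw [card_insert_of_notMem hu, h.2]
        · right
          exact ⟨j, by omega, h.1, h.2, u, huB, hum⟩
      · right
        exact h
  have : ∃ i, i < Fintype.card V ∧ pre i ⊆ B ∧ (pre i).card = i ∧ ∃ u, u ∉ B ∧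
        ∀ v, v ∉ pre i → dg G (pre i) v ≤ dg G (pre i) u := by
    rcases key _ le_rfl with h | h
    · have := card_le_card h.1
      omega
    · exact h
  obtain ⟨j, hj, hjB, hjc, w, hw, hwm⟩ := this
  have hDw := (hM V G (pre j) B hjB w).2.1
  have hdw := htop w hw
  by_cases hsmall : B.card - j ≤ 42696
  · refine ⟨j, ∅, B \ pre j, fun _ => 0, hj, by simp, ?_, by simp, ?_⟩
    · rw [card_sdiff_of_subset hjB, hjc]
      exact hsmall
    · intro C hC
      have h0 := (hC ∅ (Finset.Subset.refl _)).2
      rw [card_eq_zero] at h0
      have : pre j ∪ (B \ pre j) ∪ (∅ : Finset V).powerset.biUnion C = B := by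
        rw [powerset_empty, singleton_biUnion, h0, union_empty]
        exact union_sdiff_of_subset hjB
      rw [this]
      exact ⟨⟨x, y, z, hx, hy, hz, hxy, hxz, hyz, ey, ez, htop⟩, rfl⟩
  · set d := dg G B x with hd
    set P := univ.filter (fun v => v ∉ pre j ∧ d < dg G (pre j) v) with hP
    have hPc : P.card < 576 := by
      by_contra hcon
      have h576 : 576 ≤ P.card := not_lt.1 hcon
      rw [hP] at h576
      obtain ⟨B', h1, h2, h3⟩ := hW V G (pre j) d (dg G (pre j) w) hwm (by convert h576)
      have h4 := hmin B' h2
      omega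
    set R := P ∪ {x, y, z} with hR
    have hRc : R.card ≤ 579 := by
      have h1 : R.card ≤ P.card + ({x, y, z} : Finset V).card := card_union_le P {x, y, z}
      have h2 : ({x, y, z} : Finset V).card ≤ 3 := card_le_three
      omega
    have hRpre : ∀ v ∈ R, v ∉ pre j := by
      intro v hv hvp
      rcases mem_union.1 hv with h | h
      · rw [hP, mem_filter] at h
        exact h.2.1 hvp
      · simp only [mem_insert, mem_singleton] at h
        rcases h with rfl | rfl | rfl
        · exact hx (hjB hvp)
        · exact hy (hjB hvp)
        · exact hz (hjB hvp)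
    set t : Finset V → ℕ := fun τ => (B ∩ cls G (pre j) R τ).card with ht
    have hdis : Disjoint (pre j) (B ∩ R) := by
      rw [disjoint_left]
      intro v hv hv'
      exact hRpre v (mem_inter.1 hv').2 hv
    have hBF : pre j ∪ (B ∩ R) ∪ R.powerset.biUnion (fun τ => B ∩ cls G (pre j) R τ) = B := by
      ext v
      simp only [mem_union, mem_inter, mem_biUnion, mem_powerset]
      constructor
      · rintro ((h | h) | ⟨τ, -, h, -⟩)
        · exact hjB h
        · exact h.1
        · exact h
      · intro h
        by_cases h1 : v ∈ pre j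
        · exact Or.inl (Or.inl h1)
        · by_cases h2 : v ∈ R
          · exact Or.inl (Or.inr ⟨h, h2⟩)
          · right
            refine ⟨R.filter (fun u => G.Adj v u), filter_subset _ _, h, ?_⟩
            unfold cls
            simp only [mem_filter, mem_univ, true_and]
            exact ⟨h1, h2, trivial⟩
    refine ⟨j, R, B ∩ R, t, hj, hRc, ?_, ?_, ?_⟩
    · have := card_le_card (inter_subset_right (s₁ := B) (s₂ := R))
      omega
    · intro τ _
      exact card_le_card inter_subset_right
    · intro C hC
      have hC' : ∀ τ ⊆ R, (fun τ => B ∩ cls G (pre j) R τ) τ ⊆ cls G (pre j) R τ ∧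
          ((fun τ => B ∩ cls G (pre j) R τ) τ).card = t τ :=
        fun τ _ => ⟨inter_subset_right, rfl⟩
      set B2 := pre j ∪ (B ∩ R) ∪ R.powerset.biUnion C with hB2
      have hcard : B2.card = B.card := by
        have a1 := cnt G (pre j) (B ∩ R) R hdis inter_subset_right t C hC (fun _ => True)
          (fun _ => True) (fun _ _ _ _ => Iff.rfl)
        have a2 := cnt G (pre j) (B ∩ R) R hdis inter_subset_right t _ hC' (fun _ => True)
          (fun _ => True) (fun _ _ _ _ => Iff.rfl)
        rw [hBF] at a2
        simp only [filter_true] at a1 a2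
        rw [a1, a2]
      have hdeg : ∀ v ∈ R, dg G B2 v = dg G B v := by
        intro v hv
        have hq : ∀ τ ⊆ R, ∀ u ∈ cls G (pre j) R τ, (G.Adj v u ↔ v ∈ τ) := by
          intro τ _ u hu
          unfold cls at hu
          simp only [mem_filter, mem_univ, true_and] at hu
          rw [← hu.2.2, mem_filter]
          constructor
          · intro h
            exact ⟨hv, h.symm⟩
          · intro h
            exact h.2.symm
        have a1 := cnt G (pre j) (B ∩ R) R hdis inter_subset_right t C hC (fun u => G.Adj v u)
          (fun τ => v ∈ τ) hq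
        have a2 := cnt G (pre j) (B ∩ R) R hdis inter_subset_right t _ hC' (fun u => G.Adj v u)
          (fun τ => v ∈ τ) hq
        rw [hBF] at a2
        have b1 := dgc G B2 v
        have b2 := dgc G B v
        have a3 : (B2.filter fun u => G.Adj v u).card = (B.filter fun u => G.Adj v u).card := by
          rw [a2]
          exact a1
        have b1' : dg G B2 v + (B2.filter fun u => G.Adj v u).card =
          (univ.filter fun u => G.Adj v u).card := by convert b1
        have b2' : dg G B v + (B.filter fun u => G.Adj v u).card =
          (univ.filter fun u => G.Adj v u).card := by convert b2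
        omega
      have hnot : ∀ v ∈ R, v ∉ B → v ∉ B2 := by
        intro v hv hvB h
        rw [hB2] at h
        simp only [mem_union, mem_inter, mem_biUnion, mem_powerset] at h
        rcases h with (h | h) | ⟨τ, hτ, h⟩
        · exact hvB (hjB h)
        · exact hvB h.1
        · have := (hC τ hτ).1 h
          unfold cls at this
          simp only [mem_filter, mem_univ, true_and] at this
          exact this.2.1 hv
      have hxR : x ∈ R := by rw [hR]; simp
      have hyR : y ∈ R := by rw [hR]; simp
      have hzR : z ∈ R := by rw [hR]; simp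
      refine ⟨⟨x, y, z, hnot x hxR hx, hnot y hyR hy, hnot z hzR hz, hxy, hxz, hyz, ?_, ?_, ?_⟩,
        hcard⟩
      · rw [hdeg x hxR, hdeg y hyR, ey]
      · rw [hdeg x hxR, hdeg z hzR, ez]
      · intro v hv
        rw [hdeg x hxR]
        by_cases hvR : v ∈ R
        · rw [hdeg v hvR]
          refine htop v ?_
          intro hvB
          exact hv (by rw [hB2]; simp [hvB, hvR])
        · have hvp : v ∉ pre j := fun h => hv (by rw [hB2]; simp [h])
          have h1 : dg G (pre j) v ≤ d := by
            by_contra hcon
            refine hvR ?_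
            rw [hR, mem_union]
            left
            rw [hP, mem_filter]
            exact ⟨mem_univ _, hvp, not_le.1 hcon⟩
          have hsub : pre j ⊆ B2 := by
            rw [hB2]
            intro u hu
            simp [hu]
          exact ((hM V G (pre j) B2 hsub v).1).trans h1

end Pool.Agent.R288.FT.PCOb
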