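import Pool.Agent.R288.FT.Gr

/-! FT-EQ (helper261): equalise two vertices. -/

set_option autoImplicit false

open Finset

namespace Pool.Agent.R288.FT.PEQ

open Pool.Agent.R288.FT

theorem t_EQ (h : S_MON) : S_EQ := by
  classical
  intro V _ G B x y hx hy hxy hle
  let NX : Finset V := univ.filter fun u => u ∉ B ∧ G.Adj x u
  let NY : Finset V := univ.filter fun u => u ∉ B ∧ G.Adj y u
  let Q : Finset V := univ.filter fun u => u ∉ B ∧ G.Adj x u ∧ ¬ G.Adj y u ∧ u ≠ y
  have hX : dg G B x = NX.card := by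
    unfold dg
    exact congrArg Finset.card (Finset.filter_congr_decidable _ _ _)
  have hY : dg G B y = NY.card := by
    unfold dg
    exact congrArg Finset.card (Finset.filter_congr_decidable _ _ _)
  have hQsub : Q ⊆ NX := by
    intro u hu
    have h1 := (mem_filter.1 hu).2
    exact mem_filter.2 ⟨mem_univ _, h1.1, h1.2.1⟩
  have hrest : (NX \ Q).card ≤ NY.card := by
    have hxn : x ∉ NX ∩ NY := by
      intro hh
      exact G.irrefl ((mem_filter.1 (mem_inter.1 hh).1).2.2)
    by_cases hadj : G.Adj x y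
    · have h1 : NX \ Q ⊆ insert y (NX ∩ NY) := by
        intro u hu
        obtain ⟨hu1, hu2⟩ := mem_sdiff.1 hu
        have h2 := (mem_filter.1 hu1).2
        by_cases huy : u = y
        · exact mem_insert.2 (Or.inl huy)
        · refine mem_insert.2 (Or.inr (mem_inter.2 ⟨hu1, mem_filter.2 ⟨mem_univ _, h2.1, ?_⟩⟩))
          by_contra hc
          exact hu2 (mem_filter.2 ⟨mem_univ _, h2.1, h2.2, hc, huy⟩)
      have h3 : insert x (NX ∩ NY) ⊆ NY := by
        intro u hu
        rcases mem_insert.1 hu with rfl | hu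
        · exact mem_filter.2 ⟨mem_univ _, hx, hadj.symm⟩
        · exact (mem_inter.1 hu).2
      have h4 := card_le_card h1
      have h5 := card_le_card h3
      have h6 := card_insert_le y (NX ∩ NY)
      rw [card_insert_of_notMem hxn] at h5
      omega
    · refine card_le_card ?_
      intro u hu
      obtain ⟨hu1, hu2⟩ := mem_sdiff.1 hu
      have h2 := (mem_filter.1 hu1).2
      refine mem_filter.2 ⟨mem_univ _, h2.1, ?_⟩
      by_contra hc
      refine hu2 (mem_filter.2 ⟨mem_univ _, h2.1, h2.2, hc, ?_⟩)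
      rintro rfl
      exact hadj h2.2
  have hcard : NX.card ≤ Q.card + NY.card := by
    have h1 := card_sdiff_add_card_eq_card hQsub
    omega
  obtain ⟨T, hTQ, hTc⟩ := exists_subset_card_eq (s := Q) (n := dg G B x - dg G B y)
    (by rw [hX, hY]; omega)
  have hdisj : Disjoint B T := by
    rw [disjoint_left]
    intro u hu hu2
    exact (mem_filter.1 (hTQ hu2)).2.1 hu
  have hc : (B ∪ T).card = B.card + (dg G B x - dg G B y) := by
    rw [card_union_of_disjoint hdisj, hTc]
  have hnew : ∀ u ∈ B ∪ T, u ∉ B → G.Adj x u ∧ ¬ G.Adj y u ∧ u ≠ y ∧ u ≠ x := by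
    intro u hu huB
    have h1 : u ∈ T := (mem_union.1 hu).resolve_left huB
    have h2 := (mem_filter.1 (hTQ h1)).2
    exact ⟨h2.2.1, h2.2.2.1, h2.2.2.2, fun hh => G.irrefl (hh ▸ h2.2.1)⟩
  have hmx := h V G B (B ∪ T) subset_union_left x
  have hmy := h V G B (B ∪ T) subset_union_left y
  have e1 := hmx.2.2.1 fun u hu huB => (hnew u hu huB).1
  have e2 := hmy.2.2.2 fun u hu huB => (hnew u hu huB).2.1
  refine ⟨B ∪ T, subset_union_left, ?_, hnew, ?_, e2⟩
  · omega
  · omega

end Pool.Agent.R288.FT.PEQ
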