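import Pool.Agent.R288.FT.Gr

set_option autoImplicit false

open Finset

namespace Pool.Agent.R288.FT.PL1b

variable {V : Type} [Fintype V]

structure St (G : SimpleGraph V) (B : Finset V) (x r1 r2 : V) (L : ℕ) : Prop where
  hx : x ∉ B
  h1 : r1 ∉ B
  h2 : r2 ∉ B
  top : ∀ v, v ∉ B → dg G B v ≤ dg G B x
  g1 : dg G B x ≤ dg G B r1 + L
  g2 : dg G B x ≤ dg G B r2 + L

theorem del (hM : S_MON) {G : SimpleGraph V} {B B' : Finset V} {x r1 r2 : V} {L : ℕ}
    (h : St G B x r1 r2 L) (hB : B ⊆ B') (hd : ∀ u ∈ B', u ∉ B → G.Adj x u)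
    (n1 : ¬ G.Adj x r1) (n2 : ¬ G.Adj x r2)
    (htop : ∀ v, v ∉ B' → dg G B' v ≤ dg G B' x) : St G B' x r1 r2 L := by
  have e := ((hM V G B B' hB x).2.2.1) hd
  refine ⟨?_, ?_, ?_, htop, ?_, ?_⟩
  · intro hx
    exact G.loopless.irrefl x (hd x hx h.hx)
  · intro hx
    exact n1 (hd r1 hx h.h1)
  · intro hx
    exact n2 (hd r2 hx h.h2)
  · have := (hM V G B B' hB r1).2.1
    have := h.g1
    omega
  · have := (hM V G B B' hB r2).2.1
    have := h.g2
    omega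

theorem fin (hN : S_NA) {G : SimpleGraph V} {B : Finset V} {x r1 r2 : V} {L : ℕ}
    (h : St G B x r1 r2 L) (h12 : r1 ≠ r2) (h1x : r1 ≠ x) (h2x : r2 ≠ x) {y : V} (hy : y ∉ B)
    (hyx : y ≠ x) (hxy : ¬ G.Adj x y) (he : dg G B y = dg G B x) :
    ∃ B' : Finset V, B ⊆ B' ∧ S3 G B' ∧ B'.card ≤ B.card + 2 * L := by
  by_cases hr : r1 = y
  · exact hN V G B x y r2 L h.hx hy h.h2 hyx.symm h2x (by rw [← hr]; exact h12.symm) he hxy
      h.top h.g2
  · exact hN V G B x y r1 L h.hx hy h.h1 hyx.symm h1x hr he hxy h.top h.g1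

theorem eqz (hM : S_MON) (hE : S_EQ) {G : SimpleGraph V} {B : Finset V} {x r1 r2 : V} {L : ℕ}
    (h : St G B x r1 r2 L) (h1x : r1 ≠ x) (n1 : ¬ G.Adj x r1) (n2 : ¬ G.Adj x r2) {v : V}
    (hv : v ∉ B) (hvx : v ≠ x) (hs : ∀ w, w ∉ B → w ≠ x → dg G B w ≤ dg G B v) :
    ∃ B' : Finset V, B ⊆ B' ∧ St G B' x r1 r2 L ∧ v ∉ B' ∧ dg G B' v = dg G B' x ∧
      dg G B' v = dg G B v ∧ B'.card + dg G B v = B.card + dg G B x ∧
      B'.card ≤ B.card + L := by
  obtain ⟨B', hB, hc, hd, e1, e2⟩ := hE V G B x v h.hx hv hvx.symm (h.top v hv)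
  refine ⟨B', hB, ?_, ?_, by rw [e1, e2], e2, hc, ?_⟩
  · refine del hM h hB (fun u hu hu' => (hd u hu hu').1) n1 n2 ?_
    intro w hw
    by_cases hwx : w = x
    · rw [hwx]
    · have h3 := (hM V G B B' hB w).1
      have h4 := hs w (fun h => hw (hB h)) hwx
      omega
  · intro hv'
    exact (hd v hv' hv).2.2.1 rfl
  · have h3 := hs r1 h.h1 h1x
    have h4 := h.g1
    omega

open Classical in
theorem third {G : SimpleGraph V} {B : Finset V} {x y r1 r2 : V} {L : ℕ}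
    (h : St G B x r1 r2 L) (h12 : r1 ≠ r2) (h1x : r1 ≠ x) (h2x : r2 ≠ x) :
    ∃ z, z ∉ B ∧ z ≠ x ∧ z ≠ y ∧ (∀ v, v ∉ B → v ≠ x → v ≠ y → dg G B v ≤ dg G B z) ∧
      dg G B x ≤ dg G B z + L := by
  have hne : (univ.filter fun v => v ∉ B ∧ v ≠ x ∧ v ≠ y).Nonempty := by
    by_cases hr : r1 = y
    · exact ⟨r2, by simp [h.h2, h2x]; rw [← hr]; exact h12.symm⟩
    · exact ⟨r1, by simp [h.h1, h1x]; exact hr⟩
  obtain ⟨z, hz, hm⟩ := exists_max_image _ (fun v => dg G B v) hne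
  simp only [mem_filter, mem_univ, true_and] at hz hm
  refine ⟨z, hz.1, hz.2.1, hz.2.2, fun v a b c => hm v ⟨a, b, c⟩, ?_⟩
  by_cases hr : r1 = y
  · have := hm r2 ⟨h.h2, h2x, by rw [← hr]; exact h12.symm⟩
    have := h.g2
    omega
  · have := hm r1 ⟨h.h1, h1x, hr⟩
    have := h.g1
    omega

theorem dgins (hM : S_MON) {G : SimpleGraph V} {B : Finset V} [DecidableEq V] {y v : V}
    (hy : y ∉ B) : (G.Adj v y → dg G (insert y B) v + 1 = dg G B v) ∧
      (¬ G.Adj v y → dg G (insert y B) v = dg G B v) := by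
  have hc : (insert y B).card = B.card + 1 := card_insert_of_notMem hy
  constructor
  · intro h
    have := (hM V G B (insert y B) (subset_insert _ _) v).2.2.1 (by
      intro u hu hu'
      rcases mem_insert.1 hu with rfl | h'
      · exact h
      · exact absurd h' hu')
    omega
  · intro h
    exact (hM V G B (insert y B) (subset_insert _ _) v).2.2.2 (by
      intro u hu hu'
      rcases mem_insert.1 hu with rfl | h'
      · exact h
      · exact absurd h' hu')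

open Classical in
/-- twins -/
theorem twin {G : SimpleGraph V} {B : Finset V} {x z : V} (hx : x ∉ B) (hz : z ∉ B)
    (hxz : G.Adj x z) (he : dg G B z = dg G B x)
    (hs : ∀ u, u ∉ B → u ≠ x → G.Adj z u → G.Adj x u) :
    ∀ u, u ∉ B → u ≠ z → G.Adj x u → G.Adj z u := by
  have hsub : (univ.filter fun u => u ∉ B ∧ G.Adj z u).erase x ⊆
      (univ.filter fun u => u ∉ B ∧ G.Adj x u).erase z := by
    intro u hu
    simp only [mem_erase, mem_filter, mem_univ, true_and] at hu ⊢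
    exact ⟨fun h => G.loopless.irrefl z (h ▸ hu.2.2), hu.2.1, hs u hu.2.1 hu.1 hu.2.2⟩
  have hc1 : ((univ.filter fun u => u ∉ B ∧ G.Adj z u).erase x).card + 1 = dg G B z := by
    rw [card_erase_of_mem (by simp [hx, hxz.symm])]
    have : 0 < (univ.filter fun u => u ∉ B ∧ G.Adj z u).card :=
      card_pos.2 ⟨x, by simp [hx, hxz.symm]⟩
    unfold dg
    omega
  have hc2 : ((univ.filter fun u => u ∉ B ∧ G.Adj x u).erase z).card + 1 = dg G B x := by
    rw [card_erase_of_mem (by simp [hz, hxz])]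
    have : 0 < (univ.filter fun u => u ∉ B ∧ G.Adj x u).card :=
      card_pos.2 ⟨z, by simp [hz, hxz]⟩
    unfold dg
    omega
  have heq := eq_of_subset_of_card_le hsub (by omega)
  intro u hu huz hxu
  have : u ∈ (univ.filter fun u => u ∉ B ∧ G.Adj x u).erase z := by
    simp [hu, huz, hxu]
  rw [← heq] at this
  simp only [mem_erase, mem_filter, mem_univ, true_and] at this
  exact this.2.2

open Classical in
theorem case1 (hM : S_MON) (hE : S_EQ) (hC : S_CA) (hN : S_NA) {G : SimpleGraph V}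
    {B : Finset V} {x y z r1 r2 : V} {L : ℕ}
    (h : St G B x r1 r2 L) (h12 : r1 ≠ r2) (h1x : r1 ≠ x) (h2x : r2 ≠ x)
    (n1 : ¬ G.Adj x r1) (n2 : ¬ G.Adj x r2) (hy : y ∉ B) (hxy : G.Adj x y)
    (hyx : dg G B y = dg G B x) (hz : z ∉ B) (hzx : z ≠ x) (hzy : z ≠ y)
    (hzm : ∀ v, v ∉ B → v ≠ x → v ≠ y → dg G B v ≤ dg G B z) (hyz : ¬ G.Adj y z)
    (hO : ∀ u, u ∉ B → u ≠ x → G.Adj z u → G.Adj x u) (hlt : dg G B z < dg G B x)
    (hg : dg G B x ≤ dg G B z + L) :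
    ∃ B' : Finset V, B ⊆ B' ∧ S3 G B' ∧ B'.card ≤ B.card + 4 * L := by
  have hBi : B ⊆ insert y B := subset_insert _ _
  have hci : (insert y B).card = B.card + 1 := card_insert_of_notMem hy
  have ex := (dgins hM (G := G) (v := x) hy).1 hxy
  have ez := (dgins hM (G := G) (v := z) hy).2 (fun h => hyz h.symm)
  have hS1 : St G (insert y B) x r1 r2 L := by
    refine del hM h hBi ?_ n1 n2 ?_
    · intro u hu hu'
      rcases mem_insert.1 hu with rfl | h'
      · exact hxy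
      · exact absurd h' hu'
    · intro v hv
      by_cases hvx : v = x
      · rw [hvx]
      · have h1 := (hM V G B _ hBi v).1
        have h2 := hzm v (fun h => hv (hBi h)) hvx (fun h => hv (h ▸ mem_insert_self _ _))
        omega
  obtain ⟨B2, hB2, hS2, hz2, e1, e2, e3, -⟩ := eqz hM hE hS1 h1x n1 n2 (v := z)
    (by simp [hz, hzy]) hzx (by
      intro w hw hwx
      have h1 := (hM V G B _ hBi w).1
      have h2 := hzm w (fun h => hw (hBi h)) hwx (fun h => hw (h ▸ mem_insert_self _ _))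
      omega)
  have hBB2 : B ⊆ B2 := hBi.trans hB2
  by_cases hxz : G.Adj x z
  swap
  · obtain ⟨B', a, b, c⟩ := fin hN hS2 h12 h1x h2x hz2 hzx hxz e1
    exact ⟨B', hBB2.trans a, b, by omega⟩
  have hO2 : ∀ u, u ∉ B2 → u ≠ x → G.Adj z u → G.Adj x u :=
    fun u hu => hO u (fun h => hu (hBB2 h))
  have htw := twin hS2.hx hz2 hxz e1 hO2
  obtain ⟨t, ht, htx, htz, htm, htg⟩ := third (y := z) hS2 h12 h1x h2x
  by_cases hst : dg G B2 t = dg G B2 x
  · exact ⟨B2, hBB2, ⟨x, z, t, hS2.hx, hz2, ht, hzx.symm, htx.symm, htz.symm, e1, hst,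
      hS2.top⟩, by omega⟩
  have htop := hS2.top t ht
  have hCA : (¬ G.Adj x z ∨ G.Adj z t ∨ ∃ u, u ∉ B2 ∧ u ≠ x ∧ G.Adj t u ∧ ¬ G.Adj x u) →
      (¬ G.Adj x z ∨ G.Adj x t ∨ ∃ u, u ∉ B2 ∧ u ≠ z ∧ G.Adj t u ∧ ¬ G.Adj z u) →
      ∃ B' : Finset V, B ⊆ B' ∧ S3 G B' ∧ B'.card ≤ B.card + 4 * L := by
    intro a1 a2
    obtain ⟨B', a, b, c⟩ := hC V G B2 x z t hS2.hx hz2 ht hzx.symm htx.symm htz.symm e1 htop
      htm a1 a2
    exact ⟨B', hBB2.trans a, b, by omega⟩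
  by_cases hxt : G.Adj x t
  · exact hCA (Or.inr (Or.inl (htw t ht htz hxt))) (Or.inr (Or.inl hxt))
  have hzt : ¬ G.Adj z t := fun h => hxt (hO2 t ht htx h)
  by_cases hex : ∃ u, u ∉ B2 ∧ G.Adj t u ∧ ¬ G.Adj x u
  · obtain ⟨u, hu, htu, hxu⟩ := hex
    have hux : u ≠ x := fun h => hxt (h ▸ htu.symm)
    have huz : u ≠ z := fun h => hzt (h ▸ htu.symm)
    exact hCA (Or.inr (Or.inr ⟨u, hu, hux, htu, hxu⟩))
      (Or.inr (Or.inr ⟨u, hu, huz, htu, fun h => hxu (hO2 u hu hux h)⟩))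
  push Not at hex
  have hBi3 : B2 ⊆ insert z B2 := subset_insert _ _
  have hci3 : (insert z B2).card = B2.card + 1 := card_insert_of_notMem hz2
  have ex3 := (dgins hM (G := G) (v := x) hz2).1 hxz
  have et3 := (dgins hM (G := G) (v := t) hz2).2 (fun h => hzt h.symm)
  have hS3 : St G (insert z B2) x r1 r2 L := by
    refine del hM hS2 hBi3 ?_ n1 n2 ?_
    · intro u hu hu'
      rcases mem_insert.1 hu with rfl | h'
      · exact hxz
      · exact absurd h' hu'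
    · intro v hv
      by_cases hvx : v = x
      · rw [hvx]
      · have h1 := (hM V G B2 _ hBi3 v).1
        have h2 := htm v (fun h => hv (hBi3 h)) hvx (fun h => hv (h ▸ mem_insert_self _ _))
        omega
  obtain ⟨B4, hB4, hS4, ht4, f1, f2, f3, -⟩ := eqz hM hE hS3 h1x n1 n2 (v := t)
    (by simp [ht, htz]) htx (by
      intro w hw hwx
      have h1 := (hM V G B2 _ hBi3 w).1
      have h2 := htm w (fun h => hw (hBi3 h)) hwx (fun h => hw (h ▸ mem_insert_self _ _))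
      omega)
  obtain ⟨B', a, b, c⟩ := fin hN hS4 h12 h1x h2x ht4 htx hxt f1
  exact ⟨B', hBB2.trans (hBi3.trans (hB4.trans a)), b, by omega⟩

open Classical in
theorem case2 (hM : S_MON) (hE : S_EQ) (hN : S_NA) {G : SimpleGraph V}
    {B : Finset V} {x y z r1 r2 : V} {L : ℕ}
    (h : St G B x r1 r2 L) (h12 : r1 ≠ r2) (h1x : r1 ≠ x) (h2x : r2 ≠ x)
    (n1 : ¬ G.Adj x r1) (n2 : ¬ G.Adj x r2) (hy : y ∉ B) (hxy : G.Adj x y)
    (hyx : dg G B y = dg G B x) (hz : z ∉ B) (hzx : z ≠ x) (hzy : z ≠ y)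
    (hzm : ∀ v, v ∉ B → v ≠ x → v ≠ y → dg G B v ≤ dg G B z)
    (hall : ∀ u, u ∉ B → u ≠ x → u ≠ y → dg G B u = dg G B z → ¬ G.Adj x u)
    (hlt : dg G B z < dg G B x) (hg : dg G B x ≤ dg G B z + L) :
    ∃ B' : Finset V, B ⊆ B' ∧ S3 G B' ∧ B'.card ≤ B.card + 4 * L := by
  have hBi : B ⊆ insert y B := subset_insert _ _
  have hci : (insert y B).card = B.card + 1 := card_insert_of_notMem hy
  have ex := (dgins hM (G := G) (v := x) hy).1 hxy
  have hS1 : St G (insert y B) x r1 r2 L := by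
    refine del hM h hBi ?_ n1 n2 ?_
    · intro u hu hu'
      rcases mem_insert.1 hu with rfl | h'
      · exact hxy
      · exact absurd h' hu'
    · intro v hv
      by_cases hvx : v = x
      · rw [hvx]
      · have h1 := (hM V G B _ hBi v).1
        have h2 := hzm v (fun h => hv (hBi h)) hvx (fun h => hv (h ▸ mem_insert_self _ _))
        omega
  have key : ∀ u, u ∉ insert y B → u ≠ x → ¬ G.Adj x u →
      (∀ w, w ∉ insert y B → w ≠ x → dg G (insert y B) w ≤ dg G (insert y B) u) →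
      ∃ B' : Finset V, B ⊆ B' ∧ S3 G B' ∧ B'.card ≤ B.card + 4 * L := by
    intro u hu hux hxu hmax
    obtain ⟨B2, hB2, hS2, hu2, e1, e2, e3, e4⟩ := eqz hM hE hS1 h1x n1 n2 hu hux hmax
    obtain ⟨B', a, b, c⟩ := fin hN hS2 h12 h1x h2x hu2 hux hxu e1
    exact ⟨B', hBi.trans (hB2.trans a), b, by omega⟩
  obtain ⟨u, hu, hux, huy, hum, -⟩ := third (y := y) hS1 h12 h1x h2x
  have hum' : ∀ w, w ∉ insert y B → w ≠ x → dg G (insert y B) w ≤ dg G (insert y B) u :=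
    fun w hw hwx => hum w hw hwx (fun h => hw (h ▸ mem_insert_self _ _))
  by_cases hxu : G.Adj x u
  swap
  · exact key u hu hux hxu hum'
  have hzi : z ∉ insert y B := by simp [hz, hzy]
  have huB : u ∉ B := fun h => hu (hBi h)
  by_cases hzu : dg G (insert y B) z = dg G (insert y B) u
  · refine key z hzi hzx (hall z hz hzx hzy rfl) ?_
    intro w hw hwx
    rw [hzu]
    exact hum' w hw hwx
  · exfalso
    have a1 := hum' z hzi hzx
    have a2 := hzm u huB hux huy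
    have a3 := (hM V G B _ hBi z).2.1
    have a4 := (hM V G B _ hBi u).1
    exact hall u huB hux huy (by omega) hxu

theorem t_L1 (hM : S_MON) (hE : S_EQ) (hC : S_CA) (hN : S_NA) : S_L1 := by
  intro V _ G B x r1 r2 L hx hr1 hr2 h12 h1x h2x n1 n2 htop g1 g2
  classical
  have h : St G B x r1 r2 L := ⟨hx, hr1, hr2, htop, g1, g2⟩
  obtain ⟨y, hy, hyx, -, hym, -⟩ := third (y := x) h h12 h1x h2x
  obtain ⟨B1, hB1, hS1, hy1, e1, e2, e3, e4⟩ := eqz hM hE h h1x n1 n2 hy hyx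
    (fun w hw hwx => hym w hw hwx hwx)
  by_cases hxy : G.Adj x y
  swap
  · obtain ⟨B', a, b, c⟩ := fin hN hS1 h12 h1x h2x hy1 hyx hxy e1
    exact ⟨B', hB1.trans a, b, by omega⟩
  obtain ⟨z, hz, hzx, hzy, hzm, hzg⟩ := third (y := y) hS1 h12 h1x h2x
  by_cases heq : dg G B1 z = dg G B1 x
  · exact ⟨B1, hB1, ⟨x, y, z, hS1.hx, hy1, hz, hyx.symm, hzx.symm, hzy.symm, e1, heq,
      hS1.top⟩, by omega⟩
  have hzt := hS1.top z hz
  have hlt : dg G B1 z < dg G B1 x := lt_of_le_of_ne hzt heq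
  by_cases hcase : ∃ u, u ∉ B1 ∧ u ≠ x ∧ u ≠ y ∧ dg G B1 u = dg G B1 z ∧ G.Adj x u
  · obtain ⟨u, hu, hux, huy, hud, hxu⟩ := hcase
    have hum : ∀ v, v ∉ B1 → v ≠ x → v ≠ y → dg G B1 v ≤ dg G B1 u := by
      intro v a b c
      rw [hud]
      exact hzm v a b c
    by_cases hH1 : (¬ G.Adj x y ∨ G.Adj y u ∨ ∃ w, w ∉ B1 ∧ w ≠ x ∧ G.Adj u w ∧ ¬ G.Adj x w)
    · obtain ⟨B', a, b, c⟩ := hC V G B1 x y u hS1.hx hy1 hu hyx.symm hux.symm huy.symm e1
        (hS1.top u hu) hum hH1 (Or.inr (Or.inl hxu))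
      exact ⟨B', hB1.trans a, b, by omega⟩
    · push Not at hH1
      obtain ⟨-, hyu, hO⟩ := hH1
      obtain ⟨B', a, b, c⟩ := case1 hM hE hC hN hS1 h12 h1x h2x n1 n2 hy1 hxy e1 hu hux huy hum
        hyu hO (by omega) (by omega)
      exact ⟨B', hB1.trans a, b, by omega⟩
  · push Not at hcase
    obtain ⟨B', a, b, c⟩ := case2 hM hE hN hS1 h12 h1x h2x n1 n2 hy1 hxy e1 hz hzx hzy hzm
      hcase hlt hzg
    exact ⟨B', hB1.trans a, b, by omega⟩

end Pool.Agent.R288.FT.PL1b
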