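import Pool.Agent.R288.FT.Gr

set_option autoImplicit false

open Finset

namespace Pool.Agent.R288.FT.PL2b

variable {V : Type} [Fintype V]

structure St (G : SimpleGraph V) (B : Finset V) (x y r : V) : Prop where
  hx : x ∉ B
  hy : y ∉ B
  hr : r ∉ B
  tie : dg G B y = dg G B x
  top : ∀ v, v ∉ B → dg G B v ≤ dg G B x

theorem dgins (hM : S_MON) {G : SimpleGraph V} {B : Finset V} [DecidableEq V] {y v : V}
    (hy : y ∉ B) : (G.Adj v y → dg G (insert y B) v + 1 = dg G B v) ∧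
      (¬ G.Adj v y → dg G (insert y B) v = dg G B v) := by
  have hc : (insert y B).card = B.card + 1 := card_insert_of_notMem hy
  constructor
  · intro h
    have := (hM V G B (insert y B) (subset_insert _ _) v).2.2.1 (by
      intro u hu hu'
      rcases mem_insert.1 hu with rfl | h'
      · exact h
      · exact absurd h' hu')
    omega
  · intro h
    exact (hM V G B (insert y B) (subset_insert _ _) v).2.2.2 (by
      intro u hu hu'
      rcases mem_insert.1 hu with rfl | h'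
      · exact h
      · exact absurd h' hu')

open Classical in
theorem half (hM : S_MON) (hE : S_EQ) {G : SimpleGraph V} {B1 : Finset V} {x y r z : V}
    (h : St G B1 x y r) (hxy : x ≠ y) (hrx : r ≠ x) (hry : r ≠ y) (ax : G.Adj x r)
    (hz : z ∉ B1) (hzx : z ≠ x) (hzy : z ≠ y) (hzr : z ≠ r)
    (hzm : ∀ v, v ∉ B1 → v ≠ x → v ≠ y → dg G B1 v ≤ dg G B1 z)
    (hlt : dg G B1 z < dg G B1 x) (hxz : G.Adj x z) (hyz : ¬ G.Adj y z) :
    ∃ B2 : Finset V, B1 ⊆ B2 ∧ z ∈ B2 ∧ B2.card ≤ B1.card + 2 ∧ x ∉ B2 ∧ y ∉ B2 ∧ r ∉ B2 ∧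
      dg G B2 y = dg G B2 x ∧ (∀ v, v ∉ B2 → dg G B2 v ≤ dg G B2 x) := by
  have hi : B1 ⊆ insert z B1 := subset_insert _ _
  have hci : (insert z B1).card = B1.card + 1 := card_insert_of_notMem hz
  have ex := (dgins hM (G := G) (v := x) hz).1 hxz
  have ey := (dgins hM (G := G) (v := y) hz).2 hyz
  have ht := h.tie
  obtain ⟨B2, hB, hc, hd, e1, e2⟩ := hE V G (insert z B1) y x (by simp [h.hy, hzy.symm])
    (by simp [h.hx, hzx.symm]) hxy.symm (by omega)
  refine ⟨B2, hi.trans hB, hB (mem_insert_self _ _), by omega, ?_, ?_, ?_, by rw [e1, e2], ?_⟩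
  · intro hm
    exact (hd x hm (by simp [h.hx, hzx.symm])).2.2.1 rfl
  · intro hm
    exact (hd y hm (by simp [h.hy, hzy.symm])).2.2.2 rfl
  · intro hm
    exact (hd r hm (by simp [h.hr, hzr.symm])).2.1 ax
  · intro v hv
    by_cases hvx : v = x
    · rw [hvx]
    by_cases hvy : v = y
    · rw [hvy, e1, e2]
    have h1 := (hM V G B1 B2 (hi.trans hB) v).1
    have h2 := hzm v (fun h => hv (hB (hi h))) hvx hvy
    omega

open Classical in
theorem round (hM : S_MON) (hE : S_EQ) (hC : S_CA) {G : SimpleGraph V} {B1 : Finset V}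
    {x y r : V} (h : St G B1 x y r) (hxy : x ≠ y) (hrx : r ≠ x) (hry : r ≠ y)
    (ax : G.Adj x r) (ay : G.Adj y r) {g : ℕ} (hg : dg G B1 x ≤ dg G B1 r + g) :
    (∃ B' : Finset V, B1 ⊆ B' ∧ S3 G B' ∧ B'.card ≤ B1.card + 2 * g) ∨
    ∃ (z : V) (B2 : Finset V), z ∉ B1 ∧ z ≠ x ∧ z ≠ y ∧ (¬ G.Adj x z ∨ ¬ G.Adj y z) ∧
      dg G B1 r ≤ dg G B1 z ∧ B1 ⊆ B2 ∧ z ∈ B2 ∧ St G B2 x y r ∧ B2.card ≤ B1.card + 2 := by
  have hne : (univ.filter fun v => v ∉ B1 ∧ v ≠ x ∧ v ≠ y).Nonempty :=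
    ⟨r, by simp [h.hr, hrx, hry]⟩
  obtain ⟨z, hz, hm⟩ := exists_max_image _ (fun v => dg G B1 v) hne
  simp only [mem_filter, mem_univ, true_and] at hz hm
  obtain ⟨hz, hzx, hzy⟩ := hz
  have hzm : ∀ v, v ∉ B1 → v ≠ x → v ≠ y → dg G B1 v ≤ dg G B1 z := fun v a b c => hm v ⟨a, b, c⟩
  have hrz := hzm r h.hr hrx hry
  by_cases heq : dg G B1 z = dg G B1 x
  · left
    exact ⟨B1, Subset.refl _, ⟨x, y, z, h.hx, h.hy, hz, hxy, hzx.symm, hzy.symm, h.tie, heq,
      h.top⟩, by omega⟩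
  have hzt := h.top z hz
  have hlt : dg G B1 z < dg G B1 x := lt_of_le_of_ne hzt heq
  by_cases hxz : G.Adj x z
  · by_cases hyz : G.Adj y z
    · left
      obtain ⟨B', a, b, c⟩ := hC V G B1 x y z h.hx h.hy hz hxy hzx.symm hzy.symm h.tie hzt hzm
        (Or.inr (Or.inl hyz)) (Or.inr (Or.inl hxz))
      exact ⟨B', a, b, by omega⟩
    · right
      obtain ⟨B2, a1, a2, a3, a4, a5, a6, a7, a8⟩ := half hM hE h hxy hrx hry ax hz hzx hzy
        (fun e => hyz (e ▸ ay)) hzm hlt hxz hyz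
      exact ⟨z, B2, hz, hzx, hzy, Or.inr hyz, hrz, a1, a2, ⟨a4, a5, a6, a7, a8⟩, a3⟩
  · by_cases hyz : G.Adj y z
    · right
      have h' : St G B1 y x r := ⟨h.hy, h.hx, h.hr, h.tie.symm, by rw [h.tie]; exact h.top⟩
      obtain ⟨B2, a1, a2, a3, a4, a5, a6, a7, a8⟩ := half hM hE h' hxy.symm hry hrx ay hz hzy hzx
        (fun e => hxz (e ▸ ax)) (fun v a b c => hzm v a c b) (by rw [h.tie]; exact hlt) hyz hxz
      exact ⟨z, B2, hz, hzx, hzy, Or.inl hxz, hrz, a1, a2, ⟨a5, a4, a6, a7.symm,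
        by rw [a7]; exact a8⟩, a3⟩
    · right
      have ex := (dgins hM (G := G) (v := x) hz).2 hxz
      have ey := (dgins hM (G := G) (v := y) hz).2 hyz
      have hi : B1 ⊆ insert z B1 := subset_insert _ _
      have hci : (insert z B1).card = B1.card + 1 := card_insert_of_notMem hz
      refine ⟨z, insert z B1, hz, hzx, hzy, Or.inl hxz, hrz, hi, mem_insert_self _ _,
        ⟨by simp [h.hx, hzx.symm], by simp [h.hy, hzy.symm], ?_, ?_, ?_⟩, by omega⟩
      · have : r ≠ z := fun e => hxz (e ▸ ax)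
        simp [h.hr, this]
      · rw [ex, ey]
        exact h.tie
      · intro v hv
        rw [ex]
        exact ((hM V G B1 _ hi v).1).trans (h.top v (fun h => hv (hi h)))

theorem t_L2 (hM : S_MON) (hE : S_EQ) (hC : S_CA) (hN : S_NA) (hL : S_L1) : S_L2 := by
  intro V _ G B W s hWB hWc hW
  classical
  have hne : (univ.filter fun v => v ∉ B).Nonempty := by
    obtain ⟨w, hw⟩ := card_pos.1 (show 0 < W.card by omega)
    exact ⟨w, by simp [hWB w hw]⟩
  obtain ⟨x, hx, hxm⟩ := exists_max_image _ (fun v => dg G B v) hne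
  simp only [mem_filter, mem_univ, true_and] at hx hxm
  by_cases hA : ∃ r1 r2, r1 ∉ B ∧ r2 ∉ B ∧ r1 ≠ r2 ∧ r1 ≠ x ∧ r2 ≠ x ∧ ¬ G.Adj x r1 ∧
      ¬ G.Adj x r2 ∧ dg G B x ≤ dg G B r1 + (2 * s + 6) ∧ dg G B x ≤ dg G B r2 + (2 * s + 6)
  · obtain ⟨r1, r2, a1, a2, a3, a4, a5, a6, a7, a8, a9⟩ := hA
    obtain ⟨B', b1, b2, b3⟩ := hL V G B x r1 r2 _ hx a1 a2 a3 a4 a5 a6 a7 hxm a8 a9
    exact ⟨B', b1, b2, by omega⟩
  -- a vertex of `W` different from `x`
  have hWx : ∃ w ∈ W, w ≠ x := by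
    by_contra hcon
    push Not at hcon
    have : W ⊆ {x} := fun w hw => by simp [hcon w hw]
    have := card_le_card this
    simp at this
    omega
  obtain ⟨w0, hw0, hw0x⟩ := hWx
  have hne2 : (univ.filter fun v => v ∉ B ∧ v ≠ x).Nonempty := ⟨w0, by simp [hWB w0 hw0, hw0x]⟩
  obtain ⟨y, hy, hym⟩ := exists_max_image _
    (fun v => 2 * dg G B v + (if G.Adj x v then 0 else 1)) hne2
  simp only [mem_filter, mem_univ, true_and] at hy hym
  obtain ⟨hyB, hyx⟩ := hy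
  have hysec : ∀ v, v ∉ B → v ≠ x → dg G B v ≤ dg G B y := by
    intro v a b
    have := hym v ⟨a, b⟩
    split_ifs at this <;> omega
  have hci : (insert x B).card = B.card + 1 := card_insert_of_notMem hx
  have hi : B ⊆ insert x B := subset_insert _ _
  have hytop : ∀ v, v ∉ insert x B → dg G (insert x B) v ≤ dg G (insert x B) y := by
    intro v hv
    have hvB : v ∉ B := fun h => hv (hi h)
    have hvx : v ≠ x := fun h => hv (h ▸ mem_insert_self _ _)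
    have h1 := hym v ⟨hvB, hvx⟩
    have h2 := dgins hM (G := G) (v := v) hx
    have h3 := dgins hM (G := G) (v := y) hx
    by_cases c1 : G.Adj x v
    · by_cases c2 : G.Adj x y
      · have e1 := h2.1 c1.symm
        have e2 := h3.1 c2.symm
        rw [if_pos c1, if_pos c2] at h1
        omega
      · have e1 := h2.1 c1.symm
        have e2 := h3.2 (fun h => c2 h.symm)
        rw [if_pos c1, if_neg c2] at h1
        omega
    · by_cases c2 : G.Adj x y
      · have e1 := h2.2 (fun h => c1 h.symm)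
        have e2 := h3.1 c2.symm
        rw [if_neg c1, if_pos c2] at h1
        omega
      · have e1 := h2.2 (fun h => c1 h.symm)
        have e2 := h3.2 (fun h => c2 h.symm)
        rw [if_neg c1, if_neg c2] at h1
        omega
  by_cases hB : ∃ r1 r2, r1 ∉ insert x B ∧ r2 ∉ insert x B ∧ r1 ≠ r2 ∧ r1 ≠ y ∧ r2 ≠ y ∧
      ¬ G.Adj y r1 ∧ ¬ G.Adj y r2 ∧
      dg G (insert x B) y ≤ dg G (insert x B) r1 + (2 * s + 7) ∧
      dg G (insert x B) y ≤ dg G (insert x B) r2 + (2 * s + 7)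
  · obtain ⟨r1, r2, a1, a2, a3, a4, a5, a6, a7, a8, a9⟩ := hB
    obtain ⟨B', b1, b2, b3⟩ := hL V G (insert x B) y r1 r2 _ (by simp [hyB, hyx]) a1 a2 a3 a4 a5
      a6 a7 hytop a8 a9
    exact ⟨B', hi.trans b1, b2, by omega⟩
  have uX : ∀ z z', z ∉ B → z' ∉ B → z ≠ z' → z ≠ x → z' ≠ x → ¬ G.Adj x z → ¬ G.Adj x z' →
      dg G B x ≤ dg G B z + (2 * s + 6) → dg G B x ≤ dg G B z' + (2 * s + 6) → False :=
    fun z z' a1 a2 a3 a4 a5 a6 a7 a8 a9 => hA ⟨z, z', a1, a2, a3, a4, a5, a6, a7, a8, a9⟩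
  have uY : ∀ z z', z ∉ B → z' ∉ B → z ≠ z' → z ≠ x → z' ≠ x → z ≠ y → z' ≠ y →
      ¬ G.Adj y z → ¬ G.Adj y z' →
      dg G B x ≤ dg G B z + (2 * s + 6) → dg G B x ≤ dg G B z' + (2 * s + 6) → False := by
    intro z z' a1 a2 a3 b1 b2 a4 a5 a6 a7 a8 a9
    have h1 := (hM V G B _ hi y).1
    have h2 := hxm y hyB
    have h3 := (hM V G B _ hi z).2.1
    have h4 := (hM V G B _ hi z').2.1
    exact hB ⟨z, z', by simp [a1, b1], by simp [a2, b2], a3, a4, a5, a6, a7, by omega, by omega⟩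
  -- the common neighbour
  obtain ⟨r, hrW, hrx, hry, ax, ay⟩ : ∃ r ∈ W, r ≠ x ∧ r ≠ y ∧ G.Adj x r ∧ G.Adj y r := by
    by_contra hcon
    push Not at hcon
    have hsub : W ⊆ ({x, y} : Finset V) ∪ (W.filter fun w => w ≠ x ∧ w ≠ y ∧ ¬ G.Adj x w) ∪
        (W.filter fun w => w ≠ x ∧ w ≠ y ∧ ¬ G.Adj y w) := by
      intro w hw
      simp only [mem_union, mem_insert, mem_singleton, mem_filter]
      by_cases c1 : w = x
      · tauto
      by_cases c2 : w = y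
      · tauto
      by_cases c3 : G.Adj x w
      · have := hcon w hw c1 c2 c3
        tauto
      · tauto
    have c1 : (W.filter fun w => w ≠ x ∧ w ≠ y ∧ ¬ G.Adj x w).card ≤ 1 := by
      rw [card_le_one]
      intro a ha b hb
      simp only [mem_filter] at ha hb
      by_contra hab
      have h1 := hW a ha.1 x hx
      have h2 := hW b hb.1 x hx
      exact uX a b (hWB a ha.1) (hWB b hb.1) hab ha.2.1 hb.2.1 ha.2.2.2 hb.2.2.2 (by omega)
        (by omega)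
    have c2 : (W.filter fun w => w ≠ x ∧ w ≠ y ∧ ¬ G.Adj y w).card ≤ 1 := by
      rw [card_le_one]
      intro a ha b hb
      simp only [mem_filter] at ha hb
      by_contra hab
      have h1 := hW a ha.1 x hx
      have h2 := hW b hb.1 x hx
      exact uY a b (hWB a ha.1) (hWB b hb.1) hab ha.2.1 hb.2.1 ha.2.2.1 hb.2.2.1 ha.2.2.2
        hb.2.2.2 (by omega) (by omega)
    have h1 := card_le_card hsub
    have h2 := card_union_le (({x, y} : Finset V) ∪ (W.filter fun w => w ≠ x ∧ w ≠ y ∧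
      ¬ G.Adj x w)) (W.filter fun w => w ≠ x ∧ w ≠ y ∧ ¬ G.Adj y w)
    have h3 := card_union_le ({x, y} : Finset V) (W.filter fun w => w ≠ x ∧ w ≠ y ∧
      ¬ G.Adj x w)
    have h4 : ({x, y} : Finset V).card ≤ 2 := card_le_two
    omega
  have hrB := hWB r hrW
  have hrs := hW r hrW x hx
  -- equalise x and y
  obtain ⟨B1, hB1, hc1, hd1, e1, e2⟩ := hE V G B x y hx hyB hyx.symm (hxm y hyB)
  have hq : dg G B x ≤ dg G B y + s := by
    have h1 := hysec r hrB hrx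
    omega
  have hS1 : St G B1 x y r := by
    refine ⟨fun h => (hd1 x h hx).2.2.2 rfl, fun h => (hd1 y h hyB).2.2.1 rfl,
      fun h => (hd1 r h hrB).2.1 ay, by rw [e1, e2], ?_⟩
    intro v hv
    by_cases hvx : v = x
    · rw [hvx]
    have h1 := (hM V G B B1 hB1 v).1
    have h2 := hysec v (fun h => hv (hB1 h)) hvx
    omega
  have gap : ∀ B', B ⊆ B' → dg G B' x ≤ dg G B' r + (s + (B'.card - B.card)) := by
    intro B' hB'
    have h1 := (hM V G B B' hB' x).1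
    have h2 := (hM V G B B' hB' r).2.1
    have h3 := card_le_card hB'
    omega
  have near : ∀ B' z, B ⊆ B' → dg G B' r ≤ dg G B' z → B'.card ≤ B.card + s + 4 →
      dg G B x ≤ dg G B z + (2 * s + 6) := by
    intro B' z hB' h0 h4
    have h1 := (hM V G B B' hB' z).1
    have h2 := (hM V G B B' hB' r).2.1
    omega
  have g1 := gap B1 hB1
  by_cases hxy : G.Adj x y
  swap
  · obtain ⟨B', a, b, c⟩ := hN V G B1 x y r _ hS1.hx hS1.hy hS1.hr hyx.symm hrx hry hS1.tie hxy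
      hS1.top g1
    exact ⟨B', hB1.trans a, b, by omega⟩
  rcases round hM hE hC hS1 hyx.symm hrx hry ax ay g1 with ⟨B', a, b, c⟩ |
    ⟨z1, B2, p1, p2, p3, p4, p5, p6, p7, hS2, p8⟩
  · exact ⟨B', hB1.trans a, b, by omega⟩
  have hB2 := hB1.trans p6
  rcases round hM hE hC hS2 hyx.symm hrx hry ax ay (gap B2 hB2) with ⟨B', a, b, c⟩ |
    ⟨z2, B3, q1, q2, q3, q4, q5, q6, q7, hS3, q8⟩
  · exact ⟨B', hB2.trans a, b, by omega⟩
  have hB3 := hB2.trans q6
  rcases round hM hE hC hS3 hyx.symm hrx hry ax ay (gap B3 hB3) with ⟨B', a, b, c⟩ |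
    ⟨z3, B4, t1, t2, t3, t4, t5, t6, t7, hS4, t8⟩
  · exact ⟨B', hB3.trans a, b, by omega⟩
  exfalso
  have n1 := near B1 z1 hB1 p5 (by omega)
  have n2 := near B2 z2 hB2 q5 (by omega)
  have n3 := near B3 z3 hB3 t5 (by omega)
  have o1 : z1 ∉ B := fun h => p1 (hB1 h)
  have o2 : z2 ∉ B := fun h => q1 (hB2 h)
  have o3 : z3 ∉ B := fun h => t1 (hB3 h)
  have d12 : z1 ≠ z2 := fun h => q1 (h ▸ p7)
  have d13 : z1 ≠ z3 := fun h => t1 (q6 (h ▸ p7))
  have d23 : z2 ≠ z3 := fun h => t1 (h ▸ q7)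
  rcases p4 with p4 | p4 <;> rcases q4 with q4 | q4 <;> rcases t4 with t4 | t4
  · exact uX z1 z2 o1 o2 d12 p2 q2 p4 q4 n1 n2
  · exact uX z1 z2 o1 o2 d12 p2 q2 p4 q4 n1 n2
  · exact uX z1 z3 o1 o3 d13 p2 t2 p4 t4 n1 n3
  · exact uY z2 z3 o2 o3 d23 q2 t2 q3 t3 q4 t4 n2 n3
  · exact uX z2 z3 o2 o3 d23 q2 t2 q4 t4 n2 n3
  · exact uY z1 z3 o1 o3 d13 p2 t2 p3 t3 p4 t4 n1 n3
  · exact uY z1 z2 o1 o2 d12 p2 q2 p3 q3 p4 q4 n1 n2
  · exact uY z1 z2 o1 o2 d12 p2 q2 p3 q3 p4 q4 n1 n2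

end Pool.Agent.R288.FT.PL2b
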