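import Pool.Agent.R288.FT.Alg

set_option autoImplicit false

namespace Pool.Agent.R288.FT.PLB

open Pool.Agent.NPC Pool.Agent.NPC.R671 Pool.Agent.R288.FT Finset

theorem getD_ofFn {α : Type} {n : ℕ} (f : Fin n → α) (d : α) (u : ℕ) :
    (List.ofFn f).getD u d = if h : u < n then f ⟨u, h⟩ else d := by
  rw [List.getD_eq_getElem?_getD, List.getElem?_ofFn]
  split_ifs <;> rfl

theorem len {n : ℕ} (G : SimpleGraph (Fin n)) : (adjMatrix G).length = n := by
  unfold adjMatrix
  rw [List.length_ofFn]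

theorem adL_eq {n : ℕ} (G : SimpleGraph (Fin n)) (u v : Fin n) :
    adL (adjMatrix G) u v = true ↔ G.Adj u v := by
  unfold adL adjMatrix
  rw [getD_ofFn, dif_pos u.2, getD_ofFn, dif_pos v.2]
  simp

theorem adL_lt {n : ℕ} (G : SimpleGraph (Fin n)) (u v : ℕ)
    (h : adL (adjMatrix G) u v = true) : u < n ∧ v < n := by
  unfold adL adjMatrix at h
  rw [getD_ofFn] at h
  by_cases hu : u < n
  · rw [dif_pos hu, getD_ofFn] at h
    by_cases hv : v < n
    · exact ⟨hu, hv⟩
    · rw [dif_neg hv] at h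
      exact absurd h (by simp)
  · rw [dif_neg hu] at h
    exact absurd h (by simp)

theorem cnt (n : ℕ) (p : ℕ → Bool) :
    ((List.range n).filter p).length = (univ.filter fun v : Fin n => p v = true).card := by
  rw [← List.toFinset_card_of_nodup (List.nodup_range.filter _),
    ← Finset.card_map Fin.valEmbedding]
  congr 1
  ext u
  simp only [List.mem_toFinset, List.mem_filter, List.mem_range, Finset.mem_map,
    Finset.mem_filter, Finset.mem_univ, true_and, Fin.valEmbedding_apply]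
  constructor
  · rintro ⟨h1, h2⟩
    exact ⟨⟨u, h1⟩, h2, rfl⟩
  · rintro ⟨v, h1, rfl⟩
    exact ⟨v.2, h1⟩

theorem mem_FF {n : ℕ} (B : List ℕ) (v : Fin n) : v ∈ FF n B ↔ (v : ℕ) ∈ B := by
  simp [FF]

theorem rem_eq {n : ℕ} (G : SimpleGraph (Fin n)) (B : List ℕ) :
    rem (adjMatrix G) B = (List.range n).filter fun v => decide (v ∉ B) := by
  unfold rem
  rw [len]

theorem mem_rem {n : ℕ} (G : SimpleGraph (Fin n)) (B : List ℕ) (v : ℕ) :
    v ∈ rem (adjMatrix G) B ↔ v < n ∧ v ∉ B := by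
  rw [rem_eq, List.mem_filter, List.mem_range]
  simp

theorem cnt_rem {n : ℕ} (G : SimpleGraph (Fin n)) (B : List ℕ) (p : ℕ → Bool) :
    ((rem (adjMatrix G) B).filter p).length =
      (univ.filter fun v : Fin n => v ∉ FF n B ∧ p v = true).card := by
  rw [rem_eq, List.filter_filter, cnt]
  congr 1
  ext v
  simp only [Finset.mem_filter, Finset.mem_univ, true_and, mem_FF, Bool.and_eq_true,
    decide_eq_true_eq]
  exact and_comm

theorem dgL_eq {n : ℕ} (G : SimpleGraph (Fin n)) (B : List ℕ) (v : Fin n) :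
    dgL (adjMatrix G) B v = dg G (FF n B) v := by
  unfold dgL dg
  rw [cnt_rem]
  congr 1
  ext u
  simp only [Finset.mem_filter, Finset.mem_univ, true_and, adL_eq]

theorem s3_iff {n : ℕ} (G : SimpleGraph (Fin n)) (B : List ℕ) :
    s3L (adjMatrix G) B = true ↔ S3 G (FF n B) := by
  unfold s3L
  rw [List.any_eq_true]
  constructor
  · rintro ⟨x, hx, h⟩
    rw [mem_rem] at hx
    rw [Bool.and_eq_true, List.all_eq_true, decide_eq_true_eq, cnt_rem] at h
    obtain ⟨h1, h2⟩ := h
    obtain ⟨a, ha, b, hb, c, hc, hab, hac, hbc⟩ := Finset.two_lt_card.1 h2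
    simp only [Finset.mem_filter, Finset.mem_univ, true_and, decide_eq_true_eq, dgL_eq] at ha hb hc
    refine ⟨a, b, c, ha.1, hb.1, hc.1, hab, hac, hbc, hb.2.trans ha.2.symm,
      hc.2.trans ha.2.symm, fun v hv => ?_⟩
    have h3 := h1 v ((mem_rem G B v).2 ⟨v.2, fun h => hv ((mem_FF B v).2 h)⟩)
    rw [decide_eq_true_eq, dgL_eq] at h3
    rw [ha.2]
    exact h3
  · rintro ⟨x, y, z, hx, hy, hz, hxy, hxz, hyz, e1, e2, hmax⟩
    refine ⟨x, (mem_rem G B x).2 ⟨x.2, fun h => hx ((mem_FF B x).2 h)⟩, ?_⟩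
    rw [Bool.and_eq_true, List.all_eq_true, decide_eq_true_eq, cnt_rem]
    constructor
    · intro v hv
      rw [mem_rem] at hv
      rw [decide_eq_true_eq]
      have h1 := hmax ⟨v, hv.1⟩ fun h => hv.2 ((mem_FF B ⟨v, hv.1⟩).1 h)
      have h2 := dgL_eq G B ⟨v, hv.1⟩
      rw [dgL_eq G B x]
      simp only at h2
      rw [h2]
      exact h1
    · refine Finset.two_lt_card.2 ⟨x, ?_, y, ?_, z, ?_, hxy, hxz, hyz⟩ <;>
        simp only [Finset.mem_filter, Finset.mem_univ, true_and, decide_eq_true_eq, dgL_eq]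
      · exact ⟨hx, trivial⟩
      · exact ⟨hy, e1⟩
      · exact ⟨hz, e2⟩

theorem rem_len {n : ℕ} (G : SimpleGraph (Fin n)) (B : List ℕ) :
    (rem (adjMatrix G) B).length + (FF n B).card = n := by
  have h1 : (rem (adjMatrix G) B).length = ((FF n B)ᶜ).card := by
    rw [rem_eq, cnt]
    congr 1
    ext v
    simp only [Finset.mem_filter, Finset.mem_univ, true_and, decide_eq_true_eq,
      Finset.mem_compl, mem_FF]
  rw [h1, Finset.card_compl, Fintype.card_fin]
  have : (FF n B).card ≤ n := by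
    have := Finset.card_le_univ (FF n B)
    rwa [Fintype.card_fin] at this
  omega

theorem FF_card_le {n : ℕ} (B : List ℕ) : (FF n B).card ≤ B.length := by
  rw [← Finset.card_map Fin.valEmbedding]
  refine le_trans (Finset.card_le_card ?_) B.toFinset_card_le
  intro u hu
  rw [Finset.mem_map] at hu
  obtain ⟨v, hv, rfl⟩ := hu
  rw [List.mem_toFinset]
  exact (mem_FF B v).1 hv

theorem preL_succ (A : List (List Bool)) (j : ℕ) : preL A (j + 1) = stepL A (preL A j) := by
  unfold preL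
  rw [List.range_succ, List.foldl_append]
  rfl

theorem preL_len (A : List (List Bool)) (j : ℕ) : (preL A j).length ≤ j := by
  induction j with
  | zero => simp [preL]
  | succ j ih =>
    rw [preL_succ, stepL, List.length_append, List.length_take]
    omega

theorem step {n : ℕ} (G : SimpleGraph (Fin n)) (B : List ℕ) (h : (FF n B).card < n) :
    ∃ u, u ∉ FF n B ∧ (∀ v, v ∉ FF n B → dg G (FF n B) v ≤ dg G (FF n B) u) ∧
      FF n (stepL (adjMatrix G) B) = insert u (FF n B) := by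
  have hne : ((FF n B)ᶜ).Nonempty := by
    rw [← Finset.card_pos, Finset.card_compl, Fintype.card_fin]
    omega
  obtain ⟨u0, hu0, hmax0⟩ := Finset.exists_max_image _ (fun v => dg G (FF n B) v) hne
  set L := (rem (adjMatrix G) B).filter fun u =>
    (rem (adjMatrix G) B).all (fun v => decide (dgL (adjMatrix G) B v ≤ dgL (adjMatrix G) B u))
    with hL
  have hmem : ∀ u : ℕ, u ∈ L ↔ (u < n ∧ u ∉ B) ∧ ∀ v, v < n ∧ v ∉ B →
      dgL (adjMatrix G) B v ≤ dgL (adjMatrix G) B u := by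
    intro u
    rw [hL, List.mem_filter, mem_rem, List.all_eq_true]
    simp only [mem_rem, decide_eq_true_eq]
  have hu0L : (u0 : ℕ) ∈ L := by
    rw [hmem]
    refine ⟨⟨u0.2, fun h => (Finset.mem_compl.1 hu0) ((mem_FF B u0).2 h)⟩, fun v hv => ?_⟩
    have h1 := hmax0 ⟨v, hv.1⟩ (Finset.mem_compl.2 fun h => hv.2 ((mem_FF B ⟨v, hv.1⟩).1 h))
    have h2 := dgL_eq G B ⟨v, hv.1⟩
    simp only at h2 h1
    rw [h2, dgL_eq]
    exact h1
  obtain ⟨w, L', hwL⟩ : ∃ w L', L = w :: L' := by
    cases hcase : L with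
    | nil => rw [hcase] at hu0L; simp at hu0L
    | cons w L' => exact ⟨w, L', rfl⟩
  have hw := (hmem w).1 (by rw [hwL]; simp)
  have hstep : stepL (adjMatrix G) B = w :: B := by
    have : stepL (adjMatrix G) B = L.take 1 ++ B := rfl
    rw [this, hwL]
    rfl
  refine ⟨⟨w, hw.1.1⟩, fun h => hw.1.2 ((mem_FF B ⟨w, hw.1.1⟩).1 h), fun v hv => ?_, ?_⟩
  · have h1 := hw.2 v ⟨v.2, fun h => hv ((mem_FF B v).2 h)⟩
    have h2 := dgL_eq G B ⟨w, hw.1.1⟩
    simp only at h2
    rw [dgL_eq, h2] at h1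
    exact h1
  · rw [hstep]
    ext v
    rw [mem_FF, Finset.mem_insert, mem_FF, List.mem_cons, Fin.ext_iff]

theorem t_LB : S_LB := by
  intro n G
  refine ⟨len G, adL_eq G, adL_lt G, fun B v => dgL_eq G B v, fun B => s3_iff G B, fun B => ?_,
    ?_, ?_⟩
  · have := rem_len G B
    omega
  · simp [preL, FF]
  · intro j hj
    rw [Fintype.card_fin] at hj
    have h1 : (FF n (preL (adjMatrix G) j)).card < n :=
      lt_of_le_of_lt ((FF_card_le _).trans (preL_len _ j)) hj
    obtain ⟨u, a, b, c⟩ := step G (preL (adjMatrix G) j) h1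
    refine ⟨u, a, b, ?_⟩
    show FF n (preL (adjMatrix G) (j + 1)) = _
    rw [preL_succ, c]

end Pool.Agent.R288.FT.PLB
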