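import Pool.Agent.R288.FT.Alg

set_option autoImplicit false

open Pool.Agent.NPC Pool.Agent.NPC.R671

namespace Pool.Agent.R288.FT.PLCb

theorem mem_lists (l : List ℕ) : ∀ (k : ℕ) (m : List ℕ),
    m ∈ lists l k ↔ m.length = k ∧ ∀ a ∈ m, a ∈ l
  | 0, m => by
    simp only [lists, List.mem_singleton, List.length_eq_zero_iff]
    constructor
    · rintro rfl
      simp
    · rintro ⟨h, -⟩
      exact h
  | k + 1, m => by
    simp only [lists, List.mem_flatMap, List.mem_map]
    constructor
    · rintro ⟨a, ha, b, hb, rfl⟩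
      have := (mem_lists l k b).1 hb
      refine ⟨by simp [this.1], ?_⟩
      intro c hc
      rcases List.mem_cons.1 hc with rfl | h
      · exact ha
      · exact this.2 c h
    · rintro ⟨h1, h2⟩
      cases m with
      | nil => simp at h1
      | cons a b =>
        refine ⟨a, h2 a (by simp), b, (mem_lists l k b).2 ⟨by simpa using h1, ?_⟩, rfl⟩
        intro c hc
        exact h2 c (by simp [hc])

theorem mem_bools : ∀ (k : ℕ) (m : List Bool), m ∈ bools k ↔ m.length = k
  | 0, m => by
    simp only [bools, List.mem_singleton, List.length_eq_zero_iff]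
  | k + 1, m => by
    simp only [bools, List.mem_append, List.mem_map]
    constructor
    · rintro (⟨b, hb, rfl⟩ | ⟨b, hb, rfl⟩) <;> simp [(mem_bools k b).1 hb]
    · intro h
      cases m with
      | nil => simp at h
      | cons a b =>
        have hb := (mem_bools k b).2 (by simpa using h)
        cases a
        · exact Or.inr ⟨b, hb, rfl⟩
        · exact Or.inl ⟨b, hb, rfl⟩

theorem mem_FF {n : ℕ} {B : List ℕ} {v : Fin n} : v ∈ FF n B ↔ (v : ℕ) ∈ B := by
  simp [FF]

theorem card_FF {n : ℕ} {l : List ℕ} (h1 : l.Nodup) (h2 : ∀ a ∈ l, a < n) :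
    (FF n l).card = l.length := by
  rw [← List.toFinset_card_of_nodup h1, ← Finset.card_map ⟨Fin.val, Fin.val_injective⟩]
  congr 1
  ext a
  simp only [Finset.mem_map, Function.Embedding.coeFn_mk, List.mem_toFinset, mem_FF]
  constructor
  · rintro ⟨v, hv, rfl⟩
    exact hv
  · intro ha
    exact ⟨⟨a, h2 a ha⟩, ha, rfl⟩

/-- a list of length `c` which represents the set `R` -/
theorem exists_list {n : ℕ} (R : Finset (Fin n)) (c : ℕ) (h : R.card ≤ c) :
    ∃ R' ∈ lists (List.range (n + 1)) c, ∀ v : Fin n, (v : ℕ) ∈ R' ↔ v ∈ R := by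
  refine ⟨R.toList.map Fin.val ++ List.replicate (c - R.card) n, ?_, ?_⟩
  · rw [mem_lists]
    constructor
    · simp only [List.length_append, List.length_map, Finset.length_toList,
        List.length_replicate]
      omega
    · intro a ha
      rw [List.mem_range]
      rcases List.mem_append.1 ha with h | h
      · obtain ⟨v, -, rfl⟩ := List.mem_map.1 h
        omega
      · have := List.eq_of_mem_replicate h
        omega
  · intro v
    rw [List.mem_append, List.mem_map]
    constructor
    · rintro (⟨u, hu, he⟩ | h)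
      · rw [← Fin.val_injective he]
        exact Finset.mem_toList.1 hu
      · have := List.eq_of_mem_replicate h
        have := v.2
        omega
    · intro hv
      exact Or.inl ⟨v, Finset.mem_toList.2 hv, rfl⟩

open Classical in
theorem mem_cls {V : Type} [Fintype V] {G : SimpleGraph V} {B R τ : Finset V} {v : V} :
    v ∈ cls G B R τ ↔ v ∉ B ∧ v ∉ R ∧ R.filter (fun u => G.Adj v u) = τ := by
  unfold cls
  simp only [Finset.mem_filter, Finset.mem_univ, true_and]

open Classical in
theorem t_LC (h : S_LB) : S_LC := by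
  intro n G c r P R S t hR hS ht htn
  obtain ⟨hlen, had, hlt, -, -, -, -⟩ := h n G
  obtain ⟨R', hR', hRm⟩ := exists_list R c hR
  obtain ⟨S', hS', hSm⟩ := exists_list S r hS
  have hR'len := ((mem_lists _ _ _).1 hR').1
  set A := adjMatrix G with hA
  -- patterns
  let patOf : Finset (Fin n) → List Bool := fun τ =>
    R'.map fun u => decide (∃ hu : u < n, (⟨u, hu⟩ : Fin n) ∈ τ)
  have hpat : ∀ v : Fin n, R'.map (fun u => adL A v u) = patOf (R.filter fun u => G.Adj v u) := by
    intro v
    refine List.map_congr_left fun u hu => ?_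
    rw [Bool.eq_iff_iff, decide_eq_true_eq]
    constructor
    · intro h1
      have h2 := (hlt _ _ h1).2
      refine ⟨h2, ?_⟩
      rw [Finset.mem_filter]
      exact ⟨(hRm ⟨u, h2⟩).1 hu, (had v ⟨u, h2⟩).1 h1⟩
    · rintro ⟨h2, h3⟩
      rw [Finset.mem_filter] at h3
      exact (had v ⟨u, h2⟩).2 h3.2
  have hinj : ∀ τ ⊆ R, ∀ τ' ⊆ R, patOf τ = patOf τ' → τ = τ' := by
    intro τ hτ τ' hτ' he
    have h1 := List.map_inj_left.1 he
    ext u
    constructor
    · intro hu
      have := h1 u ((hRm u).2 (hτ hu))
      rw [decide_eq_decide] at this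
      obtain ⟨_, h3⟩ := this.1 ⟨u.2, hu⟩
      exact h3
    · intro hu
      have := h1 u ((hRm u).2 (hτ' hu))
      rw [decide_eq_decide] at this
      obtain ⟨_, h3⟩ := this.2 ⟨u.2, hu⟩
      exact h3
  let T : List Bool → ℕ := fun p =>
    if hp : ∃ τ, τ ⊆ R ∧ patOf τ = p then t hp.choose else 0
  have hT : ∀ τ ⊆ R, T (patOf τ) = t τ := by
    intro τ hτ
    have hp : ∃ τ', τ' ⊆ R ∧ patOf τ' = patOf τ := ⟨τ, hτ, rfl⟩
    have h1 : T (patOf τ) = t hp.choose := dif_pos hp
    rw [h1]
    congr 1
    exact hinj _ hp.choose_spec.1 _ hτ hp.choose_spec.2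
  have hTn : ∀ p, T p ≤ n := by
    intro p
    by_cases hp : ∃ τ, τ ⊆ R ∧ patOf τ = p
    · have h1 : T p = t hp.choose := dif_pos hp
      rw [h1]
      exact htn _
    · have h1 : T p = 0 := dif_neg hp
      omega
  let blk : List Bool → ℕ → List ℕ := fun p k =>
    ((rem A (P ++ R')).filter fun v => decide (R'.map (fun u => adL A v u) = p)).take k
  let C : Finset (Fin n) → Finset (Fin n) := fun τ => FF n (blk (patOf τ) (t τ))
  have hrem : ∀ v : ℕ, v ∈ rem A (P ++ R') ↔ v < n ∧ v ∉ P ∧ v ∉ R' := by
    intro v
    unfold rem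
    rw [List.mem_filter, List.mem_range, hlen, decide_eq_true_eq, List.mem_append]
    tauto
  have hremnd : (rem A (P ++ R')).Nodup := List.nodup_range.filter _
  have hfull : ∀ τ ⊆ R, FF n ((rem A (P ++ R')).filter fun v =>
      decide (R'.map (fun u => adL A v u) = patOf τ)) = cls G (FF n P) R τ := by
    intro τ hτ
    ext v
    rw [mem_FF, List.mem_filter, hrem, decide_eq_true_eq, hpat v, mem_cls, mem_FF]
    constructor
    · rintro ⟨⟨-, h1, h2⟩, h3⟩
      exact ⟨h1, fun h => h2 ((hRm v).2 h),
        hinj _ (Finset.filter_subset _ _) _ hτ h3⟩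
    · rintro ⟨h1, h2, h3⟩
      refine ⟨⟨v.2, h1, fun h => h2 ((hRm v).1 h)⟩, ?_⟩
      rw [← h3]
  refine ⟨R', hR', S', hS', (bools c).map T, ?_, C, ?_, ?_⟩
  · rw [mem_lists]
    refine ⟨by simp, ?_⟩
    intro a ha
    obtain ⟨p, -, rfl⟩ := List.mem_map.1 ha
    rw [List.mem_range]
    have := hTn p
    omega
  · intro τ hτ
    have h1 := hfull τ hτ
    constructor
    · rw [← h1]
      intro v hv
      rw [mem_FF] at hv ⊢
      exact List.mem_of_mem_take hv
    · have h2 : (C τ).card = (blk (patOf τ) (t τ)).length := by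
        apply card_FF
        · exact ((hremnd.filter _).sublist (List.take_sublist _ _))
        · intro a ha
          have := List.mem_of_mem_take ha
          exact ((hrem a).1 (List.mem_filter.1 this).1).1
      have h3 : ((rem A (P ++ R')).filter fun v =>
          decide (R'.map (fun u => adL A v u) = patOf τ)).length = (cls G (FF n P) R τ).card := by
        rw [← h1]
        symm
        apply card_FF
        · exact hremnd.filter _
        · intro a ha
          exact ((hrem a).1 (List.mem_filter.1 ha).1).1
      rw [h2]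
      have h4 : (blk (patOf τ) (t τ)).length = min (t τ) (((rem A (P ++ R')).filter fun v =>
          decide (R'.map (fun u => adL A v u) = patOf τ)).length) := List.length_take
      rw [h4, h3]
      exact min_eq_left (ht τ hτ)
  · have hzip : (bools c).zip ((bools c).map T) = (bools c).map fun p => (p, T p) := by
      rw [List.zip_map_right]
      have : (bools c).zip (bools c) = (bools c).map fun p => (p, p) := by
        generalize bools c = l
        induction l with
        | nil => rfl
        | cons a l ih => simp [ih]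
      rw [this, List.map_map]
      rfl
    have hcand : cand A (bools c) P R' S' ((bools c).map T) =
        P ++ S' ++ (bools c).flatMap fun p => blk p (T p) := by
      unfold cand
      rw [hzip, List.flatMap_map]
    rw [hcand]
    ext v
    rw [mem_FF, List.mem_append, List.mem_append, List.mem_flatMap, Finset.mem_union,
      Finset.mem_union, mem_FF, Finset.mem_biUnion, hSm v]
    refine or_congr Iff.rfl ?_
    constructor
    · rintro ⟨p, -, hv⟩
      have h1 := List.mem_filter.1 (List.mem_of_mem_take hv)
      rw [decide_eq_true_eq, hpat v] at h1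
      refine ⟨R.filter fun u => G.Adj v u, Finset.mem_powerset.2 (Finset.filter_subset _ _), ?_⟩
      have h2 : T p = t (R.filter fun u => G.Adj v u) := by
        rw [← h1.2]
        exact hT _ (Finset.filter_subset _ _)
      show v ∈ FF n (blk (patOf _) (t _))
      rw [mem_FF, ← h2, h1.2]
      exact hv
    · rintro ⟨τ, hτ, hv⟩
      refine ⟨patOf τ, (mem_bools _ _).2 (by simp [patOf, hR'len]), ?_⟩
      rw [hT τ (Finset.mem_powerset.1 hτ)]
      exact mem_FF.1 hv

end Pool.Agent.R288.FT.PLCb
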