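import Pool.Agent.R288.FT.Gr

/-!
# FT-MON: degrees under deletion of further vertices
-/

set_option autoImplicit false

open Finset

namespace Pool.Agent.R288.FT.PMON

open Pool.Agent.R288.FT

theorem t_MON : S_MON := by
  classical
  intro V _ G B B' hB v
  set A : Finset V := univ.filter fun u => u ∉ B ∧ G.Adj v u with hA
  set A' : Finset V := univ.filter fun u => u ∉ B' ∧ G.Adj v u with hA'
  have e1 : dg G B v = A.card := by
    unfold dg; rw [hA]
  have e2 : dg G B' v = A'.card := by
    unfold dg; rw [hA']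
  rw [e1, e2]
  have memA : ∀ u, u ∈ A ↔ u ∉ B ∧ G.Adj v u := fun u => by simp [hA]
  have memA' : ∀ u, u ∈ A' ↔ u ∉ B' ∧ G.Adj v u := fun u => by simp [hA']
  have d1 : Disjoint A B := by
    rw [Finset.disjoint_left]; intro u hu; exact ((memA u).1 hu).1
  have d2 : Disjoint A' B' := by
    rw [Finset.disjoint_left]; intro u hu; exact ((memA' u).1 hu).1
  have s1 : A' ⊆ A := by
    intro u hu
    rw [memA'] at hu; rw [memA]
    exact ⟨fun h => hu.1 (hB h), hu.2⟩
  have s2 : A ∪ B ⊆ A' ∪ B' := by
    intro u hu
    rw [Finset.mem_union] at hu ⊢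
    by_cases h : u ∈ B'
    · exact Or.inr h
    · rcases hu with hu | hu
      · left; rw [memA'] ; exact ⟨h, ((memA u).1 hu).2⟩
      · exact absurd (hB hu) h
  refine ⟨Finset.card_le_card s1, ?_, ?_, ?_⟩
  · rw [← Finset.card_union_of_disjoint d1, ← Finset.card_union_of_disjoint d2]
    exact Finset.card_le_card s2
  · intro h
    have s3 : A' ∪ B' ⊆ A ∪ B := by
      intro u hu
      rw [Finset.mem_union] at hu ⊢
      rcases hu with hu | hu
      · exact Or.inl (s1 hu)
      · by_cases h2 : u ∈ B
        · exact Or.inr h2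
        · left; rw [memA]; exact ⟨h2, h u hu h2⟩
    rw [← Finset.card_union_of_disjoint d1, ← Finset.card_union_of_disjoint d2]
    exact le_antisymm (Finset.card_le_card s2) (Finset.card_le_card s3)
  · intro h
    refine le_antisymm (Finset.card_le_card s1) (Finset.card_le_card ?_)
    intro u hu
    rw [memA] at hu; rw [memA']
    exact ⟨fun h2 => h u h2 hu.1 hu.2, hu.2⟩

end Pool.Agent.R288.FT.PMON
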