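import Pool.Agent.R288.FT.Gr

/-!
# MP_3ff6cb_lc, piece NA: a nonadjacent pair of the same maximum degree
-/

set_option autoImplicit false

open Finset

namespace Pool.Agent.R288.FT.PNA

theorem t_NA (h : S_CA) : S_NA := by
  classical
  intro V _ G B x y r L hx hy hr hxy hrx hry hd hadj hmax hL
  obtain ⟨z, hz, hzmax⟩ := (univ.filter fun v => v ∉ B ∧ v ≠ x ∧ v ≠ y).exists_max_image (dg G B)
    ⟨r, by simp [hr, hrx, hry]⟩
  simp only [mem_filter, mem_univ, true_and] at hz hzmax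
  obtain ⟨hzB, hzx, hzy⟩ := hz
  have hrz : dg G B r ≤ dg G B z := hzmax r ⟨hr, hrx, hry⟩
  obtain ⟨B', hBB', hS, hc⟩ := h V G B x y z hx hy hzB hxy hzx.symm hzy.symm hd (hmax z hzB)
    (fun v hv hvx hvy => hzmax v ⟨hv, hvx, hvy⟩) (Or.inl hadj) (Or.inl hadj)
  exact ⟨B', hBB', hS, by omega⟩

end Pool.Agent.R288.FT.PNA
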