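import Pool.Agent.R288.FT.Alg

set_option autoImplicit false

open Pool.Agent.NPC

namespace Pool.Agent.R288.FT.PPO2

variable {α : Type} [TEnc α]

theorem p_adL {A : α → List (List Bool)} {u v : α → ℕ} (hA : NPC.Poly A) (hu : NPC.Poly u)
    (hv : NPC.Poly v) : NPC.Poly (fun a => adL (A a) (u a) (v a)) :=
  NPC.Poly.getD (NPC.Poly.getD hA hu (NPC.Poly.const [])) hv (NPC.Poly.const false)

theorem p_rem {A : α → List (List Bool)} {B : α → List ℕ} (hA : NPC.Poly A) (hB : NPC.Poly B) :
    NPC.Poly (fun a => rem (A a) (B a)) :=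
  NPC.Poly.filter (p := fun a v => decide (v ∉ B a)) (NPC.Poly.range_length hA)
    (NPC.Poly.decide_not (NPC.Poly.decide_mem (NPC.Poly.snd NPC.Poly.id)
      (hB.comp (NPC.Poly.fst NPC.Poly.id))))

theorem p_dgL {A : α → List (List Bool)} {B : α → List ℕ} {v : α → ℕ} (hA : NPC.Poly A)
    (hB : NPC.Poly B) (hv : NPC.Poly v) : NPC.Poly (fun a => dgL (A a) (B a) (v a)) :=
  NPC.Poly.length (NPC.Poly.filter (p := fun a u => adL (A a) (v a) u) (p_rem hA hB)
    (p_adL (hA.comp (NPC.Poly.fst NPC.Poly.id)) (hv.comp (NPC.Poly.fst NPC.Poly.id))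
      (NPC.Poly.snd NPC.Poly.id)))

theorem p_top {A : α → List (List Bool)} {B : α → List ℕ} {x : α → ℕ} (hA : NPC.Poly A)
    (hB : NPC.Poly B) (hx : NPC.Poly x) :
    NPC.Poly (fun a => (rem (A a) (B a)).all
      fun v => decide (dgL (A a) (B a) v ≤ dgL (A a) (B a) (x a))) := by
  have hA1 := hA.comp (NPC.Poly.fst (γ := ℕ) (NPC.Poly.id (α := α × ℕ)))
  have hB1 := hB.comp (NPC.Poly.fst (γ := ℕ) (NPC.Poly.id (α := α × ℕ)))
  have hx1 := hx.comp (NPC.Poly.fst (γ := ℕ) (NPC.Poly.id (α := α × ℕ)))
  exact NPC.Poly.all (p := fun a v => decide (dgL (A a) (B a) v ≤ dgL (A a) (B a) (x a)))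
    (p_rem hA hB) (NPC.Poly.decide_le (p_dgL hA1 hB1 (NPC.Poly.snd NPC.Poly.id))
      (p_dgL hA1 hB1 hx1))

theorem p_s3L {A : α → List (List Bool)} {B : α → List ℕ} (hA : NPC.Poly A)
    (hB : NPC.Poly B) : NPC.Poly (fun a => s3L (A a) (B a)) := by
  have hA1 := hA.comp (NPC.Poly.fst (γ := ℕ) (NPC.Poly.id (α := α × ℕ)))
  have hB1 := hB.comp (NPC.Poly.fst (γ := ℕ) (NPC.Poly.id (α := α × ℕ)))
  have hA2 := hA1.comp (NPC.Poly.fst (γ := ℕ) (NPC.Poly.id (α := (α × ℕ) × ℕ)))
  have hB2 := hB1.comp (NPC.Poly.fst (γ := ℕ) (NPC.Poly.id (α := (α × ℕ) × ℕ)))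
  refine NPC.Poly.any (p := fun a x => (rem (A a) (B a)).all
      (fun v => decide (dgL (A a) (B a) v ≤ dgL (A a) (B a) x)) &&
    decide (3 ≤ ((rem (A a) (B a)).filter fun v =>
      decide (dgL (A a) (B a) v = dgL (A a) (B a) x)).length)) (p_rem hA hB) ?_
  refine NPC.Poly.and (p_top hA1 hB1 (NPC.Poly.snd NPC.Poly.id)) ?_
  refine NPC.Poly.decide_le (NPC.Poly.const 3) (NPC.Poly.length ?_)
  exact NPC.Poly.filter (p := fun (q : α × ℕ) v =>
      decide (dgL (A q.1) (B q.1) v = dgL (A q.1) (B q.1) q.2)) (p_rem hA1 hB1)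
    (NPC.Poly.decide_eq (p_dgL hA2 hB2 (NPC.Poly.snd NPC.Poly.id))
      (p_dgL hA2 hB2 (NPC.Poly.snd (NPC.Poly.fst NPC.Poly.id))))

theorem take_eq {β : Type} (l : List β) : ∀ (k n : ℕ),
    ((l.zipIdx k).filter (fun p => decide (p.2 < n + k))).map Prod.fst = l.take n := by
  induction l with
  | nil => intro k n; simp
  | cons a l ih =>
    intro k n
    cases n with
    | zero =>
      have : ((a :: l).zipIdx k).filter (fun p => decide (p.2 < 0 + k)) = [] := by
        rw [List.filter_eq_nil_iff]
        intro p hp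
        have := List.le_snd_of_mem_zipIdx hp
        simp
        omega
      rw [this]
      simp
    | succ n =>
      have h1 := ih (k + 1) n
      rw [List.zipIdx_cons, List.filter_cons_of_pos (by simp), List.map_cons, List.take_succ_cons,
        ← h1]
      congr 3
      funext p
      congr 1
      apply propext
      omega

theorem p_take {β : Type} [TEnc β] {l : α → List β} {n : α → ℕ} (hl : NPC.Poly l)
    (hn : NPC.Poly n) : NPC.Poly (fun a => (l a).take (n a)) := by
  have h : NPC.Poly (fun a => (((l a).zipIdx).filter (fun p => decide (p.2 < n a))).map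
      Prod.fst) :=
    NPC.Poly.map (F := fun _ (p : β × ℕ) => p.1)
      (NPC.Poly.filter (p := fun a (p : β × ℕ) => decide (p.2 < n a)) (NPC.Poly.zipIdx hl)
        (NPC.Poly.decide_lt (NPC.Poly.snd (NPC.Poly.snd NPC.Poly.id))
          (hn.comp (NPC.Poly.fst NPC.Poly.id))))
      (NPC.Poly.fst (NPC.Poly.snd NPC.Poly.id))
  exact h.congr fun a => by simpa using take_eq (l a) 0 (n a)

theorem p_stepL {A : α → List (List Bool)} {B : α → List ℕ} (hA : NPC.Poly A)
    (hB : NPC.Poly B) : NPC.Poly (fun a => stepL (A a) (B a)) := by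
  have hA1 := hA.comp (NPC.Poly.fst (γ := ℕ) (NPC.Poly.id (α := α × ℕ)))
  have hB1 := hB.comp (NPC.Poly.fst (γ := ℕ) (NPC.Poly.id (α := α × ℕ)))
  refine NPC.Poly.append (p_take (NPC.Poly.filter (p := fun a u => (rem (A a) (B a)).all
      fun v => decide (dgL (A a) (B a) v ≤ dgL (A a) (B a) u)) (p_rem hA hB)
    (p_top hA1 hB1 (NPC.Poly.snd NPC.Poly.id))) (NPC.Poly.const 1)) hB

theorem pre_bd (A : List (List Bool)) : ∀ (l : List ℕ) (B : List ℕ),
    (∀ v ∈ B, v < A.length) →
    (l.foldl (fun B _ => stepL A B) B).length ≤ B.length + l.length ∧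
      ∀ v ∈ l.foldl (fun B _ => stepL A B) B, v < A.length
  | [], B, hB => ⟨by simp, hB⟩
  | c :: l, B, hB => by
    have h1 : ∀ v ∈ stepL A B, v < A.length := by
      intro v hv
      unfold stepL at hv
      rcases List.mem_append.1 hv with h | h
      · have h2 := (List.mem_filter.1 (List.mem_of_mem_take h)).1
        unfold rem at h2
        exact List.mem_range.1 (List.mem_filter.1 h2).1
      · exact hB v h
    have h2 : (stepL A B).length ≤ B.length + 1 := by
      unfold stepL
      rw [List.length_append, List.length_take]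
      omega
    obtain ⟨h3, h4⟩ := pre_bd A l (stepL A B) h1
    refine ⟨?_, h4⟩
    rw [List.foldl_cons, List.length_cons]
    omega

theorem p_preL {A : α → List (List Bool)} {j : α → ℕ} (hA : NPC.Poly A) (hj : NPC.Poly j) :
    NPC.Poly (fun a => preL (A a) (min (j a) ((A a).length + 1))) := by
  have hm : NPC.Poly (fun a => min (j a) ((A a).length + 1)) :=
    NPC.Poly.min hj (NPC.Poly.succ (NPC.Poly.length hA))
  have hu : UPoly (fun a => min (j a) ((A a).length + 1)) :=
    UPoly.of_le hm (UPoly.add (UPoly.length hA) (UPoly.const 1)) (fun a => min_le_right _ _)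
  obtain ⟨r, hr⟩ := hA.sz_le
  refine NPC.Poly.foldl (l := fun a => List.range (min (j a) ((A a).length + 1)))
    (s := fun _ => ([] : List ℕ)) (F := fun a B (_ : ℕ) => stepL (A a) B) (UPoly.range hu)
    (NPC.Poly.const []) (p_stepL (hA.comp (NPC.Poly.fst NPC.Poly.id))
      (NPC.Poly.fst (NPC.Poly.snd NPC.Poly.id))) ((r + 1) * (4 * r + 2) + 1) ?_
  intro a k _
  obtain ⟨h1, h2⟩ := pre_bd (A a) ((List.range (min (j a) ((A a).length + 1))).take k) []
    (by simp)
  have hlen := length_lt_sz (A a)
  have hra := hr a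
  have h3 := sz_le_length_mul (((List.range (min (j a) ((A a).length + 1))).take k).foldl
    (fun B _ => stepL (A a) B) []) (4 * r.eval (sz a) + 1) (by
      intro v hv
      have h4 := h2 v hv
      have h5 := sz_nat_le v
      have h6 := NPC.Poly.size_le_self v
      omega)
  have h7 : (((List.range (min (j a) ((A a).length + 1))).take k).foldl
      (fun B _ => stepL (A a) B) []).length ≤ r.eval (sz a) + 1 := by
    rw [List.length_take, List.length_range] at h1
    simp only [List.length_nil] at h1
    omega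
  simp only [Polynomial.eval_add, Polynomial.eval_mul, Polynomial.eval_one,
    Polynomial.eval_ofNat]
  refine h3.trans ?_
  have := Nat.mul_le_mul_right (4 * r.eval (sz a) + 2) h7
  exact Nat.add_le_add_right this 1

theorem p_lists {l : α → List ℕ} (hl : NPC.Poly l) : ∀ k : ℕ,
    NPC.Poly (fun a => lists (l a) k)
  | 0 => NPC.Poly.const _
  | k + 1 => by
    have ih := p_lists hl k
    refine NPC.Poly.flatMap (F := fun a x => (lists (l a) k).map fun b => x :: b) hl ?_
    exact NPC.Poly.map (F := fun (q : α × ℕ) b => q.2 :: b)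
      (ih.comp (NPC.Poly.fst (γ := ℕ) (NPC.Poly.id (α := α × ℕ))))
      (NPC.Poly.cons (NPC.Poly.snd (NPC.Poly.fst NPC.Poly.id)) (NPC.Poly.snd NPC.Poly.id))

theorem p_cand {A : α → List (List Bool)} {P R S t : α → List ℕ} (pa : List (List Bool))
    (hA : NPC.Poly A) (hP : NPC.Poly P) (hR : NPC.Poly R) (hS : NPC.Poly S) (ht : NPC.Poly t) :
    NPC.Poly (fun a => cand (A a) pa (P a) (R a) (S a) (t a)) := by
  refine NPC.Poly.append (NPC.Poly.append hP hS) ?_
  refine NPC.Poly.flatMap (F := fun a (q : List Bool × ℕ) =>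
    ((rem (A a) (P a ++ R a)).filter fun v => decide ((R a).map (fun u => adL (A a) v u) =
      q.1)).take q.2) (NPC.Poly.zip (NPC.Poly.const pa) ht) ?_
  have f1 : NPC.Poly (fun p : α × List Bool × ℕ => p.1) := NPC.Poly.fst NPC.Poly.id
  refine p_take ?_ (NPC.Poly.snd (NPC.Poly.snd NPC.Poly.id))
  refine NPC.Poly.filter (p := fun (x : α × List Bool × ℕ) v =>
      decide ((R x.1).map (fun u => adL (A x.1) v u) = x.2.1))
    (p_rem (hA.comp f1) (NPC.Poly.append (hP.comp f1) (hR.comp f1))) ?_
  have f2 : NPC.Poly (fun p : (α × List Bool × ℕ) × ℕ => p.1.1) :=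
    NPC.Poly.fst (NPC.Poly.fst NPC.Poly.id)
  refine NPC.Poly.decide_eq ?_ (NPC.Poly.fst (NPC.Poly.snd (NPC.Poly.fst NPC.Poly.id)))
  refine NPC.Poly.map (F := fun (x : (α × List Bool × ℕ) × ℕ) u => adL (A x.1.1) x.2 u)
    (hR.comp f2) ?_
  exact p_adL (hA.comp (f2.comp (NPC.Poly.fst NPC.Poly.id)))
    (NPC.Poly.snd (NPC.Poly.fst NPC.Poly.id)) (NPC.Poly.snd NPC.Poly.id)

theorem p_val {A : α → List (List Bool)} {B : α → List ℕ} (hA : NPC.Poly A)
    (hB : NPC.Poly B) : NPC.Poly (fun a => val (A a) (B a)) := by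
  refine (NPC.Poly.cond (p_s3L hA hB)
    (NPC.Poly.sub (NPC.Poly.length hA) (NPC.Poly.length (p_rem hA hB)))
    (NPC.Poly.sub (NPC.Poly.length hA) (NPC.Poly.const 2))).congr fun a => ?_
  unfold val
  cases s3L (A a) (B a) <;> rfl

theorem foldl_min_le (m : ℕ) : ∀ (l : List ℕ) (s : ℕ), s ≤ m → l.foldl min s ≤ m
  | [], s, h => h
  | a :: l, s, h => by
    rw [List.foldl_cons]
    exact foldl_min_le m l _ ((min_le_left _ _).trans h)

theorem t_PO : S_PO := by
  intro c r
  have hid : NPC.Poly (fun A : List (List Bool) => A) := NPC.Poly.id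
  have hrange : NPC.Poly (fun A : List (List Bool) => List.range (A.length + 1)) :=
    UPoly.range (UPoly.add (UPoly.length hid) (UPoly.const 1))
  have hmain : NPC.Poly (fun A : List (List Bool) =>
      (List.range (A.length + 1)).flatMap fun j =>
        (lists (List.range (A.length + 1)) c).flatMap fun R =>
          (lists (List.range (A.length + 1)) r).flatMap fun S =>
            (lists (List.range (A.length + 1)) (bools c).length).map fun t =>
              val A (cand A (bools c) (preL A (min j (A.length + 1))) R S t)) := by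
    refine NPC.Poly.flatMap (F := fun (A : List (List Bool)) j =>
        (lists (List.range (A.length + 1)) c).flatMap fun R =>
          (lists (List.range (A.length + 1)) r).flatMap fun S =>
            (lists (List.range (A.length + 1)) (bools c).length).map fun t =>
              val A (cand A (bools c) (preL A (min j (A.length + 1))) R S t)) hrange ?_
    have f1 : NPC.Poly (fun p : List (List Bool) × ℕ => p.1) := NPC.Poly.fst NPC.Poly.id
    refine NPC.Poly.flatMap (F := fun (p : List (List Bool) × ℕ) R =>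
          (lists (List.range (p.1.length + 1)) r).flatMap fun S =>
            (lists (List.range (p.1.length + 1)) (bools c).length).map fun t =>
              val p.1 (cand p.1 (bools c) (preL p.1 (min p.2 (p.1.length + 1))) R S t))
      (p_lists (hrange.comp f1) c) ?_
    have f2 : NPC.Poly (fun p : (List (List Bool) × ℕ) × List ℕ => p.1.1) :=
      f1.comp (NPC.Poly.fst NPC.Poly.id)
    refine NPC.Poly.flatMap (F := fun (p : (List (List Bool) × ℕ) × List ℕ) S =>
            (lists (List.range (p.1.1.length + 1)) (bools c).length).map fun t =>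
              val p.1.1 (cand p.1.1 (bools c) (preL p.1.1 (min p.1.2 (p.1.1.length + 1)))
                p.2 S t))
      (p_lists (hrange.comp f2) r) ?_
    have f3 : NPC.Poly (fun p : ((List (List Bool) × ℕ) × List ℕ) × List ℕ => p.1.1.1) :=
      f2.comp (NPC.Poly.fst NPC.Poly.id)
    refine NPC.Poly.map (F := fun (p : ((List (List Bool) × ℕ) × List ℕ) × List ℕ) t =>
              val p.1.1.1 (cand p.1.1.1 (bools c)
                (preL p.1.1.1 (min p.1.1.2 (p.1.1.1.length + 1))) p.1.2 p.2 t))
      (p_lists (hrange.comp f3) _) ?_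
    have f4 : NPC.Poly (fun p : (((List (List Bool) × ℕ) × List ℕ) × List ℕ) × List ℕ =>
      p.1.1.1.1) := f3.comp (NPC.Poly.fst NPC.Poly.id)
    have f5 : NPC.Poly (fun p : (((List (List Bool) × ℕ) × List ℕ) × List ℕ) × List ℕ =>
      p.1.1.1.2) := NPC.Poly.snd (NPC.Poly.fst (NPC.Poly.fst (NPC.Poly.fst NPC.Poly.id)))
    refine p_val f4 (p_cand (bools c) f4 (p_preL f4 f5) ?_ ?_ ?_)
    · exact NPC.Poly.snd (NPC.Poly.fst (NPC.Poly.fst NPC.Poly.id))
    · exact NPC.Poly.snd (NPC.Poly.fst NPC.Poly.id)
    · exact NPC.Poly.snd NPC.Poly.id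
  have hmain2 : NPC.Poly (fun A : List (List Bool) =>
      (List.range (A.length + 1)).flatMap fun j =>
        (lists (List.range (A.length + 1)) c).flatMap fun R =>
          (lists (List.range (A.length + 1)) r).flatMap fun S =>
            (lists (List.range (A.length + 1)) (bools c).length).map fun t =>
              val A (cand A (bools c) (preL A j) R S t)) := by
    refine hmain.congr fun A => ?_
    refine List.flatMap_congr fun j hj => ?_
    have : min j (A.length + 1) = j := min_eq_left (List.mem_range.1 hj).le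
    rw [this]
  have h2 : NPC.Poly (fun A : List (List Bool) => A.length - 2) :=
    NPC.Poly.sub (NPC.Poly.length hid) (NPC.Poly.const 2)
  refine NPC.Poly.foldl (F := fun (_ : List (List Bool)) (s b : ℕ) => min s b) hmain2 h2
    (NPC.Poly.min (NPC.Poly.fst (NPC.Poly.snd NPC.Poly.id))
      (NPC.Poly.snd (NPC.Poly.snd NPC.Poly.id))) (4 * Polynomial.X + 1) ?_
  intro A k _
  have h3 := foldl_min_le (A.length - 2) ((((List.range (A.length + 1)).flatMap fun j =>
        (lists (List.range (A.length + 1)) c).flatMap fun R =>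
          (lists (List.range (A.length + 1)) r).flatMap fun S =>
            (lists (List.range (A.length + 1)) (bools c).length).map fun t =>
              val A (cand A (bools c) (preL A j) R S t))).take k) _ le_rfl
  have h4 := sz_nat_le ((((List.range (A.length + 1)).flatMap fun j =>
        (lists (List.range (A.length + 1)) c).flatMap fun R =>
          (lists (List.range (A.length + 1)) r).flatMap fun S =>
            (lists (List.range (A.length + 1)) (bools c).length).map fun t =>
              val A (cand A (bools c) (preL A j) R S t)).take k).foldl min (A.length - 2))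
  have h5 := NPC.Poly.size_le_self ((((List.range (A.length + 1)).flatMap fun j =>
        (lists (List.range (A.length + 1)) c).flatMap fun R =>
          (lists (List.range (A.length + 1)) r).flatMap fun S =>
            (lists (List.range (A.length + 1)) (bools c).length).map fun t =>
              val A (cand A (bools c) (preL A j) R S t)).take k).foldl min (A.length - 2))
  have h6 := length_lt_sz A
  have h8 : sz ((((List.range (A.length + 1)).flatMap fun j =>
        (lists (List.range (A.length + 1)) c).flatMap fun R =>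
          (lists (List.range (A.length + 1)) r).flatMap fun S =>
            (lists (List.range (A.length + 1)) (bools c).length).map fun t =>
              val A (cand A (bools c) (preL A j) R S t)).take k).foldl min (A.length - 2)) ≤
      4 * sz A + 1 := by
    omega
  simp only [Polynomial.eval_add, Polynomial.eval_mul, Polynomial.eval_one,
    Polynomial.eval_ofNat, Polynomial.eval_X]
  exact h8

end Pool.Agent.R288.FT.PPO2
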