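import Pool.Agent.R288.FT.Gr

/-!
The window argument.
-/

set_option autoImplicit false

open Finset

namespace Pool.Agent.R288.FT.PWI

open Pool.Agent.R288.FT

open Classical in
/-- a sequence of vertices of largest degree -/
theorem seq (V : Type) [Fintype V] (G : SimpleGraph V) (B : Finset V) (v0 : V) (n : ℕ) :
    n ≤ (univ.filter fun v => v ∉ B).card → ∃ p : ℕ → V, (∀ i < n, p i ∉ B) ∧
      (∀ i < n, ∀ j < n, p i = p j → i = j) ∧
      (∀ i < n, ∀ v, v ∉ B → (∀ j < i, v ≠ p j) → dg G B v ≤ dg G B (p i)) := by
  induction n with
  | zero =>
    intro _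
    exact ⟨fun _ => v0, by simp, by simp, by simp⟩
  | succ n ih =>
    intro hn
    obtain ⟨p, h1, h2, h3⟩ := ih (by omega)
    have hne : ((univ.filter fun v => v ∉ B) \ (range n).image p).Nonempty := by
      rw [← Finset.card_pos]
      have := Finset.le_card_sdiff ((range n).image p) (univ.filter fun v => v ∉ B)
      have h4 : ((range n).image p).card ≤ n := Finset.card_image_le.trans (by simp)
      omega
    obtain ⟨m, hm, hmax⟩ := Finset.exists_max_image _ (fun v => dg G B v) hne
    simp only [mem_sdiff, mem_filter, mem_univ, true_and, mem_image, mem_range, not_exists,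
      not_and] at hm hmax
    refine ⟨fun i => if i = n then m else p i, ?_, ?_, ?_⟩
    · intro i hi
      by_cases h : i = n
      · simp only [h, if_true]
        exact hm.1
      · simp only [h, if_false]
        exact h1 i (by omega)
    · intro i hi j hj hij
      by_cases h : i = n <;> by_cases h' : j = n
      · omega
      · simp only [h, h', if_true, if_false] at hij
        exact absurd hij.symm (hm.2 j (by omega))
      · simp only [h, h', if_true, if_false] at hij
        exact absurd hij (hm.2 i (by omega))
      · simp only [h, h', if_false] at hij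
        exact h2 i (by omega) j (by omega) hij
    · intro i hi v hv hvj
      by_cases h : i = n
      · simp only [h, if_true]
        refine hmax v ⟨hv, ?_⟩
        intro j hj hpj
        have := hvj j (by omega)
        simp only [show ¬ j = n by omega, if_false] at this
        exact this hpj.symm
      · simp only [h, if_false]
        refine h3 i (by omega) v hv ?_
        intro j hj
        have := hvj j hj
        simp only [show ¬ j = n by omega, if_false] at this
        exact this

theorem t_WI (h1 : S_MON) (h2 : S_L2) : S_WI := by
  classical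
  intro V _ G B d D hD hF
  have hne : (univ.filter fun v => v ∉ B ∧ d < dg G B v).Nonempty := by
    rw [← Finset.card_pos]
    refine lt_of_lt_of_le (by norm_num) hF
  obtain ⟨v0, _⟩ := hne
  have hle : 576 ≤ (univ.filter fun v => v ∉ B).card := by
    refine hF.trans (Finset.card_le_card ?_)
    intro v hv
    simp only [mem_filter, mem_univ, true_and] at hv ⊢
    exact hv.1
  obtain ⟨p, p1, p2, p3⟩ := seq V G B v0 576 hle
  have hanti : ∀ i j, i ≤ j → j < 576 → dg G B (p j) ≤ dg G B (p i) := by
    intro i j hij hj
    refine p3 i (by omega) (p j) (p1 j hj) ?_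
    intro k hk h
    have := p2 j hj k (by omega) h
    omega
  -- the last vertex has degree > d
  have hlast : d < dg G B (p 575) := by
    have h3 : ((univ.filter fun v => v ∉ B ∧ d < dg G B v) \ (range 575).image p).Nonempty := by
      rw [← Finset.card_pos]
      have := Finset.le_card_sdiff ((range 575).image p)
        (univ.filter fun v => v ∉ B ∧ d < dg G B v)
      have h4 : ((range 575).image p).card ≤ 575 := Finset.card_image_le.trans (by simp)
      refine lt_of_lt_of_le ?_ this
      have : 575 < (univ.filter fun v => v ∉ B ∧ d < dg G B v).card := lt_of_lt_of_le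
        (by norm_num) hF
      omega
    obtain ⟨v, hv⟩ := h3
    simp only [mem_sdiff, mem_filter, mem_univ, true_and, mem_image, mem_range, not_exists,
      not_and] at hv
    refine lt_of_lt_of_le hv.1.2 (p3 575 (by norm_num) v hv.1.1 ?_)
    intro j hj h
    exact hv.2 j hj h.symm
  have hfirst : dg G B (p 0) ≤ D := hD _ (p1 0 (by norm_num))
  have hdD : d < D := hlast.trans_le ((hanti 0 575 (by norm_num) (by norm_num)).trans hfirst)
  -- a good window
  have hwin : ∃ w < 72, 72 * dg G B (p (8 * w)) ≤ 72 * dg G B (p (8 * w + 7)) + (D - d) := by
    by_contra hcon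
    push Not at hcon
    have key : ∀ w < 72, 72 * dg G B (p (8 * w + 7)) + (w + 1) * (D - d + 1) ≤
        72 * dg G B (p 0) := by
      intro w
      induction w with
      | zero =>
        intro _
        have := hcon 0 (by norm_num)
        simp only [mul_zero, zero_add, one_mul] at this ⊢
        omega
      | succ w ih =>
        intro hw
        have i1 := ih (by omega)
        have i2 := hcon (w + 1) hw
        have i3 := hanti (8 * w + 7) (8 * (w + 1)) (by omega) (by omega)
        have i4 : (w + 1 + 1) * (D - d + 1) = (w + 1) * (D - d + 1) + (D - d + 1) := by ring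
        rw [i4]
        omega
    have := key 71 (by norm_num)
    norm_num at this
    omega
  obtain ⟨w, hw, hwe⟩ := hwin
  set e := dg G B (p (8 * w)) - dg G B (p (8 * w + 7)) with he
  have hab := hanti (8 * w) (8 * w + 7) (by omega) (by omega)
  have he72 : 72 * e ≤ D - d := by omega
  set B1 := B ∪ (range (8 * w)).image p with hB1
  have hdisj : Disjoint B ((range (8 * w)).image p) := by
    rw [Finset.disjoint_right]
    intro v hv
    obtain ⟨i, hi, rfl⟩ := mem_image.1 hv
    exact p1 i (by have := mem_range.1 hi; omega)
  have hcard1 : ((range (8 * w)).image p).card = 8 * w := by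
    rw [Finset.card_image_of_injOn, card_range]
    intro i hi j hj hij
    have hi' := mem_range.1 (Finset.mem_coe.1 hi)
    have hj' := mem_range.1 (Finset.mem_coe.1 hj)
    exact p2 i (by omega) j (by omega) hij
  have hB1card : B1.card = B.card + 8 * w := by
    rw [hB1, Finset.card_union_of_disjoint hdisj, hcard1]
  set W := (range 8).image (fun i => p (8 * w + i)) with hW
  have hWcard : W.card = 8 := by
    rw [hW, Finset.card_image_of_injOn, card_range]
    intro i hi j hj hij
    have hi' := mem_range.1 (Finset.mem_coe.1 hi)
    have hj' := mem_range.1 (Finset.mem_coe.1 hj)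
    have := p2 (8 * w + i) (by omega) (8 * w + j) (by omega) hij
    omega
  have hsub : B ⊆ B1 := Finset.subset_union_left
  obtain ⟨B', b1, b2, b3⟩ := h2 V G B1 W (e + 568) (by
      intro x hx
      obtain ⟨i, hi, rfl⟩ := mem_image.1 hx
      have hi' := mem_range.1 hi
      rw [hB1, Finset.mem_union, not_or]
      refine ⟨p1 _ (by omega), ?_⟩
      intro h
      obtain ⟨j, hj, hjj⟩ := mem_image.1 h
      have hj' := mem_range.1 hj
      have := p2 j (by omega) (8 * w + i) (by omega) hjj
      omega) hWcard.ge (by
      intro x hx v hv
      obtain ⟨i, hi, rfl⟩ := mem_image.1 hx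
      have hi' := mem_range.1 hi
      rw [hB1, Finset.mem_union, not_or] at hv
      have k1 := (h1 V G B B1 hsub v).1
      have k2 := p3 (8 * w) (by omega) v hv.1 (by
        intro j hj h
        exact hv.2 (mem_image.2 ⟨j, mem_range.2 hj, h.symm⟩))
      have k3 := (h1 V G B B1 hsub (p (8 * w + i))).2.1
      have k4 := hanti (8 * w + i) (8 * w + 7) (by omega) (by omega)
      omega)
  refine ⟨B', hsub.trans b1, b2, ?_⟩
  omega

end Pool.Agent.R288.FT.PWI
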