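import Pool.Agent.R288.FT.Asm
import Pool.Agent.R288.FT.MON
import Pool.Agent.R288.FT.EQ
import Pool.Agent.R288.FT.CAb
import Pool.Agent.R288.FT.NA
import Pool.Agent.R288.FT.L1b
import Pool.Agent.R288.FT.L2b
import Pool.Agent.R288.FT.WI
import Pool.Agent.R288.FT.COb
import Pool.Agent.R288.FT.BR
import Pool.Agent.R288.FT.LB
import Pool.Agent.R288.FT.LCb
import Pool.Agent.R288.FT.AL
import Pool.Agent.R288.FT.PO2

/-!
# MP_3ff6cb_lc: `f_3(G)` in polynomial time, final assembly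
-/

set_option autoImplicit false

namespace Pool.Agent.R288.FT

open Pool.Agent.NPC Pool.Agent.NPC.R671

theorem m_MON : S_MON := PMON.t_MON
theorem m_EQ : S_EQ := PEQ.t_EQ m_MON
theorem m_CA : S_CA := PCAb.t_CA m_MON
theorem m_NA : S_NA := PNA.t_NA m_CA
theorem m_L1 : S_L1 := PL1b.t_L1 m_MON m_EQ m_CA m_NA
theorem m_L2 : S_L2 := PL2b.t_L2 m_MON m_EQ m_CA m_NA m_L1
theorem m_WI : S_WI := PWI.t_WI m_MON m_L2
theorem m_CO : S_CO := PCOb.t_CO m_MON m_WI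
theorem m_BR : S_BR := PBR.t_BR
theorem m_LB : S_LB := PLB.t_LB
theorem m_LC : S_LC := PLCb.t_LC m_LB
theorem m_AL : S_AL := PAL.t_AL m_CO m_BR m_LB m_LC
theorem m_PO : S_PO := PPO2.t_PO

theorem final : ∃ f : List Bool → List Bool, PolyTime f ∧
    ∀ (n : ℕ) (G : SimpleGraph (Fin n)), f (bits (adjMatrix G)) = bits (fk 3 G) :=
  asm m_AL m_PO

end Pool.Agent.R288.FT
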