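import Pool.Agent.R288.FT.Gr

/-!
# Project FT, piece L1: two near-top nonneighbours of the top vertex
-/

set_option autoImplicit false

open Finset

namespace Pool.Agent.R288.FT.PL1

variable {V : Type} [Fintype V] {G : SimpleGraph V}

lemma exMax (P : V → Prop) (f : V → ℕ) (h : ∃ v, P v) : ∃ w, P w ∧ ∀ v, P v → f v ≤ f w := by
  obtain ⟨w, hw, hm⟩ := Set.exists_max_image {v | P v} f (Set.toFinite _) h
  exact ⟨w, hw, hm⟩

omit [Fintype V] in
open Classical in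
lemma ins_card {B : Finset V} {y : V} (hy : y ∉ B) : (insert y B).card = B.card + 1 :=
  card_insert_of_notMem hy

open Classical in
lemma ins_le (h1 : S_MON) (B : Finset V) (y v : V) : dg G (insert y B) v ≤ dg G B v :=
  (h1 V G B (insert y B) (subset_insert _ _) v).1

open Classical in
lemma ins_adj (h1 : S_MON) {B : Finset V} {y : V} (hy : y ∉ B) {v : V} (h : G.Adj v y) :
    dg G (insert y B) v + 1 = dg G B v := by
  have h2 := (h1 V G B (insert y B) (subset_insert _ _) v).2.2.1 (by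
    intro u hu hu'
    rcases mem_insert.1 hu with rfl | h3
    · exact h
    · exact absurd h3 hu')
  rw [ins_card hy] at h2
  omega

open Classical in
lemma ins_not (h1 : S_MON) {B : Finset V} {y : V} {v : V} (h : ¬ G.Adj v y) :
    dg G (insert y B) v = dg G B v := by
  refine (h1 V G B (insert y B) (subset_insert _ _) v).2.2.2 ?_
  intro u hu hu'
  rcases mem_insert.1 hu with rfl | h3
  · exact h
  · exact absurd h3 hu'

/-- the state -/
structure St (G : SimpleGraph V) (x r1 r2 : V) (L : ℕ) (B : Finset V) : Prop where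
  xB : x ∉ B
  r1B : r1 ∉ B
  r2B : r2 ∉ B
  r12 : r1 ≠ r2
  r1x : r1 ≠ x
  r2x : r2 ≠ x
  n1 : ¬ G.Adj x r1
  n2 : ¬ G.Adj x r2
  g1 : dg G B x ≤ dg G B r1 + L
  g2 : dg G B x ≤ dg G B r2 + L

lemma St.mono (h1 : S_MON) {x r1 r2 : V} {L : ℕ} {B B' : Finset V} (h : St G x r1 r2 L B)
    (hB : B ⊆ B') (ha : ∀ u ∈ B', u ∉ B → G.Adj x u) : St G x r1 r2 L B' := by
  have e := (h1 V G B B' hB x).2.2.1 ha
  have e1 := (h1 V G B B' hB r1).2.1
  have e2 := (h1 V G B B' hB r2).2.1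
  have g1 := h.g1
  have g2 := h.g2
  refine ⟨fun hx => ?_, fun hx => ?_, fun hx => ?_, h.r12, h.r1x, h.r2x, h.n1, h.n2, by omega,
    by omega⟩
  · exact G.loopless.irrefl x (ha x hx h.xB)
  · exact h.n1 (ha r1 hx h.r1B)
  · exact h.n2 (ha r2 hx h.r2B)

lemma fin (h1 : S_MON) (h2 : S_EQ) (h4 : S_NA) {x r1 r2 w : V} {L : ℕ} {B : Finset V}
    (h : St G x r1 r2 L B) (hw : w ∉ B) (hwx : w ≠ x) (hn : ¬ G.Adj x w)
    (hs : ∀ v, v ∉ B → v ≠ x → dg G B v ≤ dg G B w) (ht : dg G B w ≤ dg G B x) :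
    ∃ B' : Finset V, B ⊆ B' ∧ S3 G B' ∧ B'.card + dg G B w ≤ B.card + dg G B x + 2 * L := by
  obtain ⟨B1, hB1, hc, hu, hx, hw'⟩ := h2 V G B x w h.xB hw hwx.symm ht
  have h' := h.mono h1 hB1 (fun u hu1 hu2 => (hu u hu1 hu2).1)
  have hwB1 : w ∉ B1 := fun hc => (hu w hc hw).2.2.1 rfl
  have htop : ∀ v, v ∉ B1 → dg G B1 v ≤ dg G B1 x := by
    intro v hv
    by_cases hvx : v = x
    · rw [hvx]
    · rw [hx]
      exact ((h1 V G B B1 hB1 v).1).trans (hs v (fun hc => hv (hB1 hc)) hvx)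
  have key : ∃ r, r ∉ B1 ∧ r ≠ x ∧ r ≠ w ∧ dg G B1 x ≤ dg G B1 r + L := by
    by_cases hr : r1 = w
    · exact ⟨r2, h'.r2B, h'.r2x, fun hc => h'.r12 (hr.trans hc.symm), h'.g2⟩
    · exact ⟨r1, h'.r1B, h'.r1x, hr, h'.g1⟩
  obtain ⟨r, hr1, hr2, hr3, hr4⟩ := key
  obtain ⟨B2, hB2, hS, hc2⟩ := h4 V G B1 x w r L h'.xB hwB1 hr1 hwx.symm hr2 hr3
    (by rw [hx, hw']) hn htop hr4
  exact ⟨B2, hB1.trans hB2, hS, by omega⟩

open Classical in
theorem t_L1 (h1 : S_MON) (h2 : S_EQ) (h3 : S_CA) (h4 : S_NA) : S_L1 := by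
  intro V _ G B x r1 r2 L hxB hr1B hr2B hr12 hr1x hr2x hn1 hn2 htop hg1 hg2
  have hSt : St G x r1 r2 L B := ⟨hxB, hr1B, hr2B, hr12, hr1x, hr2x, hn1, hn2, hg1, hg2⟩
  rcases Nat.eq_zero_or_pos L with hL | hL
  · subst hL
    refine ⟨B, subset_rfl, ⟨x, r1, r2, hxB, hr1B, hr2B, hr1x.symm, hr2x.symm, hr12, ?_, ?_,
      htop⟩, by omega⟩
    · have := htop r1 hr1B; omega
    · have := htop r2 hr2B; omega
  -- the second vertex
  obtain ⟨y, ⟨hyB, hyx⟩, hys⟩ := exMax (fun v => v ∉ B ∧ v ≠ x) (dg G B) ⟨r1, hr1B, hr1x⟩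
  have hyt := htop y hyB
  have hyr := hys r1 ⟨hr1B, hr1x⟩
  by_cases hxy : G.Adj x y
  swap
  · obtain ⟨B', hB', hS, hc⟩ := fin h1 h2 h4 hSt hyB hyx hxy (fun v hv hvx => hys v ⟨hv, hvx⟩) hyt
    exact ⟨B', hB', hS, by omega⟩
  obtain ⟨B1, hB1, hc1, hu1, hx1, hy1⟩ := h2 V G B x y hxB hyB hyx.symm hyt
  have hSt1 := hSt.mono h1 hB1 (fun u a b => (hu1 u a b).1)
  have hyB1 : y ∉ B1 := fun hc => (hu1 y hc hyB).2.2.1 rfl
  have hr1y : r1 ≠ y := fun hc => hn1 (hc ▸ hxy)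
  have hr2y : r2 ≠ y := fun hc => hn2 (hc ▸ hxy)
  have htop1 : ∀ v, v ∉ B1 → dg G B1 v ≤ dg G B1 x := by
    intro v hv
    by_cases hvx : v = x
    · rw [hvx]
    · rw [hx1]
      exact ((h1 V G B B1 hB1 v).1).trans (hys v ⟨fun hc => hv (hB1 hc), hvx⟩)
  -- the third vertices
  obtain ⟨z0, ⟨hz0B, hz0x, hz0y⟩, hz0s⟩ := exMax (fun v => v ∉ B1 ∧ v ≠ x ∧ v ≠ y) (dg G B1)
    ⟨r1, hSt1.r1B, hr1x, hr1y⟩
  have hδt := htop1 z0 hz0B
  have hδr := hz0s r1 ⟨hSt1.r1B, hr1x, hr1y⟩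
  have g11 := hSt1.g1
  rcases Nat.eq_or_lt_of_le hδt with ha | ha
  · exact ⟨B1, hB1, ⟨x, y, z0, hSt1.xB, hyB1, hz0B, hyx.symm, hz0x.symm, hz0y.symm,
      by rw [hx1, hy1], ha, htop1⟩, by omega⟩
  -- a general third vertex
  have hCA : ∀ z, z ∉ B1 → z ≠ x → z ≠ y → dg G B1 z = dg G B1 z0 →
      (∃ B' : Finset V, B ⊆ B' ∧ S3 G B' ∧ B'.card ≤ B.card + 5 * L) ∨
      (¬ G.Adj y z ∧ ∀ u, u ∉ B1 → u ≠ x → G.Adj z u → G.Adj x u) ∨
      (¬ G.Adj x z ∧ ∀ u, u ∉ B1 → u ≠ y → G.Adj z u → G.Adj y u) := by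
    intro z hzB hzx hzy hzd
    by_cases hA : (¬ G.Adj y z ∧ ∀ u, u ∉ B1 → u ≠ x → G.Adj z u → G.Adj x u)
    · exact Or.inr (Or.inl hA)
    by_cases hB : (¬ G.Adj x z ∧ ∀ u, u ∉ B1 → u ≠ y → G.Adj z u → G.Adj y u)
    · exact Or.inr (Or.inr hB)
    left
    have c1 : (¬ G.Adj x y ∨ G.Adj y z ∨ ∃ u, u ∉ B1 ∧ u ≠ x ∧ G.Adj z u ∧ ¬ G.Adj x u) := by
      by_contra hc
      push Not at hc
      exact hA ⟨hc.2.1, hc.2.2⟩
    have c2 : (¬ G.Adj x y ∨ G.Adj x z ∨ ∃ u, u ∉ B1 ∧ u ≠ y ∧ G.Adj z u ∧ ¬ G.Adj y u) := by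
      by_contra hc
      push Not at hc
      exact hB ⟨hc.2.1, hc.2.2⟩
    obtain ⟨B', hB', hS, hc⟩ := h3 V G B1 x y z hSt1.xB hyB1 hzB hyx.symm hzx.symm hzy.symm
      (by rw [hx1, hy1]) (htop1 z hzB)
      (fun v hv hvx hvy => by rw [hzd]; exact hz0s v ⟨hv, hvx, hvy⟩) c1 c2
    exact ⟨B', hB1.trans hB', hS, by omega⟩
  -- delete `y`
  have hSt2 : St G x r1 r2 L (insert y B1) := hSt1.mono h1 (subset_insert _ _) (by
    intro u hu hu'
    rcases mem_insert.1 hu with rfl | h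
    · exact hxy
    · exact absurd h hu')
  have hcard2 := ins_card hyB1
  have hx2 := ins_adj h1 hyB1 hxy
  have hoth2 : ∀ v, v ∉ insert y B1 → v ≠ x → dg G (insert y B1) v ≤ dg G B1 z0 := by
    intro v hv hvx
    rw [mem_insert, not_or] at hv
    exact (ins_le h1 B1 y v).trans (hz0s v ⟨hv.2, hvx, hv.1⟩)
  by_cases hcase : ∃ z, z ∉ B1 ∧ z ≠ x ∧ z ≠ y ∧ dg G B1 z = dg G B1 z0 ∧ ¬ G.Adj y z ∧
      ∀ u, u ∉ B1 → u ≠ x → G.Adj z u → G.Adj x u
  · -- case 1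
    obtain ⟨z, hzB, hzx, hzy, hzd, hyz, hOx⟩ := hcase
    have hzB2 : z ∉ insert y B1 := by
      rw [mem_insert, not_or]; exact ⟨hzy, hzB⟩
    have hz2 : dg G (insert y B1) z = dg G B1 z := ins_not h1 (fun h => hyz h.symm)
    obtain ⟨B3, hB3, hc3, hu3, hx3, hz3⟩ := h2 V G (insert y B1) x z hSt2.xB hzB2 hzx.symm
      (by omega)
    have hSt3 := hSt2.mono h1 hB3 (fun u a b => (hu3 u a b).1)
    have hzB3 : z ∉ B3 := fun hc => (hu3 z hc hzB2).2.2.1 rfl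
    have hB13 : B1 ⊆ B3 := (subset_insert _ _).trans hB3
    have hyB3 : y ∈ B3 := hB3 (mem_insert_self _ _)
    have hoth3 : ∀ v, v ∉ B3 → v ≠ x → dg G B3 v ≤ dg G B3 z := by
      intro v hv hvx
      have e1 := (h1 V G (insert y B1) B3 hB3 v).1
      have e2 := hoth2 v (fun hc => hv (hB3 hc)) hvx
      omega
    by_cases hxz : G.Adj x z
    swap
    · obtain ⟨B', hB', hS, hc⟩ := fin h1 h2 h4 hSt3 hzB3 hzx hxz hoth3 (by omega)
      exact ⟨B', (hB1.trans hB13).trans hB', hS, by omega⟩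
    -- `N[x] = N[z]`
    have hN1 : ∀ u, u ∉ B3 → u ≠ x → G.Adj z u → G.Adj x u := fun u hu hux h =>
      hOx u (fun hc => hu (hB13 hc)) hux h
    have hN2 : ∀ u, u ∉ B3 → u ≠ z → G.Adj x u → G.Adj z u := by
      intro u hu huz hxu
      by_contra hzu
      -- count
      have hxz3 : dg G B3 x = dg G B3 z := by omega
      have hux : u ≠ x := fun hc => G.loopless.irrefl x (hc ▸ hxu)
      have hsub : insert z (insert u ((univ.filter fun v => v ∉ B3 ∧ G.Adj z v).erase x)) ⊆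
          univ.filter fun v => v ∉ B3 ∧ G.Adj x v := by
        intro v hv
        rw [mem_insert, mem_insert, mem_erase, mem_filter] at hv
        rw [mem_filter]
        refine ⟨mem_univ _, ?_⟩
        rcases hv with rfl | rfl | ⟨hvx, -, hvB, hzv⟩
        · exact ⟨hzB3, hxz⟩
        · exact ⟨hu, hxu⟩
        · exact ⟨hvB, hN1 v hvB hvx hzv⟩
      have hc := card_le_card hsub
      have hx_mem : x ∈ univ.filter fun v => v ∉ B3 ∧ G.Adj z v := by
        rw [mem_filter]; exact ⟨mem_univ _, hSt3.xB, hxz.symm⟩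
      have hu_not : u ∉ (univ.filter fun v => v ∉ B3 ∧ G.Adj z v).erase x := by
        rw [mem_erase, mem_filter]
        exact fun h => hzu h.2.2.2
      have hz_not : z ∉ insert u ((univ.filter fun v => v ∉ B3 ∧ G.Adj z v).erase x) := by
        rw [mem_insert, mem_erase, mem_filter]
        rintro (h | h)
        · exact huz h.symm
        · exact G.loopless.irrefl z h.2.2.2
      rw [card_insert_of_notMem hz_not, card_insert_of_notMem hu_not, card_erase_of_mem hx_mem]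
        at hc
      have hpos : 0 < (univ.filter fun v => v ∉ B3 ∧ G.Adj z v).card := card_pos.2 ⟨x, hx_mem⟩
      have e1 : dg G B3 x = (univ.filter fun v => v ∉ B3 ∧ G.Adj x v).card := rfl
      have e2 : dg G B3 z = (univ.filter fun v => v ∉ B3 ∧ G.Adj z v).card := rfl
      omega
    have hr1z : r1 ≠ z := fun hc => hn1 (hc ▸ hxz)
    obtain ⟨t, ⟨htB, htx, htz⟩, hts⟩ := exMax (fun v => v ∉ B3 ∧ v ≠ x ∧ v ≠ z) (dg G B3)
      ⟨r1, hSt3.r1B, hr1x, hr1z⟩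
    have htr := hts r1 ⟨hSt3.r1B, hr1x, hr1z⟩
    have htt := hoth3 t htB htx
    have g13 := hSt3.g1
    have htop3 : ∀ v, v ∉ B3 → dg G B3 v ≤ dg G B3 x := by
      intro v hv
      by_cases hvx : v = x
      · rw [hvx]
      · have := hoth3 v hv hvx; omega
    rcases Nat.eq_or_lt_of_le htt with hb | hb
    · exact ⟨B3, hB1.trans hB13, ⟨x, z, t, hSt3.xB, hzB3, htB, hzx.symm, htx.symm, htz.symm,
        by omega, by omega, htop3⟩, by omega⟩
    by_cases hq : G.Adj x t ∨ ∃ u, u ∉ B3 ∧ G.Adj t u ∧ ¬ G.Adj x u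
    · -- claim A
      have c : (¬ G.Adj x z ∨ G.Adj z t ∨ ∃ u, u ∉ B3 ∧ u ≠ x ∧ G.Adj t u ∧ ¬ G.Adj x u) ∧
          (¬ G.Adj x z ∨ G.Adj x t ∨ ∃ u, u ∉ B3 ∧ u ≠ z ∧ G.Adj t u ∧ ¬ G.Adj z u) := by
        by_cases hxt : G.Adj x t
        · exact ⟨Or.inr (Or.inl (hN2 t htB htz hxt)), Or.inr (Or.inl hxt)⟩
        · have hzt : ¬ G.Adj z t := fun h => hxt (hN1 t htB htx h)
          rcases hq with hq | ⟨u, huB, htu, hxu⟩
          · exact absurd hq hxt
          · have hux : u ≠ x := fun hc => hxt (hc ▸ htu).symm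
            have huz : u ≠ z := fun hc => hzt (hc ▸ htu).symm
            have hzu : ¬ G.Adj z u := fun h => hxu (hN1 u huB hux h)
            exact ⟨Or.inr (Or.inr ⟨u, huB, hux, htu, hxu⟩),
              Or.inr (Or.inr ⟨u, huB, huz, htu, hzu⟩)⟩
      obtain ⟨B', hB', hS, hc⟩ := h3 V G B3 x z t hSt3.xB hzB3 htB hzx.symm htx.symm htz.symm
        (by omega) (htop3 t htB) (fun v hv hvx hvz => hts v ⟨hv, hvx, hvz⟩) c.1 c.2
      exact ⟨B', (hB1.trans hB13).trans hB', hS, by omega⟩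
    · push Not at hq
      have hzt : ¬ G.Adj z t := fun h => hq.1 (hN1 t htB htx h)
      have hSt4 : St G x r1 r2 L (insert z B3) := hSt3.mono h1 (subset_insert _ _) (by
        intro u hu hu'
        rcases mem_insert.1 hu with rfl | h
        · exact hxz
        · exact absurd h hu')
      have hcard4 := ins_card hzB3
      have hx4 := ins_adj h1 hzB3 hxz
      have ht4 : dg G (insert z B3) t = dg G B3 t := ins_not h1 (fun h => hzt h.symm)
      have htB4 : t ∉ insert z B3 := by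
        rw [mem_insert, not_or]; exact ⟨htz, htB⟩
      have hoth4 : ∀ v, v ∉ insert z B3 → v ≠ x → dg G (insert z B3) v ≤
          dg G (insert z B3) t := by
        intro v hv hvx
        rw [mem_insert, not_or] at hv
        rw [ht4]
        exact (ins_le h1 B3 z v).trans (hts v ⟨hv.2, hvx, hv.1⟩)
      obtain ⟨B', hB', hS, hc⟩ := fin h1 h2 h4 hSt4 htB4 htx hq.1 hoth4 (by omega)
      exact ⟨B', ((hB1.trans hB13).trans (subset_insert _ _)).trans hB', hS, by omega⟩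
  · -- case 2
    push Not at hcase
    have hOy : ∀ z, z ∉ B1 → z ≠ x → z ≠ y → dg G B1 z = dg G B1 z0 →
        (∃ B' : Finset V, B ⊆ B' ∧ S3 G B' ∧ B'.card ≤ B.card + 5 * L) ∨ ¬ G.Adj x z := by
      intro z a b c d
      rcases hCA z a b c d with h | h | h
      · exact Or.inl h
      · obtain ⟨u, hu1, hu2, hu3, hu4⟩ := hcase z a b c d h.1
        exact absurd (h.2 u hu1 hu2 hu3) hu4
      · exact Or.inr h.1
    rcases hOy z0 hz0B hz0x hz0y rfl with h | hxz0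
    · exact h
    have hz0B2 : z0 ∉ insert y B1 := by
      rw [mem_insert, not_or]; exact ⟨hz0y, hz0B⟩
    have hz02 : dg G B1 z0 ≤ dg G (insert y B1) z0 + 1 := by
      by_cases h : G.Adj z0 y
      · have := ins_adj h1 hyB1 h; omega
      · have := ins_not h1 (B := B1) h; omega
    have g12 := hSt2.g1
    obtain ⟨w, ⟨hwB, hwx⟩, hws⟩ := exMax (fun v => v ∉ insert y B1 ∧ v ≠ x)
      (dg G (insert y B1)) ⟨z0, hz0B2, hz0x⟩
    have hwr := hws r1 ⟨hSt2.r1B, hr1x⟩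
    have hwle := hoth2 w hwB hwx
    have hz0le := hoth2 z0 hz0B2 hz0x
    by_cases hwz : dg G (insert y B1) w ≤ dg G (insert y B1) z0
    · obtain ⟨B', hB', hS, hc⟩ := fin h1 h2 h4 hSt2 hz0B2 hz0x hxz0
        (fun v hv hvx => (hws v ⟨hv, hvx⟩).trans hwz) (by omega)
      exact ⟨B', (hB1.trans (subset_insert _ _)).trans hB', hS, by omega⟩
    · have hwB' := hwB
      rw [mem_insert, not_or] at hwB'
      have hw1 := ins_le (G := G) h1 B1 y w
      have hw1' := hz0s w ⟨hwB'.2, hwx, hwB'.1⟩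
      have hwT : dg G B1 w = dg G B1 z0 := by omega
      rcases hOy w hwB'.2 hwx hwB'.1 hwT with h | hxw
      · exact h
      · obtain ⟨B', hB', hS, hc⟩ := fin h1 h2 h4 hSt2 hwB hwx hxw
          (fun v hv hvx => hws v ⟨hv, hvx⟩) (by omega)
        exact ⟨B', (hB1.trans (subset_insert _ _)).trans hB', hS, by omega⟩

end Pool.Agent.R288.FT.PL1
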