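import Pool.Agent.R288.FT.Gr

/-!
# L2: eight near-top vertices (project FT, helper288; piece by helper738)
-/

set_option autoImplicit false

open Finset

namespace Pool.Agent.R288.FT.PL2

open Pool.Agent.R288.FT

open Classical in
/-- the bad vertices: almost top in `G - B0` and nonadjacent to `x` or to `y` -/
noncomputable def bad {V : Type} [Fintype V] (G : SimpleGraph V) (B0 B : Finset V) (x y : V)
    (s : ℕ) : Finset V :=
  univ.filter fun v => v ∉ B ∧ v ≠ x ∧ v ≠ y ∧ (¬ G.Adj x v ∨ ¬ G.Adj y v) ∧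
    dg G B0 x ≤ dg G B0 v + (2 * s + 6)

theorem mem_bad {V : Type} [Fintype V] {G : SimpleGraph V} {B0 B : Finset V} {x y : V}
    {s : ℕ} {v : V} : v ∈ bad G B0 B x y s ↔ v ∉ B ∧ v ≠ x ∧ v ≠ y ∧
      (¬ G.Adj x v ∨ ¬ G.Adj y v) ∧ dg G B0 x ≤ dg G B0 v + (2 * s + 6) := by
  classical
  unfold bad
  simp

theorem step (h1 : S_MON) (h3 : S_CA) {V : Type} [Fintype V] (G : SimpleGraph V)
    (B0 : Finset V) (x y r : V) (s : ℕ)
    (hxy : x ≠ y) (hrx : r ≠ x) (hry : r ≠ y)
    (hr : dg G B0 x ≤ dg G B0 r + s)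
    (B : Finset V) (hB : B0 ⊆ B) (hx : x ∉ B) (hy : y ∉ B) (hrB : r ∉ B)
    (hD : dg G B y = dg G B x) (htop : ∀ v, v ∉ B → dg G B v ≤ dg G B x)
    (hc : B.card ≤ B0.card + s + 4) :
    (∃ B' : Finset V, B ⊆ B' ∧ S3 G B' ∧ B'.card ≤ B.card + 2 * (2 * s + 4)) ∨
    ∃ z, z ∈ bad G B0 B x y s ∧ dg G B z < dg G B x ∧
      ∀ v, v ∉ B → v ≠ x → v ≠ y → dg G B v ≤ dg G B z := by
  classical
  obtain ⟨z, hz, hzmax⟩ := Finset.exists_max_image
    (univ.filter fun v => v ∉ B ∧ v ≠ x ∧ v ≠ y) (dg G B) ⟨r, by simp [hrB, hrx, hry]⟩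
  simp only [mem_filter, mem_univ, true_and] at hz hzmax
  obtain ⟨hzB, hzx, hzy⟩ := hz
  have hr1 := (h1 V G B0 B hB r).2.1
  have hr2 := hzmax r ⟨hrB, hrx, hry⟩
  have hx1 := (h1 V G B0 B hB x).1
  have hz1 := (h1 V G B0 B hB z).1
  by_cases hadj : G.Adj x z ∧ G.Adj y z
  · left
    obtain ⟨B', hB', hS, hcard⟩ := h3 V G B x y z hx hy hzB hxy (Ne.symm hzx) (Ne.symm hzy) hD
      (htop z hzB) (fun v hv hvx hvy => hzmax v ⟨hv, hvx, hvy⟩) (Or.inr (Or.inl hadj.2))
      (Or.inr (Or.inl hadj.1))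
    exact ⟨B', hB', hS, by omega⟩
  · by_cases heq : dg G B z = dg G B x
    · left
      exact ⟨B, Finset.Subset.refl B, ⟨x, y, z, hx, hy, hzB, hxy, Ne.symm hzx, Ne.symm hzy, hD, heq,
        htop⟩, by omega⟩
    · right
      refine ⟨z, mem_bad.2 ⟨hzB, hzx, hzy, ?_, by omega⟩, ?_, fun v hv hvx hvy =>
        hzmax v ⟨hv, hvx, hvy⟩⟩
      · by_contra hcon
        push Not at hcon
        exact hadj hcon
      · have := htop z hzB
        omega

theorem loop (h1 : S_MON) (h2 : S_EQ) (h3 : S_CA) {V : Type} [Fintype V] (G : SimpleGraph V)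
    (B0 : Finset V) (x y r : V) (s : ℕ)
    (hxy : x ≠ y) (hrx : r ≠ x) (hry : r ≠ y) (hax : G.Adj x r) (hay : G.Adj y r)
    (hr : dg G B0 x ≤ dg G B0 r + s) :
    ∀ (n : ℕ) (B : Finset V), B0 ⊆ B → x ∉ B → y ∉ B → r ∉ B → dg G B y = dg G B x →
      (∀ v, v ∉ B → dg G B v ≤ dg G B x) → (bad G B0 B x y s).card ≤ n →
      B.card + 2 * n ≤ B0.card + s + 4 →
      ∃ B' : Finset V, B ⊆ B' ∧ S3 G B' ∧ B'.card ≤ B.card + 2 * n + 2 * (2 * s + 4) := by
  classical
  intro n
  induction n with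
  | zero =>
    intro B hB hx hy hrB hD htop hbad hc
    rcases step h1 h3 G B0 x y r s hxy hrx hry hr B hB hx hy hrB hD htop (by omega) with h | h
    · obtain ⟨B', hB', hS, hcard⟩ := h
      exact ⟨B', hB', hS, by omega⟩
    · obtain ⟨z, hz, -, -⟩ := h
      have := Finset.card_pos.2 ⟨z, hz⟩
      omega
  | succ n ih =>
    intro B hB hx hy hrB hD htop hbad hc
    rcases step h1 h3 G B0 x y r s hxy hrx hry hr B hB hx hy hrB hD htop (by omega) with h | h
    · obtain ⟨B', hB', hS, hcard⟩ := h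
      exact ⟨B', hB', hS, by omega⟩
    · obtain ⟨z, hz, hzlt, hzmax⟩ := h
      have hz' := mem_bad.1 hz
      obtain ⟨hzB, hzx, hzy, hzadj, -⟩ := hz'
      have hrz : r ≠ z := by
        rintro rfl
        rcases hzadj with h | h
        · exact h hax
        · exact h hay
      have fin : ∀ B2 : Finset V, insert z B ⊆ B2 → B2.card ≤ B.card + 2 → x ∉ B2 → y ∉ B2 →
          r ∉ B2 → dg G B2 y = dg G B2 x → dg G B x ≤ dg G B2 x + 1 →
          ∃ B' : Finset V, B ⊆ B' ∧ S3 G B' ∧
            B'.card ≤ B.card + 2 * (n + 1) + 2 * (2 * s + 4) := by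
        intro B2 hsub hcard hx2 hy2 hr2 hD2 hd2
        have hBB2 : B ⊆ B2 := (Finset.subset_insert z B).trans hsub
        have hzB2 : z ∈ B2 := hsub (Finset.mem_insert_self z B)
        obtain ⟨B', hB', hS, hc'⟩ := ih B2 (hB.trans hBB2) hx2 hy2 hr2 hD2 (by
          intro v hv
          have hvB : v ∉ B := fun h => hv (hBB2 h)
          by_cases hvx : v = x
          · rw [hvx]
          by_cases hvy : v = y
          · rw [hvy, hD2]
          have e1 := hzmax v hvB hvx hvy
          have e2 := (h1 V G B B2 hBB2 v).1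
          omega) (by
          have hss : bad G B0 B2 x y s ⊆ (bad G B0 B x y s).erase z := by
            intro v hv
            have hv' := mem_bad.1 hv
            refine Finset.mem_erase.2 ⟨?_, mem_bad.2 ⟨fun h => hv'.1 (hBB2 h), hv'.2⟩⟩
            rintro rfl
            exact hv'.1 hzB2
          have e1 := Finset.card_le_card hss
          have e2 := Finset.card_erase_of_mem hz
          omega) (by omega)
        exact ⟨B', hBB2.trans hB', hS, by omega⟩
      have hx1 : x ∉ insert z B := by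
        simp only [Finset.mem_insert, not_or]
        exact ⟨Ne.symm hzx, hx⟩
      have hy1 : y ∉ insert z B := by
        simp only [Finset.mem_insert, not_or]
        exact ⟨Ne.symm hzy, hy⟩
      have hr1 : r ∉ insert z B := by
        simp only [Finset.mem_insert, not_or]
        exact ⟨hrz, hrB⟩
      have hcz : (insert z B).card = B.card + 1 := Finset.card_insert_of_notMem hzB
      have mx := h1 V G B (insert z B) (Finset.subset_insert z B) x
      have my := h1 V G B (insert z B) (Finset.subset_insert z B) y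
      have mx1 := mx.1
      have mx2 := mx.2.1
      have my1 := my.1
      have my2 := my.2.1
      rcases lt_trichotomy (dg G (insert z B) y) (dg G (insert z B) x) with hlt | heq | hgt
      · obtain ⟨B2, hsub, hcard, hdel, hdx, hdy⟩ := h2 V G (insert z B) x y hx1 hy1 hxy hlt.le
        refine fin B2 hsub (by omega) ?_ ?_ ?_ (by omega) (by omega)
        · intro h
          exact (hdel x h hx1).2.2.2 rfl
        · intro h
          exact (hdel y h hy1).2.2.1 rfl
        · intro h
          exact (hdel r h hr1).2.1 hay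
      · exact fin _ (Finset.Subset.refl _) (by omega) hx1 hy1 hr1 heq (by omega)
      · obtain ⟨B2, hsub, hcard, hdel, hdy, hdx⟩ := h2 V G (insert z B) y x hy1 hx1
          (Ne.symm hxy) hgt.le
        refine fin B2 hsub (by omega) ?_ ?_ ?_ (by omega) (by omega)
        · intro h
          exact (hdel x h hx1).2.2.1 rfl
        · intro h
          exact (hdel y h hy1).2.2.2 rfl
        · intro h
          exact (hdel r h hr1).2.1 hax

theorem t_L2 (h1 : S_MON) (h2 : S_EQ) (h3 : S_CA) (h4 : S_NA) (h5 : S_L1) : S_L2 := by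
  intro V _ G B W s hWB hW hdeg
  classical
  obtain ⟨w0, hw0⟩ : W.Nonempty := Finset.card_pos.1 (by omega)
  obtain ⟨x, hxB, hxmax⟩ := Finset.exists_max_image (univ.filter fun v => v ∉ B) (dg G B)
    ⟨w0, by simp [hWB w0 hw0]⟩
  simp only [mem_filter, mem_univ, true_and] at hxB hxmax
  -- the second vertex
  obtain ⟨w1, hw1, hw1x⟩ : ∃ w ∈ W, w ≠ x := by
    by_contra hcon
    push Not at hcon
    have : W ⊆ {x} := fun w hw => Finset.mem_singleton.2 (hcon w hw)
    have := Finset.card_le_card this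
    simp at this
    omega
  obtain ⟨y, hy, hymax⟩ := Finset.exists_max_image (univ.filter fun v => v ∉ B ∧ v ≠ x)
    (fun v => 2 * dg G B v + (if G.Adj x v then 0 else 1)) ⟨w1, by simp [hWB w1 hw1, hw1x]⟩
  simp only [mem_filter, mem_univ, true_and] at hy hymax
  obtain ⟨hyB, hyx⟩ := hy
  have hxy : x ≠ y := Ne.symm hyx
  have hym : ∀ v, v ∉ B → v ≠ x → dg G B v ≤ dg G B y := by
    intro v hv hvx
    have := hymax v ⟨hv, hvx⟩
    split_ifs at this <;> omega
  -- degrees after deletion of x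
  have hcx : (insert x B).card = B.card + 1 := Finset.card_insert_of_notMem hxB
  have hmono := fun v => h1 V G B (insert x B) (Finset.subset_insert x B) v
  have hins : ∀ v, dg G (insert x B) v + (if G.Adj x v then 1 else 0) = dg G B v := by
    intro v
    split_ifs with h
    · have e := (hmono v).2.2.1 (fun u hu huB => by
        rcases Finset.mem_insert.1 hu with rfl | h'
        · exact h.symm
        · exact absurd h' huB)
      omega
    · have e := (hmono v).2.2.2 (fun u hu huB => by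
        rcases Finset.mem_insert.1 hu with rfl | h'
        · exact fun h' => h h'.symm
        · exact absurd h' huB)
      omega
  have hytop : ∀ v, v ∉ insert x B → dg G (insert x B) v ≤ dg G (insert x B) y := by
    intro v hv
    simp only [Finset.mem_insert, not_or] at hv
    have e1 := hymax v ⟨hv.2, hv.1⟩
    have e2 := hins v
    have e3 := hins y
    split_ifs at e1 e2 e3 <;> omega
  -- case A
  by_cases hA : ∃ r1 r2, r1 ∉ B ∧ r2 ∉ B ∧ r1 ≠ r2 ∧ r1 ≠ x ∧ r2 ≠ x ∧ ¬ G.Adj x r1 ∧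
      ¬ G.Adj x r2 ∧ dg G B x ≤ dg G B r1 + (2 * s + 6) ∧ dg G B x ≤ dg G B r2 + (2 * s + 6)
  · obtain ⟨r1, r2, a1, a2, a3, a4, a5, a6, a7, a8, a9⟩ := hA
    obtain ⟨B', hB', hS, hc⟩ := h5 V G B x r1 r2 (2 * s + 6) hxB a1 a2 a3 a4 a5 a6 a7
      (fun v hv => hxmax v hv) a8 a9
    exact ⟨B', hB', hS, by omega⟩
  -- case B
  by_cases hBc : ∃ r1 r2, r1 ∉ insert x B ∧ r2 ∉ insert x B ∧ r1 ≠ r2 ∧ r1 ≠ y ∧ r2 ≠ y ∧
      ¬ G.Adj y r1 ∧ ¬ G.Adj y r2 ∧
      dg G (insert x B) y ≤ dg G (insert x B) r1 + (2 * s + 7) ∧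
      dg G (insert x B) y ≤ dg G (insert x B) r2 + (2 * s + 7)
  · obtain ⟨r1, r2, a1, a2, a3, a4, a5, a6, a7, a8, a9⟩ := hBc
    obtain ⟨B', hB', hS, hc⟩ := h5 V G (insert x B) y r1 r2 (2 * s + 7) (by
      simp only [Finset.mem_insert, not_or]
      exact ⟨hyx, hyB⟩) a1 a2 a3 a4 a5 a6 a7 hytop a8 a9
    exact ⟨B', (Finset.subset_insert x B).trans hB', hS, by omega⟩
  -- the bad vertices
  have hbad : (bad G B B x y s).card ≤ 2 := by
    have hsub : bad G B B x y s ⊆
        (bad G B B x y s).filter (fun v => ¬ G.Adj x v) ∪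
        (bad G B B x y s).filter (fun v => ¬ G.Adj y v) := by
      intro v hv
      rcases (mem_bad.1 hv).2.2.2.1 with h | h
      · exact Finset.mem_union_left _ (Finset.mem_filter.2 ⟨hv, h⟩)
      · exact Finset.mem_union_right _ (Finset.mem_filter.2 ⟨hv, h⟩)
    have c1 : ((bad G B B x y s).filter (fun v => ¬ G.Adj x v)).card ≤ 1 := by
      rw [Finset.card_le_one]
      intro a ha b hb
      by_contra hab
      obtain ⟨ha1, ha2⟩ := Finset.mem_filter.1 ha
      obtain ⟨hb1, hb2⟩ := Finset.mem_filter.1 hb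
      have ha3 := mem_bad.1 ha1
      have hb3 := mem_bad.1 hb1
      exact hA ⟨a, b, ha3.1, hb3.1, hab, ha3.2.1, hb3.2.1, ha2, hb2, ha3.2.2.2.2, hb3.2.2.2.2⟩
    have c2 : ((bad G B B x y s).filter (fun v => ¬ G.Adj y v)).card ≤ 1 := by
      rw [Finset.card_le_one]
      intro a ha b hb
      by_contra hab
      obtain ⟨ha1, ha2⟩ := Finset.mem_filter.1 ha
      obtain ⟨hb1, hb2⟩ := Finset.mem_filter.1 hb
      have ha3 := mem_bad.1 ha1
      have hb3 := mem_bad.1 hb1
      have ya := (hmono y).1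
      have yx := hxmax y hyB
      have ea := (hmono a).2.1
      have eb := (hmono b).2.1
      have ea' := ha3.2.2.2.2
      have eb' := hb3.2.2.2.2
      exact hBc ⟨a, b, by simp only [Finset.mem_insert, not_or]; exact ⟨ha3.2.1, ha3.1⟩,
        by simp only [Finset.mem_insert, not_or]; exact ⟨hb3.2.1, hb3.1⟩, hab, ha3.2.2.1,
        hb3.2.2.1, ha2, hb2, by omega, by omega⟩
    have c3 := Finset.card_le_card hsub
    have c4 := Finset.card_union_le ((bad G B B x y s).filter (fun v => ¬ G.Adj x v))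
      ((bad G B B x y s).filter (fun v => ¬ G.Adj y v))
    omega
  -- the vertex r
  obtain ⟨r, hrW, hrx, hry, hax, hay⟩ : ∃ r ∈ W, r ≠ x ∧ r ≠ y ∧ G.Adj x r ∧ G.Adj y r := by
    by_contra hcon
    push Not at hcon
    have hsub : W ⊆ {x, y} ∪ bad G B B x y s := by
      intro w hw
      by_cases hwx : w = x
      · simp [hwx]
      by_cases hwy : w = y
      · simp [hwy]
      refine Finset.mem_union_right _ (mem_bad.2 ⟨hWB w hw, hwx, hwy, ?_, ?_⟩)
      · by_cases h : G.Adj x w
        · exact Or.inr (hcon w hw hwx hwy h)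
        · exact Or.inl h
      · have := hdeg w hw x hxB
        omega
    have c1 := Finset.card_le_card hsub
    have c2 := Finset.card_union_le {x, y} (bad G B B x y s)
    have c3 : ({x, y} : Finset V).card ≤ 2 := Finset.card_le_two
    omega
  have hrB : r ∉ B := hWB r hrW
  have hrs : dg G B x ≤ dg G B r + s := hdeg r hrW x hxB
  have hry' : dg G B r ≤ dg G B y := hym r hrB hrx
  have hyx' : dg G B y ≤ dg G B x := hxmax y hyB
  -- equalise x and y
  obtain ⟨B1, hsub, hcard, hdel, hdx, hdy⟩ := h2 V G B x y hxB hyB hxy hyx'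
  have hx1 : x ∉ B1 := fun h => (hdel x h hxB).2.2.2 rfl
  have hy1 : y ∉ B1 := fun h => (hdel y h hyB).2.2.1 rfl
  have hr1 : r ∉ B1 := fun h => (hdel r h hrB).2.1 hay
  have hD1 : dg G B1 y = dg G B1 x := by omega
  have htop1 : ∀ v, v ∉ B1 → dg G B1 v ≤ dg G B1 x := by
    intro v hv
    by_cases hvx : v = x
    · rw [hvx]
    have e1 := hym v (fun h => hv (hsub h)) hvx
    have e2 := (h1 V G B B1 hsub v).1
    omega
  obtain ⟨B', hB', hS, hc⟩ := loop h1 h2 h3 G B x y r s hxy hrx hry hax hay hrs 2 B1 hsub hx1 hy1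
    hr1 hD1 htop1 (by
      have hss : bad G B B1 x y s ⊆ bad G B B x y s := by
        intro v hv
        have hv' := mem_bad.1 hv
        exact mem_bad.2 ⟨fun h => hv'.1 (hsub h), hv'.2⟩
      exact (Finset.card_le_card hss).trans hbad) (by omega)
  exact ⟨B', hsub.trans hB', hS, by omega⟩

end Pool.Agent.R288.FT.PL2
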