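import Pool.Agent.R288.FT.Alg

/-!
# Piece LC of the project on MP_3ff6cb_lc
-/

set_option autoImplicit false

namespace Pool.Agent.R288.FT.PLC

open Pool.Agent.NPC Pool.Agent.NPC.R671 Pool.Agent.R288.FT

theorem mem_lists (l : List ℕ) : ∀ (k : ℕ) (b : List ℕ), b.length = k → (∀ x ∈ b, x ∈ l) →
    b ∈ lists l k := by
  intro k
  induction k with
  | zero =>
    intro b hb _
    rw [List.length_eq_zero_iff] at hb
    subst hb
    simp [lists]
  | succ k ih =>
    intro b hb hx
    cases b with
    | nil => simp at hb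
    | cons a b =>
      simp only [lists, List.mem_flatMap, List.mem_map]
      exact ⟨a, hx a (by simp), b, ih b (by simpa using hb) (fun x h => hx x (by simp [h])), rfl⟩

theorem mem_bools : ∀ (k : ℕ) (b : List Bool), b.length = k → b ∈ bools k := by
  intro k
  induction k with
  | zero =>
    intro b hb
    rw [List.length_eq_zero_iff] at hb
    subst hb
    simp [bools]
  | succ k ih =>
    intro b hb
    cases b with
    | nil => simp at hb
    | cons a b =>
      simp only [bools, List.mem_append, List.mem_map]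
      cases a
      · right
        exact ⟨b, ih b (by simpa using hb), rfl⟩
      · left
        exact ⟨b, ih b (by simpa using hb), rfl⟩

/-- list of the elements, padded with the dummy `n` -/
noncomputable def padL (n k : ℕ) (X : Finset (Fin n)) : List ℕ :=
  List.map (fun v : Fin n => (v : ℕ)) X.toList ++ List.replicate (k - X.card) n

theorem padL_length (n k : ℕ) (X : Finset (Fin n)) (h : X.card ≤ k) : (padL n k X).length = k := by
  simp only [padL, List.length_append, List.length_map, Finset.length_toList,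
    List.length_replicate]
  omega

theorem mem_padL (n k : ℕ) (X : Finset (Fin n)) (v : Fin n) : (v : ℕ) ∈ padL n k X ↔ v ∈ X := by
  simp only [padL, List.mem_append, List.mem_map, Finset.mem_toList, List.mem_replicate]
  constructor
  · rintro (⟨w, hw, h⟩ | ⟨_, h⟩)
    · rwa [← Fin.ext h]
    · exact absurd h v.2.ne
  · intro h
    exact Or.inl ⟨v, h, rfl⟩

theorem padL_cases (n k : ℕ) (X : Finset (Fin n)) (u : ℕ) (hu : u ∈ padL n k X) :
    (∃ v ∈ X, (v : ℕ) = u) ∨ u = n := by
  simp only [padL, List.mem_append, List.mem_map, Finset.mem_toList, List.mem_replicate] at hu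
  rcases hu with ⟨w, hw, h⟩ | ⟨_, h⟩
  · exact Or.inl ⟨w, hw, h⟩
  · exact Or.inr h

theorem padL_mem_lists (n k : ℕ) (X : Finset (Fin n)) (h : X.card ≤ k) :
    padL n k X ∈ lists (List.range (n + 1)) k := by
  apply mem_lists _ _ _ (padL_length n k X h)
  intro u hu
  rw [List.mem_range]
  rcases padL_cases n k X u hu with ⟨v, _, rfl⟩ | rfl
  · have := v.2
    omega
  · omega

open Classical in
/-- the pattern of a subset -/
noncomputable def pat (n c : ℕ) (R τ : Finset (Fin n)) : List Bool :=
  (padL n c R).map fun u => decide (∃ v ∈ τ, (v : ℕ) = u)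

open Classical in
theorem pat_iff (h : S_LB) {n : ℕ} (G : SimpleGraph (Fin n)) (c : ℕ) (R τ : Finset (Fin n))
    (hτ : τ ⊆ R) (v : Fin n) :
    (padL n c R).map (fun u => adL (adjMatrix G) v u) = pat n c R τ ↔
      R.filter (fun u => G.Adj v u) = τ := by
  obtain ⟨_, hadj, hlt, _⟩ := h n G
  rw [pat, List.map_inj_left]
  constructor
  · intro hh
    ext w
    rw [Finset.mem_filter]
    constructor
    · rintro ⟨hw, hvw⟩
      have h1 := hh w ((mem_padL n c R w).2 hw)
      rw [(hadj v w).2 hvw] at h1
      have h2 := of_decide_eq_true h1.symm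
      obtain ⟨w', hw', he⟩ := h2
      rwa [← Fin.ext he]
    · intro hw
      refine ⟨hτ hw, ?_⟩
      have h1 := hh w ((mem_padL n c R w).2 (hτ hw))
      rw [← hadj v w, h1]
      exact decide_eq_true ⟨w, hw, rfl⟩
  · intro hh u hu
    rw [Bool.eq_iff_iff, decide_eq_true_iff]
    rcases padL_cases n c R u hu with ⟨w, hw, rfl⟩ | rfl
    · rw [hadj v w]
      constructor
      · intro hvw
        exact ⟨w, by rw [← hh]; exact Finset.mem_filter.2 ⟨hw, hvw⟩, rfl⟩
      · rintro ⟨w', hw', he⟩
        rw [Fin.ext he] at hw'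
        rw [← hh] at hw'
        exact (Finset.mem_filter.1 hw').2
    · constructor
      · intro h1
        exact absurd (hlt _ _ h1).2 (lt_irrefl _)
      · rintro ⟨w', _, he⟩
        exact absurd he w'.2.ne

theorem pat_inj (n c : ℕ) (R τ τ' : Finset (Fin n)) (hτ : τ ⊆ R) (hτ' : τ' ⊆ R)
    (h : pat n c R τ = pat n c R τ') : τ = τ' := by
  classical
  rw [pat, pat, List.map_inj_left] at h
  have key : ∀ w ∈ R, (w ∈ τ ↔ w ∈ τ') := by
    intro w hw
    have h1 := h w ((mem_padL n c R w).2 hw)
    rw [decide_eq_decide] at h1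
    constructor
    · intro hw1
      obtain ⟨w', hw', he⟩ := h1.1 ⟨w, hw1, rfl⟩
      rwa [← Fin.ext he]
    · intro hw1
      obtain ⟨w', hw', he⟩ := h1.2 ⟨w, hw1, rfl⟩
      rwa [← Fin.ext he]
  ext w
  constructor
  · intro hw
    exact (key w (hτ hw)).1 hw
  · intro hw
    exact (key w (hτ' hw)).2 hw

theorem mem_FF (n : ℕ) (B : List ℕ) (v : Fin n) : v ∈ FF n B ↔ (v : ℕ) ∈ B := by
  simp [FF]

theorem card_FF (n : ℕ) (L : List ℕ) (hn : L.Nodup) (hL : ∀ x ∈ L, x < n) :
    (FF n L).card = L.length := by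
  have h1 : (FF n L).image (fun v : Fin n => (v : ℕ)) = L.toFinset := by
    ext x
    rw [Finset.mem_image, List.mem_toFinset]
    constructor
    · rintro ⟨v, hv, rfl⟩
      exact (mem_FF n L v).1 hv
    · intro hx
      exact ⟨⟨x, hL x hx⟩, (mem_FF n L _).2 hx, rfl⟩
  rw [← Finset.card_image_of_injective (FF n L) (fun a b hab => Fin.ext hab), h1,
    List.toFinset_card_of_nodup hn]

/-- the list of the class -/
noncomputable def LL {n : ℕ} (G : SimpleGraph (Fin n)) (c : ℕ) (P : List ℕ) (R : Finset (Fin n))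
    (p : List Bool) : List ℕ :=
  (rem (adjMatrix G) (P ++ padL n c R)).filter fun v =>
    decide ((padL n c R).map (fun u => adL (adjMatrix G) v u) = p)

theorem mem_LL (h : S_LB) {n : ℕ} (G : SimpleGraph (Fin n)) (c : ℕ) (P : List ℕ)
    (R : Finset (Fin n)) (p : List Bool) (v : ℕ) : v ∈ LL G c P R p ↔
      v < n ∧ v ∉ P ∧ v ∉ padL n c R ∧
        (padL n c R).map (fun u => adL (adjMatrix G) v u) = p := by
  obtain ⟨hlen, _⟩ := h n G
  rw [LL, List.mem_filter, rem, List.mem_filter, List.mem_range, hlen, decide_eq_true_iff,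
    decide_eq_true_iff, List.mem_append]
  tauto

theorem nodup_LL {n : ℕ} (G : SimpleGraph (Fin n)) (c : ℕ) (P : List ℕ)
    (R : Finset (Fin n)) (p : List Bool) : (LL G c P R p).Nodup := by
  unfold LL rem
  exact (List.nodup_range.filter _).filter _

theorem FF_LL (h : S_LB) {n : ℕ} (G : SimpleGraph (Fin n)) (c : ℕ) (P : List ℕ)
    (R τ : Finset (Fin n)) (hτ : τ ⊆ R) :
    FF n (LL G c P R (pat n c R τ)) = cls G (FF n P) R τ := by
  classical
  ext v
  rw [mem_FF, mem_LL h, pat_iff h G c R τ hτ v, mem_padL]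
  have hcls : v ∈ cls G (FF n P) R τ ↔ v ∉ FF n P ∧ v ∉ R ∧ R.filter (fun u => G.Adj v u) = τ := by
    unfold cls
    refine Iff.trans (@Finset.mem_filter (Fin n) _ (_) _ v) ?_
    constructor
    · rintro ⟨_, h1, h2, h3⟩
      refine ⟨h1, h2, ?_⟩
      rw [← h3]
    · rintro ⟨h1, h2, h3⟩
      refine ⟨Finset.mem_univ _, h1, h2, ?_⟩
      rw [← h3]
  rw [hcls, mem_FF]
  have := v.2
  tauto

open Classical in
/-- the numbers for the patterns -/
noncomputable def fp (n c : ℕ) (R : Finset (Fin n)) (t : Finset (Fin n) → ℕ) (p : List Bool) : ℕ :=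
  if h : ∃ τ, τ ⊆ R ∧ pat n c R τ = p then t h.choose else 0

theorem fp_pat (n c : ℕ) (R : Finset (Fin n)) (t : Finset (Fin n) → ℕ) (τ : Finset (Fin n))
    (hτ : τ ⊆ R) : fp n c R t (pat n c R τ) = t τ := by
  have h : ∃ τ', τ' ⊆ R ∧ pat n c R τ' = pat n c R τ := ⟨τ, hτ, rfl⟩
  rw [fp, dif_pos h]
  congr 1
  exact pat_inj n c R _ _ h.choose_spec.1 hτ h.choose_spec.2

theorem zip_map {α β : Type} (l : List α) (f : α → β) :
    l.zip (l.map f) = l.map fun a => (a, f a) := by
  induction l with
  | nil => rfl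
  | cons a l ih => simp [ih]

theorem t_LC (h : S_LB) : S_LC := by
  intro n G c r P R S t hR hS ht htn
  classical
  refine ⟨padL n c R, padL_mem_lists n c R hR, padL n r S, padL_mem_lists n r S hS,
    (bools c).map (fp n c R t), ?_, fun τ => FF n ((LL G c P R (pat n c R τ)).take (t τ)), ?_, ?_⟩
  · apply mem_lists
    · simp
    · intro x hx
      rw [List.mem_map] at hx
      obtain ⟨p, _, rfl⟩ := hx
      rw [List.mem_range]
      unfold fp
      split_ifs with hh
      · have := htn hh.choose
        omega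
      · omega
  · intro τ hτ
    have hFF := FF_LL h G c P R τ hτ
    have hlt : ∀ x ∈ LL G c P R (pat n c R τ), x < n := fun x hx => ((mem_LL h G c P R _ x).1 hx).1
    constructor
    · intro v hv
      rw [← hFF, mem_FF]
      rw [mem_FF] at hv
      exact List.mem_of_mem_take hv
    · rw [card_FF n _ ((nodup_LL G c P R _).sublist (List.take_sublist _ _))
        (fun x hx => hlt x (List.mem_of_mem_take hx)), List.length_take]
      apply min_eq_left
      have h1 := ht τ hτ
      rw [← hFF, card_FF n _ (nodup_LL G c P R _) hlt] at h1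
      exact h1
  · ext v
    rw [mem_FF, cand, List.mem_append, List.mem_append, Finset.mem_union, Finset.mem_union,
      mem_FF, mem_padL, Finset.mem_biUnion, zip_map, List.mem_flatMap]
    apply or_congr Iff.rfl
    constructor
    · rintro ⟨q, hq, hv⟩
      rw [List.mem_map] at hq
      obtain ⟨p, hp, rfl⟩ := hq
      have hv' : (v : ℕ) ∈ (LL G c P R p).take (fp n c R t p) := hv
      have hv2 := (mem_LL h G c P R p v).1 (List.mem_of_mem_take hv')
      have hpp : p = pat n c R (R.filter (fun u => G.Adj v u)) := by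
        rw [← hv2.2.2.2]
        exact (pat_iff h G c R _ (Finset.filter_subset _ _) v).2 rfl
      refine ⟨R.filter (fun u => G.Adj v u), Finset.mem_powerset.2 (Finset.filter_subset _ _), ?_⟩
      rw [mem_FF, ← hpp]
      have h3 : t (R.filter (fun u => G.Adj v u)) = fp n c R t p := by
        rw [hpp]
        exact (fp_pat n c R t _ (Finset.filter_subset _ _)).symm
      rw [h3]
      exact hv'
    · rintro ⟨τ, hτ, hv⟩
      rw [Finset.mem_powerset] at hτ
      rw [mem_FF] at hv
      refine ⟨(pat n c R τ, fp n c R t (pat n c R τ)), ?_, ?_⟩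
      · rw [List.mem_map]
        refine ⟨pat n c R τ, mem_bools c _ ?_, rfl⟩
        rw [pat, List.length_map, padL_length n c R hR]
      · show (v : ℕ) ∈ (LL G c P R (pat n c R τ)).take (fp n c R t (pat n c R τ))
        rw [fp_pat n c R t τ hτ]
        exact hv

end Pool.Agent.R288.FT.PLC
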