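import Pool.Agent.H671R2.PolyAuto
import Pool.Agent.R288.FT.Alg

/-!
# Piece PO: the algorithm is polynomial
-/

set_option autoImplicit false

namespace Pool.Agent.R288.FT.PPO

open Pool.Agent.NPC Pool.Agent.NPC.R671 Pool.Agent.R288.FT

section Basic

variable {α β : Type} [TEnc α] [TEnc β]

omit [TEnc β] in
theorem take_eq : ∀ (l : List β) (k n : ℕ),
    ((l.zipIdx k).filter (fun p => decide (p.2 < k + n))).map Prod.fst = l.take n := by
  intro l
  induction l with
  | nil => intro k n; simp
  | cons b l ih =>
    intro k n
    cases n with
    | zero =>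
      rw [List.take_zero, List.map_eq_nil_iff, List.filter_eq_nil_iff]
      rintro ⟨c, j⟩ hc
      have := List.le_snd_of_mem_zipIdx hc
      simp at this ⊢
      omega
    | succ n =>
      have h1 := ih (k + 1) n
      simp only [List.zipIdx_cons, List.take_succ_cons]
      rw [List.filter_cons_of_pos (by simp), List.map_cons]
      congr 1
      rw [← h1]
      congr 2
      funext p
      congr 1
      apply propext
      omega

@[fun_prop]
theorem poly_take {l : α → List β} {n : α → ℕ} (hl : Poly l) (hn : Poly n) :
    Poly (fun a => (l a).take (n a)) := by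
  have h : Poly (fun a => (((l a).zipIdx).filter (fun p => decide (p.2 < n a))).map Prod.fst) := by
    fun_prop
  exact h.congr fun a => by simpa using take_eq (l a) 0 (n a)

/-- folding with `min` -/
theorem poly_foldl_min {l : α → List ℕ} {s : α → ℕ} (hl : Poly l) (hs : Poly s) :
    Poly (fun a => (l a).foldl min (s a)) := by
  obtain ⟨r, hr⟩ := hs.sz_le
  have key : ∀ (l : List ℕ) (x : ℕ), l.foldl min x ≤ x := by
    intro l
    induction l with
    | nil => intro x; exact le_rfl
    | cons b l ih =>
      intro x
      exact (ih (min x b)).trans (min_le_left _ _)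
  refine Poly.foldl (F := fun _ x y => min x y) hl hs ?_ (Polynomial.C 2 * r) ?_
  · fun_prop
  · intro a k _
    refine (sz_nat_mono_le (key _ (s a))).trans ?_
    simp only [Polynomial.eval_mul, Polynomial.eval_C]
    exact Nat.mul_le_mul_left _ (hr a)

@[fun_prop]
theorem poly_range_len {l : α → List β} (hl : Poly l) : Poly (fun a => List.range (l a).length) :=
  Poly.range_length hl

@[fun_prop]
theorem poly_range_len_succ {l : α → List β} (hl : Poly l) :
    Poly (fun a => List.range ((l a).length + 1)) :=
  ((UPoly.length hl).add (UPoly.const 1)).range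

@[fun_prop]
theorem poly_lists {l : α → List ℕ} (hl : Poly l) (k : ℕ) : Poly (fun a => lists (l a) k) := by
  induction k with
  | zero => exact NPC.Poly.const _
  | succ k ih =>
    show Poly (fun a => (l a).flatMap fun x => (lists (l a) k).map fun b => x :: b)
    refine Poly.flatMap (F := fun a x => (lists (l a) k).map fun b => x :: b) hl ?_
    refine NPC.Poly.map (l := fun p : α × ℕ => lists (l p.1) k)
      (F := fun (p : α × ℕ) b => p.2 :: b) (ih.comp (Poly.fst Poly.id)) ?_
    exact Poly.cons (Poly.snd (Poly.fst Poly.id)) (Poly.snd Poly.id)

end Basic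

section Main

variable {α : Type} [TEnc α]

@[fun_prop]
theorem poly_adL {A : α → List (List Bool)} {u v : α → ℕ} (hA : Poly A) (hu : Poly u)
    (hv : Poly v) : Poly (fun a => adL (A a) (u a) (v a)) := by
  unfold adL
  fun_prop

@[fun_prop]
theorem poly_rem {A : α → List (List Bool)} {B : α → List ℕ} (hA : Poly A) (hB : Poly B) :
    Poly (fun a => rem (A a) (B a)) := by
  unfold rem
  fun_prop

@[fun_prop]
theorem poly_dgL {A : α → List (List Bool)} {B : α → List ℕ} {v : α → ℕ} (hA : Poly A)
    (hB : Poly B) (hv : Poly v) : Poly (fun a => dgL (A a) (B a) (v a)) := by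
  unfold dgL
  fun_prop

@[fun_prop]
theorem poly_s3L {A : α → List (List Bool)} {B : α → List ℕ} (hA : Poly A) (hB : Poly B) :
    Poly (fun a => s3L (A a) (B a)) := by
  unfold s3L
  fun_prop

@[fun_prop]
theorem poly_stepL {A : α → List (List Bool)} {B : α → List ℕ} (hA : Poly A) (hB : Poly B) :
    Poly (fun a => stepL (A a) (B a)) := by
  unfold stepL
  fun_prop

/-- the sets of the greedy sequence are small -/
lemma fold_small (A : List (List Bool)) : ∀ (l : List ℕ) (B : List ℕ),
    (∀ v ∈ B, v < A.length) →
    (∀ v ∈ l.foldl (fun B _ => stepL A B) B, v < A.length) ∧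
      (l.foldl (fun B _ => stepL A B) B).length ≤ B.length + l.length := by
  intro l
  induction l with
  | nil => intro B hB; exact ⟨hB, by simp⟩
  | cons x l ih =>
    intro B hB
    have h1 : ∀ v ∈ stepL A B, v < A.length := by
      intro v hv
      unfold stepL at hv
      rw [List.mem_append] at hv
      rcases hv with hv | hv
      · have h2 := List.mem_of_mem_take hv
        rw [List.mem_filter] at h2
        have h3 := h2.1
        unfold rem at h3
        rw [List.mem_filter, List.mem_range] at h3
        exact h3.1
      · exact hB v hv
    have h2 : (stepL A B).length ≤ 1 + B.length := by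
      unfold stepL
      rw [List.length_append, List.length_take]
      omega
    obtain ⟨h3, h4⟩ := ih (stepL A B) h1
    refine ⟨h3, ?_⟩
    rw [List.foldl_cons, List.length_cons]
    omega

theorem poly_preL {A : α → List (List Bool)} {j : α → ℕ} (hA : Poly A) (hj : Poly j) :
    Poly (fun a => preL (A a) (min (j a) (A a).length)) := by
  unfold preL
  have hr : Poly (fun a => List.range (min (j a) (A a).length)) :=
    (UPoly.of_le (Poly.min hj (Poly.length hA)) (UPoly.length hA) fun a => min_le_right _ _).range
  obtain ⟨p, hp⟩ := hA.sz_le
  refine Poly.foldl (s := fun _ => ([] : List ℕ)) (F := fun a B _ => stepL (A a) B) hr (NPC.Poly.const _) ?_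
    (p * (Polynomial.C 4 * p + Polynomial.C 2) + Polynomial.C 1) ?_
  · fun_prop
  · intro a k hk
    obtain ⟨h1, h2⟩ := fold_small (A a) ((List.range (min (j a) (A a).length)).take k) [] (by simp)
    have h3 : ((List.range (min (j a) (A a).length)).take k).length ≤ (A a).length := by
      rw [List.length_take, List.length_range]
      omega
    have hlen : (A a).length ≤ p.eval (sz a) := (length_lt_sz (A a)).le.trans (hp a)
    have h4 := sz_le_length_mul _ (4 * (A a).length + 1) (fun v hv => by
      have h5 := h1 v hv
      have h6 := sz_nat_le v
      have h7 : v.size ≤ v := Nat.size_le.2 Nat.lt_two_pow_self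
      omega)
    refine h4.trans ?_
    rw [List.length_nil, zero_add] at h2
    simp only [Polynomial.eval_add, Polynomial.eval_mul, Polynomial.eval_C]
    refine Nat.add_le_add_right (Nat.mul_le_mul (h2.trans (h3.trans hlen)) ?_) 1
    omega

@[fun_prop]
theorem poly_cand {A : α → List (List Bool)} {pa : α → List (List Bool)} {P R S t : α → List ℕ}
    (hA : Poly A) (hpa : Poly pa) (hP : Poly P) (hR : Poly R) (hS : Poly S) (ht : Poly t) :
    Poly (fun a => cand (A a) (pa a) (P a) (R a) (S a) (t a)) := by
  unfold cand
  fun_prop

@[fun_prop]
theorem poly_val {A : α → List (List Bool)} {B : α → List ℕ} (hA : Poly A) (hB : Poly B) :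
    Poly (fun a => val (A a) (B a)) := by
  unfold val
  refine Poly.ite (Poly.decide_bool (poly_s3L hA hB)) ?_ ?_
  · fun_prop
  · fun_prop

end Main

/-- PO -/
theorem t_PO : S_PO := by
  intro c r
  have h : Poly (fun A : List (List Bool) =>
      ((List.range (A.length + 1)).flatMap fun j =>
        (lists (List.range (A.length + 1)) c).flatMap fun R =>
          (lists (List.range (A.length + 1)) r).flatMap fun S =>
            (lists (List.range (A.length + 1)) (bools c).length).map fun t =>
              val A (cand A (bools c) (preL A (min j A.length)) R S t)).foldl min (A.length - 2)) := by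
    refine poly_foldl_min ?_ (by fun_prop)
    refine Poly.flatMap (l := fun A : List (List Bool) => List.range (A.length + 1))
      (F := fun A j => (lists (List.range (A.length + 1)) c).flatMap fun R =>
          (lists (List.range (A.length + 1)) r).flatMap fun S =>
            (lists (List.range (A.length + 1)) (bools c).length).map fun t =>
              val A (cand A (bools c) (preL A (min j A.length)) R S t)) (by fun_prop) ?_
    refine Poly.flatMap
      (l := fun p : List (List Bool) × ℕ => lists (List.range (p.1.length + 1)) c)
      (F := fun p R => (lists (List.range (p.1.length + 1)) r).flatMap fun S =>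
            (lists (List.range (p.1.length + 1)) (bools c).length).map fun t =>
              val p.1 (cand p.1 (bools c) (preL p.1 (min p.2 p.1.length)) R S t))
      (by fun_prop) ?_
    refine Poly.flatMap
      (l := fun p : (List (List Bool) × ℕ) × List ℕ => lists (List.range (p.1.1.length + 1)) r)
      (F := fun p S => (lists (List.range (p.1.1.length + 1)) (bools c).length).map fun t =>
              val p.1.1 (cand p.1.1 (bools c) (preL p.1.1 (min p.1.2 p.1.1.length)) p.2 S t))
      (by fun_prop) ?_
    refine NPC.Poly.map
      (l := fun p : ((List (List Bool) × ℕ) × List ℕ) × List ℕ =>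
        lists (List.range (p.1.1.1.length + 1)) (bools c).length)
      (F := fun p t =>
        val p.1.1.1 (cand p.1.1.1 (bools c) (preL p.1.1.1 (min p.1.1.2 p.1.1.1.length)) p.1.2 p.2 t))
      (by fun_prop) ?_
    refine poly_val (by fun_prop) (poly_cand (by fun_prop) (NPC.Poly.const _) ?_ (by fun_prop)
      (by fun_prop) (by fun_prop))
    exact poly_preL (A := fun p : (((List (List Bool) × ℕ) × List ℕ) × List ℕ) × List ℕ => p.1.1.1.1)
      (j := fun p => p.1.1.1.2) (by fun_prop) (by fun_prop)
  refine h.congr fun A => ?_
  unfold algL
  congr 1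
  have e : ∀ j ∈ List.range (A.length + 1), min j A.length = j := by
    intro j hj
    rw [List.mem_range] at hj
    omega
  rw [List.flatMap_def, List.flatMap_def]
  congr 1
  refine List.map_congr_left fun j hj => ?_
  rw [e j hj]

end Pool.Agent.R288.FT.PPO
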